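import Pool.Agent.H80.EQ.Words

set_option autoImplicit false

namespace Pool.Agent.H80.EQ

open FreeMonoid

variable {A B : Type}

/-- Pairs of homomorphisms. -/
abbrev HPair (A B : Type) := (FreeMonoid A →* FreeMonoid B) × (FreeMonoid A →* FreeMonoid B)

/-- The intersection of the equality sets of the pairs in `T`. -/
def EqS (T : Set (HPair A B)) : Set (FreeMonoid A) := {x | ∀ p ∈ T, p.1 x = p.2 x}

/-- Prefixes of elements of `EqS T`. -/
def Pre (T : Set (HPair A B)) (z : FreeMonoid A) : Prop := ∃ y, z * y ∈ EqS T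

theorem EqS_mono {T T' : Set (HPair A B)} (h : T ⊆ T') : EqS T' ⊆ EqS T :=
  fun _ hx p hp => hx p (h hp)

theorem one_mem_EqS (T : Set (HPair A B)) : (1 : FreeMonoid A) ∈ EqS T := by
  intro p _; simp

theorem mul_mem_EqS {T : Set (HPair A B)} {x y : FreeMonoid A} (hx : x ∈ EqS T)
    (hy : y ∈ EqS T) : x * y ∈ EqS T := by
  intro p hp
  rw [map_mul, map_mul, hx p hp, hy p hp]

theorem pow_mem_EqS {T : Set (HPair A B)} {x : FreeMonoid A} (hx : x ∈ EqS T) (n : ℕ) :
    x ^ n ∈ EqS T := by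
  intro p hp
  rw [map_pow, map_pow, hx p hp]

theorem Pre_mono {T T' : Set (HPair A B)} (h : T ⊆ T') {z : FreeMonoid A} (hz : Pre T' z) :
    Pre T z := by
  obtain ⟨y, hy⟩ := hz
  exact ⟨y, EqS_mono h hy⟩

theorem Pre_of_dvd {T : Set (HPair A B)} {z z' : FreeMonoid A} (h : z ∣ z') (hz : Pre T z') :
    Pre T z := by
  obtain ⟨c, rfl⟩ := h
  obtain ⟨y, hy⟩ := hz
  exact ⟨c * y, by rw [← mul_assoc]; exact hy⟩

theorem ext_long {T : Set (HPair A B)} {z : FreeMonoid A} (hz : Pre T z) (hne : z ≠ 1) (N : ℕ) :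
    ∃ y, z * y ∈ EqS T ∧ N ≤ y.length := by
  obtain ⟨y, hy⟩ := hz
  refine ⟨y * (z * y) ^ N, ?_, ?_⟩
  · rw [← mul_assoc]
    exact mul_mem_EqS hy (pow_mem_EqS hy N)
  · rw [FreeMonoid.length_mul, length_pow', FreeMonoid.length_mul]
    have : z.length ≠ 0 := fun h => hne (FreeMonoid.length_eq_zero.mp h)
    have h2 : N * 1 ≤ N * (z.length + y.length) := Nat.mul_le_mul_left N (by omega)
    omega

/-- Labels: two words of length `k + 1` with distinct first letters. -/
def Lab (k : ℕ) (p r : FreeMonoid A) : Prop :=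
  p.length = k + 1 ∧ r.length = k + 1 ∧ ∃ a b, a ≠ b ∧ of a ∣ p ∧ of b ∣ r

theorem Lab.symm {k : ℕ} {p r : FreeMonoid A} (h : Lab k p r) : Lab k r p := by
  obtain ⟨h1, h2, a, b, hab, ha, hb⟩ := h
  exact ⟨h2, h1, b, a, Ne.symm hab, hb, ha⟩

/-- The label `(p, r)` occurs at `z`. -/
def Occ (T : Set (HPair A B)) (z p r : FreeMonoid A) : Prop := Pre T (z * p) ∧ Pre T (z * r)

theorem Occ.symm {T : Set (HPair A B)} {z p r : FreeMonoid A} (h : Occ T z p r) : Occ T z r p :=
  ⟨h.2, h.1⟩

theorem Occ_mono {T T' : Set (HPair A B)} (h : T ⊆ T') {z p r : FreeMonoid A}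
    (hz : Occ T' z p r) : Occ T z p r := ⟨Pre_mono h hz.1, Pre_mono h hz.2⟩

/-- Every prefix can be extended to one having a given longer length. -/
theorem exists_dir {T : Set (HPair A B)} {z : FreeMonoid A} {a : A} (k : ℕ)
    (h : Pre T (z * of a)) : ∃ p : FreeMonoid A, p.length = k + 1 ∧ of a ∣ p ∧ Pre T (z * p) := by
  have hne : z * of a ≠ 1 := by
    intro h1
    have := congrArg FreeMonoid.length h1
    rw [FreeMonoid.length_mul] at this
    simp at this
  obtain ⟨y, hy, hl⟩ := ext_long h hne (k + 1)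
  have hl2 : k + 1 ≤ (of a * y).length := by rw [FreeMonoid.length_mul]; omega
  obtain ⟨p, hp, hpl⟩ := exists_take (of a * y) (k + 1) hl2
  refine ⟨p, hpl, ?_, ?_⟩
  · apply dvd_of_dvd_of_le (w := of a * y) ⟨y, rfl⟩ hp
    rw [hpl, FreeMonoid.length_of]; omega
  · apply Pre_of_dvd (z' := z * (of a * y))
    · exact mul_dvd_mul_left z hp
    · exact ⟨1, by rw [mul_one, ← mul_assoc]; exact hy⟩

/-- `ζ` is the constant divergence point of the images of `p…` and `r…`. -/
def Div (g : FreeMonoid A →* FreeMonoid B) (p r : FreeMonoid A) (ζ : FreeMonoid B) : Prop :=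
  ∃ c d : B, c ≠ d ∧ (∀ w, ζ.length < (g (p * w)).length → ζ * of c ∣ g (p * w)) ∧
    (∀ w, ζ.length < (g (r * w)).length → ζ * of d ∣ g (r * w))

/-- Uniform divergence at depth `k`: `g` is nonerasing and for all words `p`, `r` of length
`k + 1` with distinct first letters the longest common prefix of `g (p w)` and `g (r w')` does
not depend on `w`, `w'` (as long as the images are longer than it). -/
def UD (k : ℕ) (g : FreeMonoid A →* FreeMonoid B) : Prop :=
  (∀ a, g (of a) ≠ 1) ∧ ∀ p r, Lab k p r → ∃ ζ, Div g p r ζ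

open Classical in
/-- The divergence point. -/
noncomputable def zeta (g : FreeMonoid A →* FreeMonoid B) (p r : FreeMonoid A) : FreeMonoid B :=
  if h : ∃ ζ, Div g p r ζ then Classical.choose h else 1

theorem zeta_spec {k : ℕ} {g : FreeMonoid A →* FreeMonoid B} (hg : UD k g) {p r : FreeMonoid A}
    (h : Lab k p r) : Div g p r (zeta g p r) := by
  have hex := hg.2 p r h
  unfold zeta
  rw [dif_pos hex]
  exact Classical.choose_spec hex

/-- Words version of the key identity at a branching point. -/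
theorem key_words {g h : FreeMonoid A →* FreeMonoid B} {z p r x y : FreeMonoid A}
    {ζ η : FreeMonoid B} (hζ : Div g p r ζ) (hη : Div h p r η)
    (hx : g (z * (p * x)) = h (z * (p * x))) (hy : g (z * (r * y)) = h (z * (r * y)))
    (l1 : ζ.length < (g (p * x)).length) (l2 : η.length < (h (p * x)).length)
    (l3 : ζ.length < (g (r * y)).length) (l4 : η.length < (h (r * y)).length) :
    g z * ζ = h z * η := by
  obtain ⟨c, d, hcd, hc, hd⟩ := hζ
  obtain ⟨c', d', hcd', hc', hd'⟩ := hη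
  have e1 : g z * ζ * of c ∣ g (z * (p * x)) := by
    rw [map_mul, mul_assoc]; exact mul_dvd_mul_left _ (hc x l1)
  have e2 : g z * ζ * of d ∣ g (z * (r * y)) := by
    rw [map_mul, mul_assoc]; exact mul_dvd_mul_left _ (hd y l3)
  have e3 : h z * η * of c' ∣ g (z * (p * x)) := by
    rw [hx, map_mul, mul_assoc]; exact mul_dvd_mul_left _ (hc' x l2)
  have e4 : h z * η * of d' ∣ g (z * (r * y)) := by
    rw [hy, map_mul, mul_assoc]; exact mul_dvd_mul_left _ (hd' y l4)
  have f1 : g z * ζ ∣ g (z * (p * x)) := (Dvd.intro _ rfl).trans e1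
  have f3 : h z * η ∣ g (z * (p * x)) := (Dvd.intro _ rfl).trans e3
  have f4 : h z * η ∣ g (z * (r * y)) := (Dvd.intro _ rfl).trans e4
  have f2 : g z * ζ ∣ g (z * (r * y)) := (Dvd.intro _ rfl).trans e2
  rcases lt_trichotomy (g z * ζ).length (h z * η).length with hl | hl | hl
  · exfalso
    have k1 : g z * ζ * of c ∣ h z * η := dvd_of_dvd_of_le e1 f3 (by
      rw [FreeMonoid.length_mul, FreeMonoid.length_of]; omega)
    have k2 : g z * ζ * of d ∣ h z * η := dvd_of_dvd_of_le e2 f4 (by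
      rw [FreeMonoid.length_mul, FreeMonoid.length_of]; omega)
    exact hcd (of_ne_of_dvd k1 k2)
  · exact eq_of_dvd_dvd f1 f3 hl
  · exfalso
    have k1 : h z * η * of c' ∣ g z * ζ := dvd_of_dvd_of_le e3 f1 (by
      rw [FreeMonoid.length_mul, FreeMonoid.length_of]; omega)
    have k2 : h z * η * of d' ∣ g z * ζ := dvd_of_dvd_of_le e4 f2 (by
      rw [FreeMonoid.length_mul, FreeMonoid.length_of]; omega)
    exact hcd' (of_ne_of_dvd k1 k2)

theorem Lab.ne_one_left {k : ℕ} {p r : FreeMonoid A} (h : Lab k p r) : p ≠ 1 := by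
  intro h1
  have := h.1
  rw [h1] at this
  simp at this

theorem Lab.mul_ne_one {k : ℕ} {p r : FreeMonoid A} (h : Lab k p r) (z : FreeMonoid A) :
    z * p ≠ 1 := by
  intro h1
  have := congrArg FreeMonoid.length h1
  rw [FreeMonoid.length_mul, h.1] at this
  simp at this

theorem long_image {g : FreeMonoid A →* FreeMonoid B} (hg : ∀ a, g (of a) ≠ 1)
    {p x : FreeMonoid A} {n : ℕ} (h : n < x.length) : n < (g (p * x)).length := by
  have := length_le_map g hg (p * x)
  rw [FreeMonoid.length_mul] at this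
  omega

theorem key {k : ℕ} {T : Set (HPair A B)} {q : HPair A B} (hq : q ∈ T) (h1 : UD k q.1)
    (h2 : UD k q.2) {z p r : FreeMonoid A} (hl : Lab k p r) (ho : Occ T z p r) :
    q.1 z * zeta q.1 p r = q.2 z * zeta q.2 p r := by
  set N := (zeta q.1 p r).length + (zeta q.2 p r).length + 1 with hN
  obtain ⟨x, hx, hxl⟩ := ext_long ho.1 (hl.mul_ne_one z) N
  obtain ⟨y, hy, hyl⟩ := ext_long ho.2 (hl.symm.mul_ne_one z) N
  apply key_words (zeta_spec h1 hl) (zeta_spec h2 hl) (x := x) (y := y)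
  · rw [← mul_assoc]; exact hx q hq
  · rw [← mul_assoc]; exact hy q hq
  · exact long_image h1.1 (by omega)
  · exact long_image h2.1 (by omega)
  · exact long_image h1.1 (by omega)
  · exact long_image h2.1 (by omega)

/-- The set of continuations depends only on an occurring label. -/
theorem follow {k : ℕ} {T : Set (HPair A B)} (hT : ∀ q ∈ T, UD k q.1 ∧ UD k q.2)
    {z z' p r y : FreeMonoid A} (hl : Lab k p r) (ho : Occ T z p r) (ho' : Occ T z' p r)
    (hy : z * y ∈ EqS T) : z' * y ∈ EqS T := by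
  intro q hq
  have e1 := key hq (hT q hq).1 (hT q hq).2 hl ho
  have e2 := key hq (hT q hq).1 (hT q hq).2 hl ho'
  have e3 := hy q hq
  rw [map_mul, map_mul] at e3 ⊢
  exact transfer e1 e2 e3

theorem follow_pre {k : ℕ} {T : Set (HPair A B)} (hT : ∀ q ∈ T, UD k q.1 ∧ UD k q.2)
    {z z' p r y : FreeMonoid A} (hl : Lab k p r) (ho : Occ T z p r) (ho' : Occ T z' p r)
    (hy : Pre T (z * y)) : Pre T (z' * y) := by
  obtain ⟨u, hu⟩ := hy
  refine ⟨u, ?_⟩
  rw [mul_assoc] at hu ⊢
  exact follow hT hl ho ho' hu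

/-- At a point where some label occurs, every available direction is the first component of
an occurring label. -/
theorem other_dir {k : ℕ} {T : Set (HPair A B)} {z p r p' : FreeMonoid A} (hl : Lab k p r)
    (ho : Occ T z p r) (hp' : p'.length = k + 1) (hpre : Pre T (z * p')) :
    (Lab k p' p ∧ Occ T z p' p) ∨ (Lab k p' r ∧ Occ T z p' r) := by
  obtain ⟨l1, l2, a, b, hab, ha, hb⟩ := hl
  obtain ⟨c, hc⟩ := exists_head p' (by omega)
  by_cases hca : c = a
  · right
    exact ⟨⟨hp', l2, c, b, by rw [hca]; exact hab, hc, hb⟩, hpre, ho.2⟩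
  · left
    exact ⟨⟨hp', l1, c, a, hca, hc, ha⟩, hpre, ho.1⟩

end Pool.Agent.H80.EQ
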