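import Pool.Agent.H80.EQ.Stable

set_option autoImplicit false

namespace Pool.Agent.H80.EQ

open FreeMonoid

variable {A B : Type}

/-- Finite determination of the intersection of the equality sets of the pairs in `S`. -/
def FD (S : Set (HPair A B)) : Prop := ∃ T : Set (HPair A B), T.Finite ∧ T ⊆ S ∧ EqS T ⊆ EqS S

theorem FD_union {S1 S2 : Set (HPair A B)} (h1 : FD S1) (h2 : FD S2) : FD (S1 ∪ S2) := by
  obtain ⟨T1, f1, s1, e1⟩ := h1
  obtain ⟨T2, f2, s2, e2⟩ := h2
  refine ⟨T1 ∪ T2, f1.union f2, Set.union_subset_union s1 s2, ?_⟩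
  intro x hx p hp
  rcases hp with hp | hp
  · exact e1 (EqS_mono Set.subset_union_left hx) p hp
  · exact e2 (EqS_mono Set.subset_union_right hx) p hp

theorem pow_left_cancel {u v : FreeMonoid B} {n : ℕ} (hn : n ≠ 0) (h : u ^ n = v ^ n) : u = v := by
  have hl := congrArg FreeMonoid.length h
  rw [length_pow', length_pow'] at hl
  have hl2 : u.length = v.length := Nat.eq_of_mul_eq_mul_left (Nat.pos_of_ne_zero hn) hl
  apply eq_of_dvd_dvd (w := u ^ n) (dvd_pow_self u hn) _ hl2
  rw [h]; exact dvd_pow_self v hn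

/-- If `x` and a nonempty solution `x2` commute then `x` is a solution. -/
theorem sol_of_commute {q : HPair A B} {x x2 : FreeMonoid A} (h : x * x2 = x2 * x) (h2 : x2 ≠ 1)
    (hq : q.1 x2 = q.2 x2) : q.1 x = q.2 x := by
  have hc : Commute x x2 := h
  have hl : (x ^ x2.length).length = (x2 ^ x.length).length := by
    rw [length_pow', length_pow', mul_comm]
  have he : x ^ x2.length = x2 ^ x.length :=
    eq_of_commute_of_length ((hc.pow_pow _ _).eq) hl
  have hne : x2.length ≠ 0 := fun h => h2 (FreeMonoid.length_eq_zero.mp h)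
  apply pow_left_cancel hne
  rw [← map_pow, ← map_pow, he, map_pow, map_pow, hq]

/-- If two elements of the intersection always commute, finite determination holds. -/
theorem FD_of_comm {S T : Set (HPair A B)} (hT : T ⊆ S) (hTf : T.Finite)
    (hc : ∀ x ∈ EqS T, ∀ y ∈ EqS T, x * y = y * x) : FD S := by
  by_cases htriv : ∃ T' : Set (HPair A B), T'.Finite ∧ T' ⊆ S ∧ ∀ x ∈ EqS T', x = 1
  · obtain ⟨T', f, s, e⟩ := htriv
    refine ⟨T', f, s, ?_⟩
    intro x hx
    rw [e x hx]
    exact one_mem_EqS S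
  · push Not at htriv
    refine ⟨T, hTf, hT, ?_⟩
    intro x hx q hq
    obtain ⟨x2, hx2, hx21⟩ := htriv (insert q T) (hTf.insert q)
      (Set.insert_subset hq hT)
    exact sol_of_commute (hc x hx x2 (EqS_mono (Set.subset_insert q T) hx2)) hx21
      (hx2 q (Set.mem_insert q T))

section

variable [Fintype A]

theorem comm_of_no_branching {k : ℕ} {T : Set (HPair A B)} (h : Br k T = ∅) :
    ∀ x ∈ EqS T, ∀ y ∈ EqS T, x * y = y * x := by
  intro x hx y hy
  by_contra hne
  have hl : (x * y).length = (y * x).length := by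
    rw [FreeMonoid.length_mul, FreeMonoid.length_mul]; omega
  have hnd : ¬ x * y ∣ y * x := fun hd => hne (eq_of_dvd_of_length hd hl)
  obtain ⟨z, a, b, hab, ha, hb⟩ := diverge_of_le hnd hl.le
  have hpa : Pre T (z * of a) := Pre_of_dvd ha ⟨1, by rw [mul_one]; exact mul_mem_EqS hx hy⟩
  have hpb : Pre T (z * of b) := Pre_of_dvd hb ⟨1, by rw [mul_one]; exact mul_mem_EqS hy hx⟩
  obtain ⟨pa, hpal, hpad, hpap⟩ := exists_dir k hpa
  obtain ⟨pb, hpbl, hpbd, hpbp⟩ := exists_dir k hpb
  have : (pa, pb) ∈ Br k T := ⟨⟨hpal, hpbl, a, b, hab, hpad, hpbd⟩, z, hpap, hpbp⟩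
  rw [h] at this
  exact this

/-- Finite determination for pairs of uniformly diverging homomorphisms. -/
theorem FD_UD (k : ℕ) (S : Set (HPair A B)) (hS : ∀ q ∈ S, UD k q.1 ∧ UD k q.2) : FD S := by
  classical
  by_cases htriv : ∃ T' : Set (HPair A B), T'.Finite ∧ T' ⊆ S ∧ ∀ x ∈ EqS T', x = 1
  · obtain ⟨T', f, s, e⟩ := htriv
    refine ⟨T', f, s, ?_⟩
    intro x hx
    rw [e x hx]
    exact one_mem_EqS S
  push Not at htriv
  let m : Set (HPair A B) → ℕ := fun T => (Br k T).ncard + Module.finrank ℚ (Uspan k T)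
  have hex : ∃ n, ∃ T : Set (HPair A B), T.Finite ∧ T ⊆ S ∧ m T = n :=
    ⟨m ∅, ∅, Set.finite_empty, Set.empty_subset S, rfl⟩
  obtain ⟨T, hTf, hTS, hTm⟩ := Nat.find_spec hex
  have hmin : ∀ T' : Set (HPair A B), T'.Finite → T' ⊆ S → m T ≤ m T' := by
    intro T' hf hs
    rw [hTm]
    exact Nat.find_min' hex ⟨T', hf, hs, rfl⟩
  by_cases hbr : (Br k T).Nonempty
  · refine ⟨T, hTf, hTS, ?_⟩
    intro x hx q hq
    have hTT2 : T ⊆ insert q T := Set.subset_insert q T
    have hT2S : insert q T ⊆ S := Set.insert_subset hq hTS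
    have hm := hmin (insert q T) (hTf.insert q) hT2S
    have h1 : (Br k (insert q T)).ncard ≤ (Br k T).ncard :=
      Set.ncard_le_ncard (Br_mono k hTT2) (Br_finite k T)
    have h2 : Module.finrank ℚ (Uspan k (insert q T)) ≤ Module.finrank ℚ (Uspan k T) :=
      Submodule.finrank_mono (Uspan_mono k hTT2)
    have h3 : Br k (insert q T) = Br k T := by
      apply Set.eq_of_subset_of_ncard_le (Br_mono k hTT2) _ (Br_finite k T)
      simp only [m] at hm; omega
    have h4 : Uspan k (insert q T) = Uspan k T := by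
      apply Submodule.eq_of_le_of_finrank_le (Uspan_mono k hTT2)
      simp only [m] at hm; omega
    obtain ⟨x2, hx2, hx21⟩ := htriv (insert q T) (hTf.insert q) hT2S
    exact stable_step hTT2 (fun p hp => hS p (hTS hp)) (Set.mem_insert q T) (hS q hq).1 (hS q hq).2
      h3 h4 ⟨x2, hx2, hx21⟩ hbr hx
  · exact FD_of_comm hTS hTf (comm_of_no_branching (Set.not_nonempty_iff_eq_empty.mp hbr))

/-- Pairs whose equality set is given by linear conditions on the Parikh vector. -/
theorem FD_lin (S : Set (HPair A B))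
    (hS : ∀ q ∈ S, ∃ W : Submodule ℚ (A → ℚ), ∀ x, q.1 x = q.2 x ↔ par x ∈ W) : FD S := by
  classical
  choose! W hW using hS
  let V : Set (HPair A B) → Submodule ℚ (A → ℚ) := fun T => ⨅ q ∈ T, W q
  have hV : ∀ T ⊆ S, ∀ x, x ∈ EqS T ↔ par x ∈ V T := by
    intro T hT x
    simp only [V, Submodule.mem_iInf]
    constructor
    · intro hx q hq; exact (hW q (hT hq) x).1 (hx q hq)
    · intro hx q hq; exact (hW q (hT hq) x).2 (hx q hq)
  let m : Set (HPair A B) → ℕ := fun T => Module.finrank ℚ (V T)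
  have hex : ∃ n, ∃ T : Set (HPair A B), T.Finite ∧ T ⊆ S ∧ m T = n :=
    ⟨m ∅, ∅, Set.finite_empty, Set.empty_subset S, rfl⟩
  obtain ⟨T, hTf, hTS, hTm⟩ := Nat.find_spec hex
  have hmin : ∀ T' : Set (HPair A B), T'.Finite → T' ⊆ S → m T ≤ m T' := by
    intro T' hf hs
    rw [hTm]
    exact Nat.find_min' hex ⟨T', hf, hs, rfl⟩
  refine ⟨T, hTf, hTS, ?_⟩
  intro x hx q hq
  have hm := hmin (insert q T) (hTf.insert q) (Set.insert_subset hq hTS)
  have hle : V (insert q T) ≤ V T := by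
    simp only [V]
    exact biInf_mono (fun p hp => Set.mem_insert_of_mem q hp)
  have heq : V (insert q T) = V T := Submodule.eq_of_le_of_finrank_le hle hm
  have h1 : x ∈ EqS (insert q T) := by
    rw [hV _ (Set.insert_subset hq hTS), heq, ← hV T hTS]
    exact hx
  exact h1 q (Set.mem_insert q T)

end

/-- Deciphering delay at most `k` (from left to right), nonerasing; `k = 0`: prefix codes. -/
def Delay (k : ℕ) (g : FreeMonoid A →* FreeMonoid B) : Prop :=
  (∀ a, g (of a) ≠ 1) ∧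
    ∀ (a b : A) (u v : FreeMonoid A), a ≠ b → u.length = k → ¬ g (of a * u) ∣ g (of b * v)

theorem UD_of_Delay {k : ℕ} {g : FreeMonoid A →* FreeMonoid B} (h : Delay k g) : UD k g := by
  refine ⟨h.1, ?_⟩
  rintro p r ⟨hp, hr, a, b, hab, ⟨u, rfl⟩, ⟨v, rfl⟩⟩
  rw [FreeMonoid.length_mul, FreeMonoid.length_of] at hp hr
  have h1 := h.2 a b u v hab (by omega)
  have h2 := h.2 b a v u (Ne.symm hab) (by omega)
  obtain ⟨ζ, c, d, hcd, hc, hd⟩ := diverge h1 h2
  refine ⟨ζ, c, d, hcd, ?_, ?_⟩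
  · intro w _
    rw [map_mul]; exact hc.trans (Dvd.intro _ rfl)
  · intro w _
    rw [map_mul]; exact hd.trans (Dvd.intro _ rfl)

end Pool.Agent.H80.EQ
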