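import Pool.Agent.H80.EQ.Param

set_option autoImplicit false

namespace Pool.Agent.H80.EQ

open MvPolynomial

variable {ι : Type}

/-- A set `J0` of indices is homogeneous for the sequence `κ` of points if every equation
`Q - Q' = d` between polynomials that holds at infinitely many of the points with index in `J0`
holds at all of them. -/
def Homog (κ : ℕ → ι → ℕ) (J0 : Set ℕ) : Prop :=
  ∀ (Q Q' : MvPolynomial ι ℕ) (d : ℤ) (J : Set ℕ), J ⊆ J0 → J.Infinite →
    (∀ j ∈ J, ((MvPolynomial.eval (κ j) Q : ℕ) : ℤ) - ((MvPolynomial.eval (κ j) Q' : ℕ) : ℤ) = d) →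
    ∀ j ∈ J0, ((MvPolynomial.eval (κ j) Q : ℕ) : ℤ) - ((MvPolynomial.eval (κ j) Q' : ℕ) : ℤ) = d

theorem exists_homog [Finite ι] (κ : ℕ → ι → ℕ) (J : Set ℕ) (hJ : J.Infinite) :
    ∃ J0 ⊆ J, J0.Infinite ∧ Homog κ J0 := by
  classical
  let I : Set ℕ → Ideal (MvPolynomial ι ℚ) := fun K =>
    ⨅ j ∈ K, RingHom.ker (MvPolynomial.eval (fun i => (κ j i : ℚ)))
  have memI : ∀ (K : Set ℕ) (p : MvPolynomial ι ℚ), p ∈ I K ↔
      ∀ j ∈ K, MvPolynomial.eval (fun i => (κ j i : ℚ)) p = 0 := by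
    intro K p
    simp only [I, Submodule.mem_iInf, RingHom.mem_ker]
  let 𝒮 : Set (Ideal (MvPolynomial ι ℚ)) := {a | ∃ K ⊆ J, K.Infinite ∧ I K = a}
  have hne : 𝒮.Nonempty := ⟨I J, J, subset_rfl, hJ, rfl⟩
  obtain ⟨a, ⟨J0, hJ0J, hJ0inf, hJ0a⟩, hmax⟩ :=
    set_has_maximal_iff_noetherian.mpr (inferInstance : IsNoetherianRing (MvPolynomial ι ℚ)) 𝒮 hne
  refine ⟨J0, hJ0J, hJ0inf, ?_⟩
  intro Q Q' d K hK hKinf hKd
  let p : MvPolynomial ι ℚ := MvPolynomial.map (Nat.castRingHom ℚ) Q -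
    MvPolynomial.map (Nat.castRingHom ℚ) Q' - C (d : ℚ)
  have hp : ∀ j, MvPolynomial.eval (fun i => (κ j i : ℚ)) p =
      ((MvPolynomial.eval (κ j) Q : ℕ) : ℚ) - ((MvPolynomial.eval (κ j) Q' : ℕ) : ℚ) - d := by
    intro j
    have key : ∀ R : MvPolynomial ι ℕ, MvPolynomial.eval (fun i => (κ j i : ℚ))
        (MvPolynomial.map (Nat.castRingHom ℚ) R) = ((MvPolynomial.eval (κ j) R : ℕ) : ℚ) := by
      intro R
      rw [MvPolynomial.eval_map]
      have := MvPolynomial.eval₂_comp_left (Nat.castRingHom ℚ) (RingHom.id ℕ) (κ j) R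
      simp only [RingHom.comp_id] at this
      rw [MvPolynomial.eval, ← MvPolynomial.coe_eval₂Hom] at *
      simp only [MvPolynomial.coe_eval₂Hom] at *
      rw [show (fun i => (κ j i : ℚ)) = (Nat.castRingHom ℚ) ∘ (κ j) from rfl, ← this]
      rfl
    simp only [p, map_sub, key, eval_C]
  have hle : I J0 ≤ I K := by
    intro r hr
    rw [memI] at hr ⊢
    exact fun j hj => hr j (hK hj)
  have heq : I K = a := by
    by_contra hne
    apply hmax (I K) ⟨K, hK.trans hJ0J, hKinf, rfl⟩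
    rw [← hJ0a] at hne ⊢
    exact lt_of_le_of_ne hle (Ne.symm hne)
  have hpK : p ∈ I K := by
    rw [memI]
    intro j hj
    rw [hp]
    have := hKd j hj
    have h2 : (((MvPolynomial.eval (κ j) Q : ℕ) : ℤ) - ((MvPolynomial.eval (κ j) Q' : ℕ) : ℤ) : ℚ)
        = ((d : ℤ) : ℚ) := by exact_mod_cast this
    push_cast at h2
    linarith
  rw [heq, ← hJ0a, memI] at hpK
  intro j hj
  have := hpK j hj
  rw [hp] at this
  have h3 : ((MvPolynomial.eval (κ j) Q : ℕ) : ℚ) - ((MvPolynomial.eval (κ j) Q' : ℕ) : ℚ)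
      = ((d : ℤ) : ℚ) := by linarith
  exact_mod_cast h3

/-- Exponential sums vanishing at infinitely many points of a homogeneous sequence vanish at
all of its points. -/
theorem sum_vanish (β : ℚ) (hβ : 1 < β) (κ : ℕ → ι → ℕ) (J0 : Set ℕ) (hJ0 : Homog κ J0)
    (q : MvPolynomial ι ℕ → ℚ) : ∀ (n : ℕ) (s : Finset (MvPolynomial ι ℕ)), s.card = n →
    ∀ J ⊆ J0, J.Infinite →
      (∀ j ∈ J, ∑ Q ∈ s, q Q * β ^ (MvPolynomial.eval (κ j) Q) = 0) →
      ∀ i ∈ J0, ∑ Q ∈ s, q Q * β ^ (MvPolynomial.eval (κ i) Q) = 0 := by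
  classical
  intro n
  induction n using Nat.strong_induction_on with
  | _ n ih =>
  intro s hs J hJ hJinf hsum i hi
  rcases s.eq_empty_or_nonempty with rfl | hne
  · simp
  -- choose a dominating term
  have h1 : ∃ Q0 ∈ s, {j ∈ J | ∀ Q ∈ s, MvPolynomial.eval (κ j) Q ≤
      MvPolynomial.eval (κ j) Q0}.Infinite := by
    by_contra hcon
    push Not at hcon
    apply hJinf
    have : J ⊆ ⋃ Q0 ∈ s, {j ∈ J | ∀ Q ∈ s, MvPolynomial.eval (κ j) Q ≤
        MvPolynomial.eval (κ j) Q0} := by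
      intro j hj
      obtain ⟨Q0, hQ0, hmax⟩ := s.exists_max_image (fun Q => MvPolynomial.eval (κ j) Q) hne
      simp only [Set.mem_iUnion]
      exact ⟨Q0, hQ0, hj, fun Q hQ => hmax Q hQ⟩
    refine Set.Finite.subset ?_ this
    apply Set.Finite.biUnion s.finite_toSet
    intro Q0 hQ0
    exact hcon Q0 hQ0
  obtain ⟨Q0, hQ0, hJ1inf⟩ := h1
  set J1 : Set ℕ := {j ∈ J | ∀ Q ∈ s, MvPolynomial.eval (κ j) Q ≤
      MvPolynomial.eval (κ j) Q0} with hJ1
  have hJ1J : J1 ⊆ J := fun j hj => hj.1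
  have hJ1J0 : J1 ⊆ J0 := hJ1J.trans hJ
  let cls : Finset (MvPolynomial ι ℕ) := s.filter (fun Q => ∃ d : ℤ, ∀ j ∈ J0,
    ((MvPolynomial.eval (κ j) Q : ℕ) : ℤ) - ((MvPolynomial.eval (κ j) Q0 : ℕ) : ℤ) = d)
  have hQ0cls : Q0 ∈ cls := by
    simp only [cls, Finset.mem_filter]
    exact ⟨hQ0, 0, fun j _ => by simp⟩
  -- differences
  have hd : ∀ Q ∈ cls, ∃ d : ℤ, ∀ j ∈ J0,
      ((MvPolynomial.eval (κ j) Q : ℕ) : ℤ) - ((MvPolynomial.eval (κ j) Q0 : ℕ) : ℤ) = d :=
    fun Q hQ => (Finset.mem_filter.mp hQ).2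
  choose! d hd using hd
  have hβ0 : β ≠ 0 := by positivity
  set c : ℚ := ∑ Q ∈ cls, q Q * β ^ (d Q) with hc
  have hclass : ∀ j ∈ J0, ∑ Q ∈ cls, q Q * β ^ (MvPolynomial.eval (κ j) Q) =
      c * β ^ (MvPolynomial.eval (κ j) Q0) := by
    intro j hj
    rw [hc, Finset.sum_mul]
    apply Finset.sum_congr rfl
    intro Q hQ
    have := hd Q hQ j hj
    rw [mul_assoc]
    congr 1
    rw [← zpow_natCast β (MvPolynomial.eval (κ j) Q), ← zpow_natCast β (MvPolynomial.eval (κ j) Q0),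
      ← zpow_add₀ hβ0]
    congr 1
    omega
  -- the constant vanishes
  have hc0 : c = 0 := by
    -- a bound for every N
    have hbound : ∀ N : ℕ, |c| ≤ (∑ Q ∈ s \ cls, |q Q|) * (1 / β) ^ N := by
      intro N
      have hfin : {j ∈ J1 | ∃ Q ∈ s \ cls, MvPolynomial.eval (κ j) Q0 <
          MvPolynomial.eval (κ j) Q + N}.Finite := by
        have hsub : {j ∈ J1 | ∃ Q ∈ s \ cls, MvPolynomial.eval (κ j) Q0 <
            MvPolynomial.eval (κ j) Q + N} ⊆ ⋃ Q ∈ s \ cls, ⋃ m ∈ Finset.range N,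
              {j ∈ J1 | ((MvPolynomial.eval (κ j) Q : ℕ) : ℤ) -
                ((MvPolynomial.eval (κ j) Q0 : ℕ) : ℤ) = -(m : ℤ)} := by
          rintro j ⟨hj, Q, hQ, hlt⟩
          simp only [Set.mem_iUnion]
          have hle := hj.2 Q (Finset.mem_sdiff.mp hQ).1
          refine ⟨Q, hQ, MvPolynomial.eval (κ j) Q0 - MvPolynomial.eval (κ j) Q,
            Finset.mem_range.mpr (by omega), hj, ?_⟩
          omega
        refine Set.Finite.subset ?_ hsub
        apply Set.Finite.biUnion (s \ cls).finite_toSet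
        intro Q hQ
        apply Set.Finite.biUnion (Finset.range N).finite_toSet
        intro m _
        by_contra hinf
        have hQ' := Finset.mem_sdiff.mp hQ
        apply hQ'.2
        simp only [cls, Finset.mem_filter]
        refine ⟨hQ'.1, -(m : ℤ), ?_⟩
        exact hJ0 Q Q0 (-(m : ℤ)) _ (fun j hj => hJ1J0 hj.1) hinf (fun j hj => hj.2)
      obtain ⟨j, hj1, hj2⟩ := (hJ1inf.sdiff hfin).nonempty
      have hj3 : ∀ Q ∈ s \ cls, MvPolynomial.eval (κ j) Q + N ≤ MvPolynomial.eval (κ j) Q0 := by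
        intro Q hQ
        by_contra hlt
        exact hj2 ⟨hj1, Q, hQ, by omega⟩
      have hs0 := hsum j (hJ1J hj1)
      have hsplit : ∑ Q ∈ s, q Q * β ^ (MvPolynomial.eval (κ j) Q) =
          ∑ Q ∈ s \ cls, q Q * β ^ (MvPolynomial.eval (κ j) Q) +
            ∑ Q ∈ cls, q Q * β ^ (MvPolynomial.eval (κ j) Q) :=
        (Finset.sum_sdiff (Finset.filter_subset _ _)).symm
      rw [hsplit, hclass j (hJ1J0 hj1)] at hs0
      have hpos : 0 < β ^ (MvPolynomial.eval (κ j) Q0) := by positivity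
      have h5 : |c| * β ^ (MvPolynomial.eval (κ j) Q0) ≤
          (∑ Q ∈ s \ cls, |q Q|) * (β ^ (MvPolynomial.eval (κ j) Q0) * (1 / β) ^ N) := by
        have h6 : c * β ^ (MvPolynomial.eval (κ j) Q0) =
            - ∑ Q ∈ s \ cls, q Q * β ^ (MvPolynomial.eval (κ j) Q) := by linarith
        have h7 : |c| * β ^ (MvPolynomial.eval (κ j) Q0) =
            |∑ Q ∈ s \ cls, q Q * β ^ (MvPolynomial.eval (κ j) Q)| := by
          rw [← abs_neg (∑ Q ∈ s \ cls, q Q * β ^ (MvPolynomial.eval (κ j) Q)), ← h6, abs_mul,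
            abs_of_pos hpos]
        rw [h7, Finset.sum_mul]
        refine (Finset.abs_sum_le_sum_abs _ _).trans (Finset.sum_le_sum fun Q hQ => ?_)
        rw [abs_mul, abs_of_pos (show (0 : ℚ) < β ^ (MvPolynomial.eval (κ j) Q) by positivity)]
        apply mul_le_mul_of_nonneg_left _ (abs_nonneg _)
        have h8 := hj3 Q hQ
        have h9 : β ^ (MvPolynomial.eval (κ j) Q) * β ^ N ≤ β ^ (MvPolynomial.eval (κ j) Q0) := by
          rw [← pow_add]
          exact pow_le_pow_right₀ hβ.le h8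
        rw [one_div, inv_pow, ← div_eq_mul_inv, le_div_iff₀ (by positivity)]
        exact h9
      have h10 : |c| * β ^ (MvPolynomial.eval (κ j) Q0) ≤
          ((∑ Q ∈ s \ cls, |q Q|) * (1 / β) ^ N) * β ^ (MvPolynomial.eval (κ j) Q0) := by
        calc _ ≤ _ := h5
          _ = _ := by ring
      exact le_of_mul_le_mul_right h10 hpos
    have hlim : Filter.Tendsto (fun N : ℕ => (∑ Q ∈ s \ cls, |q Q|) * (1 / β) ^ N)
        Filter.atTop (nhds ((∑ Q ∈ s \ cls, |q Q|) * 0)) := by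
      apply Filter.Tendsto.const_mul
      apply tendsto_pow_atTop_nhds_zero_of_lt_one
      · positivity
      · rw [div_lt_one (by linarith)]; exact hβ
    rw [mul_zero] at hlim
    have := ge_of_tendsto' hlim hbound
    exact abs_nonpos_iff.mp this
  have hclass0 : ∀ j ∈ J0, ∑ Q ∈ cls, q Q * β ^ (MvPolynomial.eval (κ j) Q) = 0 := by
    intro j hj
    rw [hclass j hj, hc0, zero_mul]
  have hcard : (s \ cls).card < n := by
    rw [← hs]
    apply Finset.card_lt_card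
    rw [Finset.ssubset_iff_subset_ne]
    refine ⟨Finset.sdiff_subset, fun h => ?_⟩
    have : Q0 ∈ s \ cls := by rw [h]; exact hQ0
    exact (Finset.mem_sdiff.mp this).2 hQ0cls
  have hrest := ih (s \ cls).card hcard (s \ cls) rfl J hJ hJinf (by
    intro j hj
    have h1 := hsum j hj
    rw [← Finset.sum_sdiff (Finset.filter_subset _ _ : cls ⊆ s), hclass0 j (hJ hj), add_zero] at h1
    exact h1) i hi
  rw [← Finset.sum_sdiff (Finset.filter_subset _ _ : cls ⊆ s), hclass0 i hi, add_zero]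
  exact hrest

theorem ev_vanish (β : ℚ) (hβ : 1 < β) (κ : ℕ → ι → ℕ) (J0 : Set ℕ) (hJ0 : Homog κ J0)
    (F : ES ι) (J : Set ℕ) (hJ : J ⊆ J0) (hJinf : J.Infinite)
    (h : ∀ j ∈ J, ev β (κ j) F = 0) : ∀ i ∈ J0, ev β (κ i) F = 0 := by
  classical
  have key : ∀ k : ι → ℕ, ev β k F = ∑ Q ∈ F.coeff.support, F.coeff Q * β ^ (MvPolynomial.eval k Q) := by
    intro k
    unfold ev
    rw [AddMonoidAlgebra.lift_apply]
    simp [Finsupp.sum]
  intro i hi
  rw [key]
  apply sum_vanish β hβ κ J0 hJ0 (fun Q => F.coeff Q) _ F.coeff.support rfl J hJ hJinf _ i hi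
  intro j hj
  rw [← key]
  exact h j hj

end Pool.Agent.H80.EQ
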