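import Mathlib

set_option autoImplicit false

namespace Pool.Agent.H80.EQ

open MvPolynomial

/-- Parametric words over the alphabet `A`: letters, the empty word, products and powers
whose exponent is one of the parameters `i : ι`. -/
inductive PWord (A ι : Type) : Type
  | one : PWord A ι
  | letter (a : A) : PWord A ι
  | mul (U V : PWord A ι) : PWord A ι
  | pow (U : PWord A ι) (i : ι) : PWord A ι

/-- The word obtained from a parametric word by giving the parameters the values `k i`. -/
def PWord.eval {A ι : Type} (k : ι → ℕ) : PWord A ι → FreeMonoid A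
  | PWord.one => 1
  | PWord.letter a => FreeMonoid.of a
  | PWord.mul U V => U.eval k * V.eval k
  | PWord.pow U i => (U.eval k) ^ (k i)

section Enc

variable {B : Type} [Fintype B]

noncomputable def dig (c : B) : ℕ := (Fintype.equivFin B c : ℕ) + 1

noncomputable def bs (B : Type) [Fintype B] : ℕ := Fintype.card B + 2

noncomputable def nu (u : FreeMonoid B) : ℕ := Nat.ofDigits (bs B) (u.toList.map dig)

theorem dig_injective : Function.Injective (dig : B → ℕ) := by
  intro a b h
  unfold dig at h
  have h1 : (Fintype.equivFin B a : ℕ) = (Fintype.equivFin B b : ℕ) := by omega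
  exact (Fintype.equivFin B).injective (Fin.ext h1)

theorem dig_lt (c : B) : dig c < bs B := by
  unfold dig bs
  have := (Fintype.equivFin B c).isLt
  omega

theorem dig_ne_zero (c : B) : dig c ≠ 0 := by
  unfold dig; omega

theorem one_lt_bs : 1 < bs B := by unfold bs; omega

theorem nu_injective : Function.Injective (nu : FreeMonoid B → ℕ) := by
  intro u v h
  unfold nu at h
  have key : ∀ w : FreeMonoid B, Nat.digits (bs B) (Nat.ofDigits (bs B) (w.toList.map dig)) =
      w.toList.map dig := by
    intro w
    apply Nat.digits_ofDigits (bs B) one_lt_bs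
    · intro l hl
      rw [List.mem_map] at hl
      obtain ⟨c, _, rfl⟩ := hl
      exact dig_lt c
    · intro hne
      rw [List.getLast_map]
      exact dig_ne_zero _
  have h2 : u.toList.map dig = v.toList.map dig := by
    rw [← key u, ← key v, h]
  have h3 : u.toList = v.toList := (List.map_injective_iff.mpr dig_injective) h2
  exact FreeMonoid.toList.injective h3

theorem nu_one : nu (1 : FreeMonoid B) = 0 := by
  unfold nu; simp

theorem nu_mul (u v : FreeMonoid B) :
    (nu (u * v) : ℚ) = nu u + (bs B : ℚ) ^ u.length * nu v := by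
  unfold nu
  rw [FreeMonoid.toList_mul, List.map_append, Nat.ofDigits_append]
  push_cast
  congr 2
  simp [FreeMonoid.length]

theorem length_pow (u : FreeMonoid B) (k : ℕ) : (u ^ k).length = k * u.length := by
  induction k with
  | zero => simp
  | succ k ih => rw [pow_succ, FreeMonoid.length_mul, ih]; ring

theorem nu_pow (u : FreeMonoid B) (k : ℕ) :
    (nu (u ^ k) : ℚ) * ((bs B : ℚ) ^ u.length - 1) =
      nu u * ((bs B : ℚ) ^ (k * u.length) - 1) := by
  induction k with
  | zero => simp [nu_one]
  | succ k ih =>
    rw [pow_succ, nu_mul, length_pow, add_mul, ih]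
    have : (bs B : ℚ) ^ ((k + 1) * u.length) =
        (bs B : ℚ) ^ (k * u.length) * (bs B : ℚ) ^ u.length := by
      rw [← pow_add]; congr 1; ring
    rw [this]
    ring

end Enc

/-! ### Exponential sums -/

section Sums

variable {A B ι : Type} [Fintype B]

/-- The ring of formal exponential sums. -/
abbrev ES (ι : Type) := AddMonoidAlgebra ℚ (MvPolynomial ι ℕ)

/-- Evaluation of exponential sums to base `β` at the point `k`. -/
noncomputable def ev (β : ℚ) (k : ι → ℕ) : ES ι →ₐ[ℚ] ℚ :=
  AddMonoidAlgebra.lift ℚ ℚ (MvPolynomial ι ℕ)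
    { toFun := fun Q => β ^ (MvPolynomial.eval k (Multiplicative.toAdd Q))
      map_one' := by simp
      map_mul' := by
        intro x y
        simp [pow_add] }

theorem ev_single (β : ℚ) (k : ι → ℕ) (Q : MvPolynomial ι ℕ) (q : ℚ) :
    ev β k (AddMonoidAlgebra.single Q q) = q * β ^ (MvPolynomial.eval k Q) := by
  unfold ev
  rw [AddMonoidAlgebra.lift_single]
  simp

/-- The length of the image of a parametric word, as a polynomial. -/
noncomputable def len (g : FreeMonoid A →* FreeMonoid B) : PWord A ι → MvPolynomial ι ℕ
  | PWord.one => 0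
  | PWord.letter a => C (g (FreeMonoid.of a)).length
  | PWord.mul U V => len g U + len g V
  | PWord.pow U i => X i * len g U

theorem eval_len (g : FreeMonoid A →* FreeMonoid B) (W : PWord A ι) (k : ι → ℕ) :
    MvPolynomial.eval k (len g W) = (g (W.eval k)).length := by
  induction W with
  | one => simp [len, PWord.eval]
  | letter a => simp [len, PWord.eval]
  | mul U V hU hV => simp [len, PWord.eval, hU, hV, FreeMonoid.length_mul]
  | pow U i hU => simp [len, PWord.eval, hU, map_pow, length_pow]

/-- The parameter values with prescribed zero set. -/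
def Dom (Z : Set ι) : Set (ι → ℕ) := {k | ∀ i, k i = 0 ↔ i ∈ Z}

theorem len_dich (Z : Set ι) (g : FreeMonoid A →* FreeMonoid B) (W : PWord A ι) :
    (∀ k ∈ Dom Z, (g (W.eval k)).length = 0) ∨ (∀ k ∈ Dom Z, (g (W.eval k)).length ≠ 0) := by
  induction W with
  | one => left; intro k _; simp [PWord.eval]
  | letter a =>
    by_cases h : (g (FreeMonoid.of a)).length = 0
    · left; intro k _; simpa [PWord.eval] using h
    · right; intro k _; simpa [PWord.eval] using h
  | mul U V hU hV =>
    rcases hU with hU | hU
    · rcases hV with hV | hV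
      · left; intro k hk
        simp [PWord.eval, FreeMonoid.length_mul, hU k hk, hV k hk]
      · right; intro k hk
        have := hV k hk
        simp only [PWord.eval, map_mul, FreeMonoid.length_mul]
        omega
    · right; intro k hk
      have := hU k hk
      simp only [PWord.eval, map_mul, FreeMonoid.length_mul]
      omega
  | pow U i hU =>
    by_cases hi : i ∈ Z
    · left; intro k hk
      have : k i = 0 := (hk i).2 hi
      simp [PWord.eval, this]
    · rcases hU with hU | hU
      · left; intro k hk
        simp [PWord.eval, map_pow, length_pow, hU k hk]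
      · right; intro k hk
        have h1 : k i ≠ 0 := fun h => hi ((hk i).1 h)
        have h2 := hU k hk
        simp only [PWord.eval, map_pow, length_pow]
        exact Nat.mul_ne_zero h1 h2

theorem exists_frac (Z : Set ι) (g : FreeMonoid A →* FreeMonoid B) (W : PWord A ι) :
    ∃ P Q : ES ι, ∀ k ∈ Dom Z, ev (bs B : ℚ) k Q ≠ 0 ∧
      (nu (g (W.eval k)) : ℚ) * ev (bs B : ℚ) k Q = ev (bs B : ℚ) k P := by
  induction W with
  | one =>
    refine ⟨0, 1, fun k _ => ⟨by simp, ?_⟩⟩
    simp [PWord.eval, nu_one]
  | letter a =>
    refine ⟨AddMonoidAlgebra.single 0 (nu (g (FreeMonoid.of a)) : ℚ), 1, fun k _ => ⟨by simp, ?_⟩⟩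
    rw [ev_single]
    simp [PWord.eval]
  | mul U V hU hV =>
    obtain ⟨P1, Q1, h1⟩ := hU
    obtain ⟨P2, Q2, h2⟩ := hV
    refine ⟨P1 * Q2 + AddMonoidAlgebra.single (len g U) 1 * P2 * Q1, Q1 * Q2, fun k hk => ?_⟩
    obtain ⟨h1a, h1b⟩ := h1 k hk
    obtain ⟨h2a, h2b⟩ := h2 k hk
    refine ⟨by rw [map_mul]; exact mul_ne_zero h1a h2a, ?_⟩
    simp only [map_add, map_mul, ev_single, eval_len, PWord.eval, nu_mul]
    rw [← h1b, ← h2b]
    ring
  | pow U i hU =>
    rcases len_dich Z g U with hz | hz
    · refine ⟨0, 1, fun k hk => ⟨by simp, ?_⟩⟩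
      have : g (U.eval k) = 1 := by
        have := hz k hk
        exact FreeMonoid.length_eq_zero.mp this
      simp [PWord.eval, map_pow, this, nu_one]
    · obtain ⟨P1, Q1, h1⟩ := hU
      refine ⟨P1 * (AddMonoidAlgebra.single (X i * len g U) 1 - 1),
        Q1 * (AddMonoidAlgebra.single (len g U) 1 - 1), fun k hk => ?_⟩
      obtain ⟨h1a, h1b⟩ := h1 k hk
      have hb : (1 : ℚ) < (bs B : ℚ) := by exact_mod_cast (one_lt_bs (B := B))
      have hne : (bs B : ℚ) ^ (g (U.eval k)).length - 1 ≠ 0 := by
        have := one_lt_pow₀ hb (hz k hk)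
        intro h
        linarith
      constructor
      · simp only [map_mul, map_sub, map_one, ev_single, eval_len, one_mul]
        exact mul_ne_zero h1a hne
      · simp only [map_mul, map_sub, map_one, ev_single, eval_len, one_mul, PWord.eval, map_pow,
          eval_X]
        have := nu_pow (g (U.eval k)) (k i)
        rw [← h1b]
        linear_combination (ev (bs B : ℚ) k Q1) * this

end Sums

end Pool.Agent.H80.EQ
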