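import Pool.Agent.H80.EQ.RunWords

set_option autoImplicit false

namespace Pool.Agent.H80.EQ.Run

/-- Symbolic words with a parameter `x : X`: letters and powers of fixed words whose exponents
depend on the parameter. -/
inductive Item (C X : Type)
  | lt (c : C)
  | pw (ρ : List C) (φ : X → ℕ)

variable {C X W : Type}

def ev : List (Item C X) → X → List C
  | [], _ => []
  | .lt c :: l, x => c :: ev l x
  | .pw ρ φ :: l, x => rep ρ (φ x) ++ ev l x

def np : List (Item C X) → ℕ
  | [] => 0
  | .lt _ :: l => np l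
  | .pw _ _ :: l => np l + 1

theorem ev_append (l l' : List (Item C X)) (x : X) : ev (l ++ l') x = ev l x ++ ev l' x := by
  induction l with
  | nil => rfl
  | cons a l ih => cases a <;> simp [ev, ih]

def lits (κ : List C) : List (Item C X) := κ.map Item.lt

theorem ev_lits (κ : List C) (l : List (Item C X)) (x : X) :
    ev (lits κ ++ l) x = κ ++ ev l x := by
  induction κ with
  | nil => rfl
  | cons a κ ih =>
    simp only [lits, List.map_cons, List.cons_append, ev] at ih ⊢
    rw [ih]

theorem np_lits (κ : List C) (l : List (Item C X)) : np (lits κ ++ l) = np l := by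
  induction κ with
  | nil => rfl
  | cons a κ ih =>
    simp only [lits, List.map_cons, List.cons_append, np] at ih ⊢
    rw [ih]

variable [AddCommGroup W] [Module ℚ W]

/-- Affine functions of the parameter. -/
def IsAff (vec : X → W) (f : X → ℚ) : Prop := ∃ ℓ : W →ₗ[ℚ] ℚ, ∀ x, f x = ℓ (vec x)

/-- The set of parameters at which the two functions agree is affine. -/
def AffEq (vec : X → W) (F G : X → List C) : Prop :=
  ∃ U : Submodule ℚ W, ∀ x, F x = G x ↔ vec x ∈ U

def NF (vec : X → W) (L M : ℕ) : List (Item C X) → Prop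
  | [] => True
  | .lt _ :: l => NF vec L M l
  | .pw ρ φ :: l => Prim ρ ∧ ρ.length ≤ L ∧ IsAff vec (fun x => (φ x : ℚ)) ∧ (∀ x, M ≤ φ x) ∧
      (∃ e, ∀ x, RunLen ρ (ev l x) e) ∧ NF vec L M l

variable {vec : X → W}

theorem NF_lits {L M : ℕ} (κ : List C) (l : List (Item C X)) :
    NF vec L M (lits κ ++ l) ↔ NF vec L M l := by
  induction κ with
  | nil => exact Iff.rfl
  | cons a κ ih =>
    simp only [lits, List.map_cons, List.cons_append, NF] at ih ⊢
    exact ih

theorem IsAff.add {f g : X → ℚ} (hf : IsAff vec f) (hg : IsAff vec g) :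
    IsAff vec (fun x => f x + g x) := by
  obtain ⟨a, ha⟩ := hf
  obtain ⟨b, hb⟩ := hg
  exact ⟨a + b, fun x => by simp [ha, hb]⟩

theorem IsAff.sub {f g : X → ℚ} (hf : IsAff vec f) (hg : IsAff vec g) :
    IsAff vec (fun x => f x - g x) := by
  obtain ⟨a, ha⟩ := hf
  obtain ⟨b, hb⟩ := hg
  exact ⟨a - b, fun x => by simp [ha, hb]⟩

theorem IsAff.mul_const {f : X → ℚ} (hf : IsAff vec f) (c : ℚ) :
    IsAff vec (fun x => f x * c) := by
  obtain ⟨a, ha⟩ := hf
  exact ⟨c • a, fun x => by simp [ha, mul_comm]⟩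

theorem AffEq.symm {F G : X → List C} (h : AffEq vec F G) : AffEq vec G F := by
  obtain ⟨U, hU⟩ := h
  exact ⟨U, fun x => by rw [← hU x]; exact eq_comm⟩

theorem AffEq.of_cut {F G F' G' : X → List C} {f : X → ℚ} (hf : IsAff vec f)
    (h1 : ∀ x, F x = G x → f x = 0) (h2 : ∀ x, f x = 0 → (F x = G x ↔ F' x = G' x))
    (h3 : AffEq vec F' G') : AffEq vec F G := by
  obtain ⟨ℓ, hℓ⟩ := hf
  obtain ⟨U, hU⟩ := h3
  refine ⟨LinearMap.ker ℓ ⊓ U, fun x => ?_⟩
  rw [Submodule.mem_inf, LinearMap.mem_ker, ← hU x, ← hℓ x]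
  constructor
  · intro h; exact ⟨h1 x h, (h2 x (h1 x h)).1 h⟩
  · rintro ⟨h, h'⟩; exact (h2 x h).2 h'

section

variable (hone : IsAff vec (fun _ => (1 : ℚ)))

include hone

theorem IsAff.const (c : ℚ) : IsAff vec (fun _ => c) := by
  have := hone.mul_const c
  simpa using this

theorem AffEq.never {F G : X → List C} (h : ∀ x, F x ≠ G x) : AffEq vec F G := by
  obtain ⟨ℓ, hℓ⟩ := hone
  refine ⟨LinearMap.ker ℓ, fun x => ?_⟩
  rw [LinearMap.mem_ker, ← hℓ x]
  constructor
  · intro h'; exact absurd h' (h x)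
  · intro h'; exact absurd h' one_ne_zero

end

theorem cut1 {ρ κ F R : List C} {m p : ℕ} (hρ : ρ ≠ []) (hκ : κ = per ρ κ.length)
    (hp : p ≤ κ.length) (hm : m * ρ.length = p) :
    rep ρ m ++ F = κ ++ R ↔ F = κ.drop p ++ R := by
  have h1 : rep ρ m = κ.take p := by
    rw [← per_mul, hm, hκ, per_take hρ]
    exact hp
  have h2 : κ ++ R = κ.take p ++ (κ.drop p ++ R) := by
    rw [← List.append_assoc, List.take_append_drop]
  rw [h1, h2, List.append_cancel_left_eq]

theorem cut2 {ρ κ F R : List C} {m p : ℕ} (hκ : κ = per ρ κ.length)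
    (hp : κ.length ≤ p) (hm : m * ρ.length = p) :
    rep ρ m ++ F = κ ++ R ↔ per (ρ.rotate κ.length) (p - κ.length) ++ F = R := by
  have h1 : rep ρ m = κ ++ per (ρ.rotate κ.length) (p - κ.length) := by
    obtain ⟨d, rfl⟩ := Nat.exists_eq_add_of_le hp
    rw [← per_mul, hm, per_add, ← hκ, Nat.add_sub_cancel_left]
  rw [h1, List.append_assoc, List.append_cancel_left_eq]

theorem cast_sub_eq_zero {m n : ℕ} : ((m : ℚ) - n = 0) ↔ m = n := by
  rw [sub_eq_zero]; exact Nat.cast_inj

section

variable (hone : IsAff vec (fun _ => (1 : ℚ))) {L M N : ℕ} (hM : 2 * L ≤ M)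
  (IH : ∀ F G : List (Item C X), NF vec L M F → NF vec L M G → np F + np G < N →
    AffEq vec (ev F) (ev G))

include hone IH

theorem caseI {ρ : List C} {φ : X → ℕ} {F' G : List (Item C X)}
    (hF : NF vec L M (.pw ρ φ :: F')) (hG : NF vec L M G) {κ : List C}
    (hκ : κ = per ρ κ.length) (hN : np F' + 1 + np G = N)
    (hrun : ∀ x, RunLen ρ (κ ++ ev G x) κ.length) :
    AffEq vec (fun x => rep ρ (φ x) ++ ev F' x) (fun x => κ ++ ev G x) := by
  obtain ⟨hprim, hL, hφ, hMφ, ⟨e, he⟩, hF'⟩ := hF
  have hrunF : ∀ x, RunLen ρ (rep ρ (φ x) ++ ev F' x) (φ x * ρ.length + e) :=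
    fun x => (he x).rep _
  have heq : ∀ x, rep ρ (φ x) ++ ev F' x = κ ++ ev G x → φ x * ρ.length + e = κ.length := by
    intro x hx
    have h1 := hrunF x
    rw [hx] at h1
    exact h1.unique (hrun x)
  by_cases hec : e ≤ κ.length
  · have hf : IsAff vec (fun x => (φ x : ℚ) * ρ.length - ((κ.length - e : ℕ) : ℚ)) :=
      (hφ.mul_const _).sub (IsAff.const hone _)
    refine AffEq.of_cut (F' := ev F') (G' := ev (lits (κ.drop (κ.length - e)) ++ G)) hf ?_ ?_ ?_
    · intro x hx
      have := heq x hx
      rw [← Nat.cast_mul, cast_sub_eq_zero]; omega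
    · intro x hx
      rw [← Nat.cast_mul, cast_sub_eq_zero] at hx
      rw [ev_lits]
      exact cut1 hprim.1 hκ (by omega) hx
    · exact IH _ _ hF' ((NF_lits _ _).2 hG) (by rw [np_lits]; omega)
  · apply AffEq.never hone
    intro x hx
    have := heq x hx
    omega

theorem caseIII {ρ : List C} {φ ψ : X → ℕ} {F' G' : List (Item C X)}
    (hF : NF vec L M (.pw ρ φ :: F')) {κ : List C}
    (hG : NF vec L M (.pw (ρ.rotate κ.length) ψ :: G'))
    (hκ : κ = per ρ κ.length) (hN : np F' + 1 + (np G' + 1) = N) :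
    AffEq vec (fun x => rep ρ (φ x) ++ ev F' x)
      (fun x => κ ++ ev (.pw (ρ.rotate κ.length) ψ :: G') x) := by
  obtain ⟨hprim, hL, hφ, hMφ, ⟨e, he⟩, hF'⟩ := hF
  obtain ⟨hprim', hL', hψ, hMψ, ⟨e', he'⟩, hG'⟩ := hG
  have hl : (ρ.rotate κ.length).length = ρ.length := List.length_rotate ..
  have hrunF : ∀ x, RunLen ρ (rep ρ (φ x) ++ ev F' x) (φ x * ρ.length + e) :=
    fun x => (he x).rep _
  have hrunG : ∀ x, RunLen ρ (κ ++ ev (.pw (ρ.rotate κ.length) ψ :: G') x)
      (κ.length + (ψ x * ρ.length + e')) := by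
    intro x
    have h1 := (he' x).rep (ψ x)
    rw [hl] at h1
    have h2 := h1.append
    rw [← hκ] at h2
    exact h2
  have heq : ∀ x, rep ρ (φ x) ++ ev F' x = κ ++ ev (.pw (ρ.rotate κ.length) ψ :: G') x →
      φ x * ρ.length + e = κ.length + (ψ x * ρ.length + e') := by
    intro x hx
    have h1 := hrunF x
    rw [hx] at h1
    exact h1.unique (hrunG x)
  have hkr : ∀ m, κ ++ rep (ρ.rotate κ.length) m = per ρ (κ.length + m * ρ.length) := by
    intro m
    rw [per_add, ← hκ, ← hl, per_mul]
  rcases le_total e e' with hee | hee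
  · -- ν ++ F' = G'
    have hf : IsAff vec (fun x => (φ x : ℚ) * ρ.length -
        (((ψ x : ℚ) * ρ.length) + ((κ.length + (e' - e) : ℕ) : ℚ))) :=
      (hφ.mul_const _).sub ((hψ.mul_const _).add (IsAff.const hone _))
    have hiff : ∀ x, ((φ x : ℚ) * ρ.length -
        (((ψ x : ℚ) * ρ.length) + ((κ.length + (e' - e) : ℕ) : ℚ))) = 0 ↔
        φ x * ρ.length = ψ x * ρ.length + (κ.length + (e' - e)) := by
      intro x
      rw [sub_eq_zero]
      exact_mod_cast Iff.rfl
    refine AffEq.of_cut (F' := ev (lits (per (ρ.rotate κ.length) (e' - e)) ++ F')) (G' := ev G')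
      hf ?_ ?_ ?_
    · intro x hx
      have := heq x hx
      rw [hiff]; omega
    · intro x hx
      rw [hiff] at hx
      rw [ev_lits]
      simp only [ev]
      have h1 : rep ρ (φ x) = κ ++ rep (ρ.rotate κ.length) (ψ x) ++
          per (ρ.rotate κ.length) (e' - e) := by
        rw [hkr, ← per_mul, hx,
          show ψ x * ρ.length + (κ.length + (e' - e)) =
            (κ.length + ψ x * ρ.length) + (e' - e) by ring, per_add ρ (κ.length + _)]
        congr 2
        rw [Nat.add_comm, ← List.rotate_rotate, Nat.mul_comm, List.rotate_length_mul]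
      rw [h1]
      simp only [List.append_assoc, List.append_cancel_left_eq]
    · exact IH _ _ ((NF_lits _ _).2 hF') hG' (by rw [np_lits]; omega)
  · have hf : IsAff vec (fun x => ((φ x : ℚ) * ρ.length + ((e - e' : ℕ) : ℚ)) -
        (((ψ x : ℚ) * ρ.length) + (κ.length : ℚ))) :=
      ((hφ.mul_const _).add (IsAff.const hone _)).sub ((hψ.mul_const _).add (IsAff.const hone _))
    have hiff : ∀ x, (((φ x : ℚ) * ρ.length + ((e - e' : ℕ) : ℚ)) -
        (((ψ x : ℚ) * ρ.length) + (κ.length : ℚ))) = 0 ↔
        φ x * ρ.length + (e - e') = ψ x * ρ.length + κ.length := by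
      intro x
      rw [sub_eq_zero]
      exact_mod_cast Iff.rfl
    refine AffEq.of_cut (F' := ev F') (G' := ev (lits (per ρ (e - e')) ++ G')) hf ?_ ?_ ?_
    · intro x hx
      have := heq x hx
      rw [hiff]; omega
    · intro x hx
      rw [hiff] at hx
      rw [ev_lits]
      simp only [ev]
      have h1 : κ ++ rep (ρ.rotate κ.length) (ψ x) = rep ρ (φ x) ++ per ρ (e - e') := by
        rw [hkr, Nat.add_comm, ← hx, per_add, per_mul]
        congr 2
        rw [Nat.mul_comm, List.rotate_length_mul]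
      rw [← List.append_assoc, h1]
      simp only [List.append_assoc, List.append_cancel_left_eq]
    · exact IH _ _ hF' ((NF_lits _ _).2 hG') (by rw [np_lits]; omega)

include hM

theorem caseII {ρ σ : List C} {φ ψ : X → ℕ} {F' G' : List (Item C X)}
    (hF : NF vec L M (.pw ρ φ :: F')) {κ : List C}
    (hG : NF vec L M (.pw σ ψ :: G')) (hσ : σ ≠ ρ.rotate κ.length)
    (hκ : κ = per ρ κ.length) (hN : np F' + 1 + (np G' + 1) = N) :
    AffEq vec (fun x => rep ρ (φ x) ++ ev F' x)
      (fun x => κ ++ ev (.pw σ ψ :: G') x) := by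
  have hG0 := hG
  obtain ⟨hprim, hL, hφ, hMφ, ⟨e, he⟩, hF'⟩ := hF
  obtain ⟨hprim', hL', hψ, hMψ, -, hG'⟩ := hG
  obtain ⟨z, hz, hz1, hz2⟩ := mismatch (hprim.rotate κ.length) hprim' (Ne.symm hσ)
  rw [List.length_rotate] at hz
  have hrunF : ∀ x, RunLen ρ (rep ρ (φ x) ++ ev F' x) (φ x * ρ.length + e) :=
    fun x => (he x).rep _
  have hrunG : ∀ x, RunLen ρ (κ ++ ev (.pw σ ψ :: G') x) (κ.length + z) := by
    intro x
    have hlen : z + 1 ≤ ψ x * σ.length := by
      have h1 : 0 < σ.length := List.length_pos_iff.mpr hprim'.1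
      have h2 := hMψ x
      nlinarith
    have h1 := RunLen.of_mismatch (G := ev G' x) (hprim.rotate κ.length).1 hprim'.1 hz1 hz2 hlen
    have h2 := h1.append
    rw [← hκ] at h2
    exact h2
  have heq : ∀ x, rep ρ (φ x) ++ ev F' x = κ ++ ev (.pw σ ψ :: G') x →
      φ x * ρ.length + e = κ.length + z := by
    intro x hx
    have h1 := hrunF x
    rw [hx] at h1
    exact h1.unique (hrunG x)
  by_cases hec : e ≤ κ.length + z
  · have hf : IsAff vec (fun x => (φ x : ℚ) * ρ.length - ((κ.length + z - e : ℕ) : ℚ)) :=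
      (hφ.mul_const _).sub (IsAff.const hone _)
    by_cases hez : e ≤ z
    · refine AffEq.of_cut
        (F' := ev (lits (per (ρ.rotate κ.length) (κ.length + z - e - κ.length)) ++ F'))
        (G' := ev (.pw σ ψ :: G')) hf ?_ ?_ ?_
      · intro x hx
        have := heq x hx
        rw [← Nat.cast_mul, cast_sub_eq_zero]; omega
      · intro x hx
        rw [← Nat.cast_mul, cast_sub_eq_zero] at hx
        rw [ev_lits]
        exact cut2 hκ (by omega) hx
      · exact IH _ _ ((NF_lits _ _).2 hF') hG0 (by rw [np_lits]; simp only [np]; omega)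
    · refine AffEq.of_cut (F' := ev F')
        (G' := ev (lits (κ.drop (κ.length + z - e)) ++ .pw σ ψ :: G')) hf ?_ ?_ ?_
      · intro x hx
        have := heq x hx
        rw [← Nat.cast_mul, cast_sub_eq_zero]; omega
      · intro x hx
        rw [← Nat.cast_mul, cast_sub_eq_zero] at hx
        rw [ev_lits]
        exact cut1 hprim.1 hκ (by omega) hx
      · exact IH _ _ hF' ((NF_lits _ _).2 hG0) (by rw [np_lits]; simp only [np]; omega)
  · apply AffEq.never hone
    intro x hx
    have := heq x hx
    omega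

theorem inner {ρ : List C} {φ : X → ℕ} {F' : List (Item C X)}
    (hF : NF vec L M (.pw ρ φ :: F')) (G : List (Item C X)) :
    ∀ κ : List C, NF vec L M G → κ = per ρ κ.length → np F' + 1 + np G = N →
      AffEq vec (fun x => rep ρ (φ x) ++ ev F' x) (fun x => κ ++ ev G x) := by
  have hprim : Prim ρ := hF.1
  induction G with
  | nil =>
    intro κ hG hκ hN
    apply caseI hone IH hF hG hκ hN
    intro x
    have h1 := (RunLen.nil (hprim.rotate κ.length).1).append
    rw [← hκ] at h1
    exact h1
  | cons g G' ih =>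
    intro κ hG hκ hN
    cases g with
    | lt b =>
      obtain ⟨a, l, hal⟩ : ∃ a l, ρ.rotate κ.length = a :: l :=
        List.exists_cons_of_ne_nil (hprim.rotate κ.length).1
      by_cases hb : b = a
      · subst hb
        have h1 := ih (κ ++ [b]) hG (by
          rw [List.length_append, List.length_singleton, per_add, ← hκ, hal]
          simp [per]) hN
        have h2 : (fun x => κ ++ [b] ++ ev G' x) = fun x => κ ++ ev (.lt b :: G') x := by
          funext x
          simp [ev]
        rw [h2] at h1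
        exact h1
      · apply caseI hone IH hF hG hκ hN
        intro x
        have h1 : RunLen (ρ.rotate κ.length) (ev (.lt b :: G') x) 0 := by
          rw [hal]
          exact RunLen.cons_ne hb
        have h2 := h1.append
        rw [← hκ] at h2
        exact h2
    | pw σ ψ =>
      by_cases hσ : σ = ρ.rotate κ.length
      · subst hσ
        exact caseIII hone IH hF hG hκ hN
      · exact caseII hone hM IH hF hG hσ hκ hN

end

theorem ev_pw_ne_nil {L M : ℕ} (hM1 : 1 ≤ M) {ρ : List C} {φ : X → ℕ} {l : List (Item C X)}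
    (h : NF vec L M (.pw ρ φ :: l)) (x : X) : ev (.pw ρ φ :: l) x ≠ [] := by
  intro hc
  have h1 := congrArg List.length hc
  simp only [ev, List.length_append, length_rep, List.length_nil] at h1
  have h2 : 0 < ρ.length := List.length_pos_iff.mpr h.1.1
  have h3 := h.2.2.2.1 x
  have : 0 < φ x * ρ.length := Nat.mul_pos (by omega) h2
  omega

/-- **Comparison lemma.** -/
theorem compare (hone : IsAff vec (fun _ => (1 : ℚ))) {L M : ℕ} (hM : 2 * L ≤ M) (hM1 : 1 ≤ M)
    (N : ℕ) : ∀ F G : List (Item C X), NF vec L M F → NF vec L M G → np F + np G = N →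
    AffEq vec (ev F) (ev G) := by
  induction N using Nat.strong_induction_on with
  | _ N ihN =>
  have IH : ∀ F G : List (Item C X), NF vec L M F → NF vec L M G → np F + np G < N →
      AffEq vec (ev F) (ev G) := fun F G hF hG h => ihN _ h F G hF hG rfl
  intro F
  induction F with
  | nil =>
    intro G hF hG hN
    cases G with
    | nil => exact ⟨⊤, fun x => by simp⟩
    | cons g G' =>
      cases g with
      | lt b => exact AffEq.never hone (fun x h => by simp [ev] at h)
      | pw σ ψ => exact AffEq.never hone (fun x h => ev_pw_ne_nil hM1 hG x h.symm)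
  | cons f F' ih =>
    intro G hF hG hN
    cases f with
    | lt a =>
      cases G with
      | nil => exact AffEq.never hone (fun x h => by simp [ev] at h)
      | cons g G' =>
        cases g with
        | lt b =>
          by_cases hab : a = b
          · subst hab
            obtain ⟨U, hU⟩ := ih G' hF hG hN
            refine ⟨U, fun x => ?_⟩
            rw [← hU x]
            simp [ev]
          · refine AffEq.never hone (fun x h => hab ?_)
            simp only [ev, List.cons.injEq] at h
            exact h.1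
        | pw σ ψ =>
          have := inner hone hM IH hG (.lt a :: F') [] hF (by simp) (by
            simp only [np] at hN ⊢; omega)
          exact this.symm
    | pw ρ φ =>
      exact inner hone hM IH hF G [] hG (by simp) (by simp only [np] at hN; omega)

end Pool.Agent.H80.EQ.Run
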