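import Pool.Agent.H80.EQ.RunNorm

set_option autoImplicit false

namespace Pool.Agent.H80.EQ

open FreeMonoid

variable {A B C : Type}

/-- Finite determination when membership is linear in a parameter vector of the pair. -/
theorem FD_sel {ι : Type} [Finite ι] (S : Set (HPair A B)) (τ : HPair A B → (ι → ℚ))
    (h : ∀ x, ∃ U : Submodule ℚ (ι → ℚ), ∀ p ∈ S, (p.1 x = p.2 x ↔ τ p ∈ U)) : FD S := by
  classical
  have hfg : (Submodule.span ℚ (τ '' S)).FG := IsNoetherian.noetherian _
  rw [Submodule.fg_span_iff_fg_span_finset_subset] at hfg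
  obtain ⟨s, hs, hspan⟩ := hfg
  obtain ⟨T, hTS, hT⟩ := Finset.subset_set_image_iff.1 hs
  refine ⟨T, T.finite_toSet, hTS, ?_⟩
  intro x hx q hq
  obtain ⟨U, hU⟩ := h x
  rw [hU q hq]
  have h1 : Submodule.span ℚ (τ '' S) ≤ U := by
    rw [hspan, Submodule.span_le]
    intro v hv
    rw [← hT] at hv
    obtain ⟨p, hp, rfl⟩ := Finset.mem_image.1 (Finset.mem_coe.1 hv)
    exact (hU p (hTS hp)).1 (hx p hp)
  exact h1 (Submodule.subset_span ⟨q, hq, rfl⟩)

theorem FD_iUnion {ι : Type} [Finite ι] (S : ι → Set (HPair A B)) (h : ∀ i, FD (S i)) :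
    FD (⋃ i, S i) := by
  choose T hf hs he using h
  refine ⟨⋃ i, T i, Set.finite_iUnion hf, Set.iUnion_mono hs, ?_⟩
  intro x hx q hq
  obtain ⟨i, hi⟩ := Set.mem_iUnion.1 hq
  exact he i (EqS_mono (Set.subset_iUnion T i) hx) q hi

theorem FD_of_map (S : Set (HPair A B)) (F : HPair A B → HPair A C)
    (h : ∀ q ∈ S, ∀ x, (q.1 x = q.2 x ↔ (F q).1 x = (F q).2 x)) (hF : FD (F '' S)) : FD S := by
  classical
  obtain ⟨T, hf, hs, he⟩ := hF
  obtain ⟨T', hT'S, hT'⟩ := Finset.subset_set_image_iff.1 (show (↑hf.toFinset : Set _) ⊆ F '' S by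
    rw [hf.coe_toFinset]; exact hs)
  refine ⟨T', T'.finite_toSet, hT'S, ?_⟩
  intro x hx q hq
  rw [h q hq x]
  apply he _ (F q) ⟨q, hq, rfl⟩
  intro r hr
  have hr' : r ∈ T'.image F := by rw [hT', hf.mem_toFinset]; exact hr
  obtain ⟨p, hp, rfl⟩ := Finset.mem_image.1 hr'
  exact (h p (hT'S hp) x).1 (hx p hp)

/-- `Bd w y`: `y` belongs to the bounded language `w_1^* w_2^* ... w_k^*`. -/
def Bd {k : ℕ} (w : Fin k → FreeMonoid C) (y : FreeMonoid C) : Prop :=
  ∃ e : Fin k → ℕ, y = (List.ofFn fun i => w i ^ e i).prod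

namespace Run

theorem ev_flatten {X : Type} (ls : List (List (Item C X))) (x : X) :
    ev ls.flatten x = (ls.map fun l => ev l x).flatten := by
  induction ls with
  | nil => rfl
  | cons l ls ih => rw [List.flatten_cons, ev_append, ih, List.map_cons, List.flatten_cons]

theorem Raw_flatten {X W : Type} [AddCommGroup W] [Module ℚ W] {vec : X → W} {L M : ℕ}
    (ls : List (List (Item C X))) (h : ∀ l ∈ ls, Raw vec L M l) : Raw vec L M ls.flatten := by
  induction ls with
  | nil => trivial
  | cons l ls ih =>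
    rw [List.flatten_cons]
    exact (h l (by simp)).append (ih fun l' hl' => h l' (by simp [hl']))

end Run

open Run in
theorem FD_Bd [Finite A] {k : ℕ} (w : Fin k → FreeMonoid C) (S : Set (HPair A C))
    (hS : ∀ p ∈ S, ∀ a, Bd w (p.1 (of a)) ∧ Bd w (p.2 (of a))) : FD S := by
  classical
  -- primitive roots
  have hroot : ∀ i : Fin k, ∃ (ρ : List C) (n : ℕ), w i ≠ 1 → Prim ρ ∧ 0 < n ∧
      toList (w i) = rep ρ n := by
    intro i
    by_cases hi : w i = 1
    · exact ⟨[], 0, fun h => absurd hi h⟩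
    · obtain ⟨ρ, n, h⟩ := exists_prim (toList (w i)) (fun h => hi (by
        apply toList.injective; rw [h]; rfl))
      exact ⟨ρ, n, fun _ => h⟩
  choose ρ n hρ using hroot
  obtain ⟨L, hL⟩ : ∃ L : ℕ, ∀ i, (ρ i).length ≤ L :=
    ⟨∑ i, (ρ i).length, fun i => Finset.single_le_sum (f := fun i => (ρ i).length)
      (fun _ _ => Nat.zero_le _) (Finset.mem_univ i)⟩
  let M : ℕ := 2 * L + 1
  -- exponents
  let D : Type := (Bool × A) × Fin k
  have hexp : ∀ p : HPair A C, ∃ t : D → ℕ, p ∈ S →
      ∀ a, p.1 (of a) = (List.ofFn fun i => w i ^ t ((false, a), i)).prod ∧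
        p.2 (of a) = (List.ofFn fun i => w i ^ t ((true, a), i)).prod := by
    intro p
    by_cases hp : p ∈ S
    · choose e1 he1 using fun a => (hS p hp a).1
      choose e2 he2 using fun a => (hS p hp a).2
      refine ⟨fun d => if d.1.1 then e2 d.1.2 d.2 else e1 d.1.2 d.2, fun _ a => ?_⟩
      constructor
      · simpa using he1 a
      · simpa using he2 a
    · exact ⟨fun _ => 0, fun h => absurd h hp⟩
  choose t ht using hexp
  -- splitting into patterns
  let P : (D → Fin (M + 1)) → Set (HPair A C) := fun π => {p ∈ S | ∀ d, min (t p d) M = π d}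
  have hSP : S = ⋃ π, P π := by
    ext p
    rw [Set.mem_iUnion]
    constructor
    · intro hp
      exact ⟨fun d => ⟨min (t p d) M, by omega⟩, hp, fun d => rfl⟩
    · rintro ⟨π, hp, -⟩; exact hp
  rw [hSP]
  apply FD_iUnion
  intro π
  let X : Type := {s : D → ℕ // ∀ d, min (s d) M = π d}
  let vec : X → (Option D → ℚ) := fun s o => o.elim 1 (fun d => (s.1 d : ℚ))
  have hone : IsAff vec (fun _ => (1 : ℚ)) := ⟨LinearMap.proj none, fun s => rfl⟩
  let item : D → List (Item C X) := fun d =>
    if w d.2 = 1 then [] else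
      if (π d : ℕ) < M then lits (toList (w d.2 ^ (π d : ℕ)))
      else [Item.pw (ρ d.2) (fun s => n d.2 * s.1 d)]
  have hitem_ev : ∀ d (s : X), ev (item d) s = toList (w d.2 ^ s.1 d) := by
    intro d s
    by_cases h1 : w d.2 = 1
    · simp only [item, if_pos h1, h1, one_pow]; rfl
    · by_cases h2 : (π d : ℕ) < M
      · simp only [item, if_neg h1, if_pos h2]
        have h3 : s.1 d = π d := by
          have := s.2 d; omega
        rw [h3]
        have := ev_lits (toList (w d.2 ^ (π d : ℕ))) [] s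
        rw [List.append_nil] at this
        rw [this]
        simp [ev]
      · simp only [item, if_neg h1, if_neg h2]
        simp only [ev, List.append_nil]
        rw [rep_eq_pow, (hρ d.2 h1).2.2, rep_mul]
  have hitem_raw : ∀ d, Raw vec L M (item d) := by
    intro d
    by_cases h1 : w d.2 = 1
    · simp only [item, if_pos h1]; trivial
    · by_cases h2 : (π d : ℕ) < M
      · simp only [item, if_neg h1, if_pos h2]
        exact Raw.lits _ _ _
      · simp only [item, if_neg h1, if_neg h2]
        refine ⟨⟨(hρ d.2 h1).1, hL _, ?_, ?_⟩, trivial⟩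
        · refine ⟨(n d.2 : ℚ) • LinearMap.proj (some d), fun s => ?_⟩
          simp [vec]
        · intro s
          have h3 := s.2 d
          have h4 : M ≤ s.1 d := by omega
          exact h4.trans (Nat.le_mul_of_pos_left _ (hρ d.2 h1).2.1)
  let img : Bool → A → List (Item C X) := fun b a => (List.ofFn fun i => item ((b, a), i)).flatten
  have himg_ev : ∀ b a (s : X), ev (img b a) s =
      toList (List.ofFn fun i => w i ^ s.1 ((b, a), i)).prod := by
    intro b a s
    simp only [img]
    rw [ev_flatten, toList_prod, List.map_ofFn, List.map_ofFn]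
    congr 2
    funext i
    exact hitem_ev _ _
  have himg_raw : ∀ b a, Raw vec L M (img b a) := by
    intro b a
    apply Raw_flatten
    intro l hl
    obtain ⟨i, rfl⟩ := (List.mem_ofFn' _ _).1 hl
    exact hitem_raw _
  let wd : Bool → FreeMonoid A → List (Item C X) := fun b x => ((toList x).map (img b)).flatten
  have hwd_raw : ∀ b x, Raw vec L M (wd b x) := by
    intro b x
    apply Raw_flatten
    intro l hl
    obtain ⟨a, -, rfl⟩ := List.mem_map.1 hl
    exact himg_raw _ _
  let τ : HPair A C → (Option D → ℚ) := fun p o => o.elim 1 (fun d => (t p d : ℚ))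
  apply FD_sel _ τ
  intro x
  obtain ⟨U, hU⟩ := compare_raw hone (L := L) (M := M) (by omega) (by omega)
    (wd false x) (wd true x) (hwd_raw _ _) (hwd_raw _ _)
  refine ⟨U, fun p hp => ?_⟩
  have hpS : p ∈ S := hp.1
  let s : X := ⟨t p, hp.2⟩
  have hτ : τ p = vec s := rfl
  rw [hτ, ← hU s]
  have e1 : ∀ y : FreeMonoid A, ev (wd false y) s = toList (p.1 y) := by
    intro y
    induction y using FreeMonoid.inductionOn' with
    | one => simp only [wd]; rw [map_one p.1, toList_one]; rfl
    | of_mul a y ih =>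
      simp only [wd] at ih ⊢
      rw [toList_mul, List.map_append, List.flatten_append, ev_append, ih, map_mul, toList_mul]
      congr 1
      rw [toList_of, List.map_singleton, List.flatten_singleton, himg_ev, (ht p hpS a).1]
  have e2 : ∀ y : FreeMonoid A, ev (wd true y) s = toList (p.2 y) := by
    intro y
    induction y using FreeMonoid.inductionOn' with
    | one => simp only [wd]; rw [map_one p.2, toList_one]; rfl
    | of_mul a y ih =>
      simp only [wd] at ih ⊢
      rw [toList_mul, List.map_append, List.flatten_append, ev_append, ih, map_mul, toList_mul]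
      congr 1
      rw [toList_of, List.map_singleton, List.flatten_singleton, himg_ev, (ht p hpS a).2]
  rw [e1, e2]
  exact toList.injective.eq_iff.symm

/-- Images in a fixed bounded language, up to a common injective left factor. -/
theorem FD_Bd_inj [Finite A] {k : ℕ} (w : Fin k → FreeMonoid C) (S : Set (HPair A B))
    (hS : ∀ p ∈ S, ∃ (ψ : FreeMonoid C →* FreeMonoid B) (θ θ' : FreeMonoid A →* FreeMonoid C),
      Function.Injective ψ ∧ p.1 = ψ.comp θ ∧ p.2 = ψ.comp θ' ∧
      ∀ a, Bd w (θ (of a)) ∧ Bd w (θ' (of a))) : FD S := by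
  classical
  have h : ∀ p : HPair A B, ∃ r : HPair A C, p ∈ S →
      (∀ x, p.1 x = p.2 x ↔ r.1 x = r.2 x) ∧ ∀ a, Bd w (r.1 (of a)) ∧ Bd w (r.2 (of a)) := by
    intro p
    by_cases hp : p ∈ S
    · obtain ⟨ψ, θ, θ', hψ, h1, h2, h3⟩ := hS p hp
      refine ⟨(θ, θ'), fun _ => ⟨fun x => ?_, h3⟩⟩
      rw [h1, h2]
      exact hψ.eq_iff
    · exact ⟨(1, 1), fun h => absurd h hp⟩
  choose F hF using h
  apply FD_of_map S F (fun q hq => (hF q hq).1)
  apply FD_Bd w
  rintro _ ⟨q, hq, rfl⟩
  exact (hF q hq).2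

end Pool.Agent.H80.EQ
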