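import Pool.Agent.H80.EQ.RunCmp

set_option autoImplicit false

namespace Pool.Agent.H80.EQ.Run

variable {C X W : Type} [AddCommGroup W] [Module ℚ W] {vec : X → W}

/-- Raw symbolic words: no normalisation of the runs. -/
def Raw (vec : X → W) (L M : ℕ) : List (Item C X) → Prop
  | [] => True
  | .lt _ :: l => Raw vec L M l
  | .pw ρ φ :: l => (Prim ρ ∧ ρ.length ≤ L ∧ IsAff vec (fun x => (φ x : ℚ)) ∧ (∀ x, M ≤ φ x)) ∧
      Raw vec L M l

theorem Raw.append {L M : ℕ} {l l' : List (Item C X)} (h : Raw vec L M l) (h' : Raw vec L M l') :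
    Raw vec L M (l ++ l') := by
  induction l with
  | nil => exact h'
  | cons a l ih =>
    cases a with
    | lt c => exact ih h
    | pw ρ φ => exact ⟨h.1, ih h.2⟩

theorem Raw.lits (L M : ℕ) (κ : List C) : Raw vec L M (Run.lits κ) := by
  induction κ with
  | nil => trivial
  | cons a κ ih => exact ih

theorem run_dichotomy {L M : ℕ} (hM : 2 * L ≤ M) (hM1 : 1 ≤ M) (l : List (Item C X)) :
    ∀ ρ : List C, NF vec L M l → Prim ρ → ρ.length ≤ L →
      (∃ e, ∀ x, RunLen ρ (ev l x) e) ∨
      ∃ (κ : List C) (ψ : X → ℕ) (l' : List (Item C X)),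
        l = lits κ ++ .pw (ρ.rotate κ.length) ψ :: l' ∧ κ = per ρ κ.length := by
  induction l with
  | nil =>
    intro ρ _ hρ _
    exact Or.inl ⟨0, fun x => RunLen.nil hρ.1⟩
  | cons g l ih =>
    intro ρ hl hρ hL
    cases g with
    | lt b =>
      obtain ⟨a, m, rfl⟩ : ∃ a m, ρ = a :: m := List.exists_cons_of_ne_nil hρ.1
      by_cases hb : b = a
      · subst hb
        rcases ih (m ++ [b]) hl hρ.rot1 (by simpa using hL) with ⟨e, he⟩ | ⟨κ, ψ, l', h1, h2⟩
        · refine Or.inl ⟨1 + e, fun x => ?_⟩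
          have h3 : RunLen ((b :: m).rotate 1) (ev l x) e := by simpa using he x
          have h4 := h3.append
          simpa [per, ev] using h4
        · refine Or.inr ⟨b :: κ, ψ, l', ?_, ?_⟩
          · rw [h1, List.length_cons, List.rotate_cons_succ]
            rfl
          · rw [List.length_cons]
            simp only [per]
            rw [← h2]
      · exact Or.inl ⟨0, fun x => RunLen.cons_ne hb⟩
    | pw σ ψ =>
      by_cases hσ : σ = ρ
      · subst hσ
        exact Or.inr ⟨[], ψ, l, by simp [lits], by simp⟩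
      · obtain ⟨z, hz, hz1, hz2⟩ := mismatch hρ hl.1 (Ne.symm hσ)
        refine Or.inl ⟨z, fun x => ?_⟩
        apply RunLen.of_mismatch hρ.1 hl.1.1 hz1 hz2
        have h1 : 0 < σ.length := List.length_pos_iff.mpr hl.1.1
        have h2 := hl.2.2.2.1 x
        have h3 := hl.2.1
        nlinarith

theorem exists_NF {L M : ℕ} (hM : 2 * L ≤ M) (hM1 : 1 ≤ M) (l : List (Item C X))
    (hl : Raw vec L M l) : ∃ l' : List (Item C X), NF vec L M l' ∧ ∀ x, ev l' x = ev l x := by
  induction l with
  | nil => exact ⟨[], trivial, fun x => rfl⟩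
  | cons g l ih =>
    cases g with
    | lt c =>
      obtain ⟨l', h1, h2⟩ := ih hl
      exact ⟨.lt c :: l', h1, fun x => by simp [ev, h2]⟩
    | pw ρ φ =>
      obtain ⟨l', h1, h2⟩ := ih hl.2
      obtain ⟨hprim, hL, hφ, hMφ⟩ := hl.1
      rcases run_dichotomy hM hM1 l' ρ h1 hprim hL with he | ⟨κ, ψ, l2, h3, h4⟩
      · exact ⟨.pw ρ φ :: l', ⟨hprim, hL, hφ, hMφ, he, h1⟩, fun x => by simp [ev, h2]⟩
      · rw [h3, NF_lits] at h1
        obtain ⟨hprim', hL', hψ, hMψ, ⟨e', he'⟩, hl2⟩ := h1
        refine ⟨.pw ρ (fun x => φ x + ψ x) :: (lits κ ++ l2), ⟨hprim, hL, ?_, ?_, ?_, ?_⟩, ?_⟩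
        · have := hφ.add hψ
          simpa using this
        · intro x; exact (hMφ x).trans (Nat.le_add_right _ _)
        · refine ⟨κ.length + e', fun x => ?_⟩
          rw [ev_lits]
          have h5 := (he' x).append
          rw [← h4] at h5
          exact h5
        · exact (NF_lits _ _).2 hl2
        · intro x
          have hl : (ρ.rotate κ.length).length = ρ.length := List.length_rotate ..
          have h6 : κ ++ rep (ρ.rotate κ.length) (ψ x) = rep ρ (ψ x) ++ κ := by
            have h7 : κ ++ rep (ρ.rotate κ.length) (ψ x) = per ρ (κ.length + ψ x * ρ.length) := by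
              rw [per_add, ← h4, ← hl, per_mul]
            rw [h7, Nat.add_comm, per_add, per_mul, Nat.mul_comm, List.rotate_length_mul, ← h4]
          simp only [ev]
          rw [ev_lits, ← h2 x, h3, ev_lits]
          simp only [ev]
          rw [← List.append_assoc κ, h6, rep_add]
          simp only [List.append_assoc]

/-- The set of parameters at which two raw symbolic words agree is affine. -/
theorem compare_raw (hone : IsAff vec (fun _ => (1 : ℚ))) {L M : ℕ} (hM : 2 * L ≤ M) (hM1 : 1 ≤ M)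
    (F G : List (Item C X)) (hF : Raw vec L M F) (hG : Raw vec L M G) :
    AffEq vec (ev F) (ev G) := by
  obtain ⟨F', h1, h2⟩ := exists_NF hM hM1 F hF
  obtain ⟨G', h3, h4⟩ := exists_NF hM hM1 G hG
  obtain ⟨U, hU⟩ := compare hone hM hM1 _ F' G' h1 h3 rfl
  exact ⟨U, fun x => by rw [← hU x, h2, h4]⟩

end Pool.Agent.H80.EQ.Run
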