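import Pool.Agent.H80.EQ.Special

set_option autoImplicit false

namespace Pool.Agent.H80.EQ.Run

variable {C : Type}

/-- The prefix of length `n` of the infinite word `ρρρ...`. -/
def per : List C → ℕ → List C
  | _, 0 => []
  | [], _ + 1 => []
  | a :: l, n + 1 => a :: per (l ++ [a]) n

/-- `ρ` repeated `n` times. -/
def rep (ρ : List C) : ℕ → List C
  | 0 => []
  | n + 1 => ρ ++ rep ρ n

@[simp] theorem per_zero (ρ : List C) : per ρ 0 = [] := by cases ρ <;> rfl

@[simp] theorem rep_zero (ρ : List C) : rep ρ 0 = [] := rfl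

theorem rep_succ (ρ : List C) (n : ℕ) : rep ρ (n + 1) = ρ ++ rep ρ n := rfl

theorem rep_add (ρ : List C) (n m : ℕ) : rep ρ (n + m) = rep ρ n ++ rep ρ m := by
  induction n with
  | zero => simp
  | succ n ih => rw [Nat.succ_add, rep_succ, rep_succ, ih, List.append_assoc]

theorem length_rep (ρ : List C) (n : ℕ) : (rep ρ n).length = n * ρ.length := by
  induction n with
  | zero => simp
  | succ n ih => rw [rep_succ, List.length_append, ih]; ring

theorem rep_one (ρ : List C) : rep ρ 1 = ρ := by simp [rep_succ]

theorem rep_mul (ρ : List C) (n m : ℕ) : rep (rep ρ n) m = rep ρ (n * m) := by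
  induction m with
  | zero => simp
  | succ m ih => rw [rep_succ, ih, Nat.mul_succ, Nat.add_comm (n * m) n, rep_add]

theorem per_length {ρ : List C} (h : ρ ≠ []) (n : ℕ) : (per ρ n).length = n := by
  induction n generalizing ρ with
  | zero => simp
  | succ n ih =>
    cases ρ with
    | nil => exact absurd rfl h
    | cons a l => simp [per, ih (ρ := l ++ [a]) (by simp)]

theorem per_add (ρ : List C) (n m : ℕ) : per ρ (n + m) = per ρ n ++ per (ρ.rotate n) m := by
  induction n generalizing ρ with
  | zero => simp
  | succ n ih =>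
    cases ρ with
    | nil =>
      have : ∀ j, per ([] : List C) j = [] := by intro j; cases j <;> rfl
      simp [this]
    | cons a l =>
      rw [Nat.succ_add, List.rotate_cons_succ]
      simp only [per]
      rw [ih]; rfl

theorem per_append (u v : List C) (n : ℕ) :
    per (u ++ v) (u.length + n) = u ++ per (v ++ u) n := by
  induction u generalizing v with
  | nil => simp
  | cons a l ih =>
    rw [List.length_cons, Nat.succ_add]
    simp only [List.cons_append, per]
    rw [List.append_assoc, ih]
    simp

theorem per_self_add (ρ : List C) (n : ℕ) : per ρ (ρ.length + n) = ρ ++ per ρ n := by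
  have := per_append ρ [] n
  simpa using this

theorem per_mul (ρ : List C) (m : ℕ) : per ρ (m * ρ.length) = rep ρ m := by
  induction m with
  | zero => simp
  | succ m ih =>
    have : (m + 1) * ρ.length = ρ.length + m * ρ.length := by ring
    rw [this, per_self_add, ih, rep_succ]

theorem per_prefix (ρ : List C) {n m : ℕ} (h : n ≤ m) : per ρ n <+: per ρ m := by
  obtain ⟨d, rfl⟩ := Nat.exists_eq_add_of_le h
  rw [per_add]
  exact List.prefix_append _ _

theorem per_take {ρ : List C} (hρ : ρ ≠ []) {n m : ℕ} (h : n ≤ m) :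
    (per ρ m).take n = per ρ n := by
  obtain ⟨d, rfl⟩ := Nat.exists_eq_add_of_le h
  rw [per_add, List.take_append_of_le_length (by rw [per_length hρ]),
    List.take_of_length_le (by rw [per_length hρ])]

/-- The longest prefix of `G` along `ρρρ...` has length `z`. -/
def RunLen (ρ G : List C) (z : ℕ) : Prop := per ρ z <+: G ∧ ¬ per ρ (z + 1) <+: G

theorem RunLen.unique {ρ G : List C} {z z' : ℕ} (h : RunLen ρ G z) (h' : RunLen ρ G z') :
    z = z' := by
  rcases lt_trichotomy z z' with hlt | heq | hlt
  · exact absurd ((per_prefix ρ (show z + 1 ≤ z' from hlt)).trans h'.1) h.2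
  · exact heq
  · exact absurd ((per_prefix ρ (show z' + 1 ≤ z from hlt)).trans h.1) h'.2

theorem RunLen.append {ρ G : List C} {n z : ℕ} (h : RunLen (ρ.rotate n) G z) :
    RunLen ρ (per ρ n ++ G) (n + z) := by
  constructor
  · rw [per_add]; exact (List.prefix_append_right_inj _).mpr h.1
  · rw [Nat.add_assoc, per_add]
    intro hc
    exact h.2 ((List.prefix_append_right_inj _).mp hc)

theorem RunLen.rep {ρ G : List C} {z : ℕ} (m : ℕ) (h : RunLen ρ G z) :
    RunLen ρ (rep ρ m ++ G) (m * ρ.length + z) := by
  rw [← per_mul]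
  apply RunLen.append
  rw [Nat.mul_comm, List.rotate_length_mul]
  exact h

theorem RunLen.nil {ρ : List C} (h : ρ ≠ []) : RunLen ρ [] 0 := by
  constructor
  · simp
  · intro hc
    have := hc.length_le
    rw [per_length h] at this
    simp at this

theorem RunLen.cons_ne {a b : C} {l G : List C} (h : b ≠ a) : RunLen (a :: l) (b :: G) 0 := by
  constructor
  · simp
  · intro hc
    simp only [per] at hc
    rw [List.cons_prefix_cons] at hc
    exact h hc.1.symm

/-- Primitive words: a nonempty word all of whose commuting words are its powers. -/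
def Prim (ρ : List C) : Prop := ρ ≠ [] ∧ ∀ σ : List C, ρ ++ σ = σ ++ ρ → ∃ n, σ = rep ρ n

theorem Prim.eq_of_comm {ρ σ : List C} (hρ : Prim ρ) (hσ : Prim σ) (h : ρ ++ σ = σ ++ ρ) :
    ρ = σ := by
  obtain ⟨n, hn⟩ := hρ.2 σ h
  obtain ⟨m, hm⟩ := hσ.2 ρ h.symm
  have h1 := congrArg List.length hn
  have h2 := congrArg List.length hm
  rw [length_rep] at h1 h2
  have hl : 0 < ρ.length := List.length_pos_iff.mpr hρ.1
  have hl' : 0 < σ.length := List.length_pos_iff.mpr hσ.1
  have hn1 : n = 1 := by
    have hn0 : n ≠ 0 := by rintro rfl; omega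
    have hm0 : m ≠ 0 := by rintro rfl; omega
    have h3 : σ.length = n * m * σ.length := by
      calc σ.length = n * ρ.length := h1
        _ = n * (m * σ.length) := by rw [← h2]
        _ = n * m * σ.length := by ring
    have h4 : n * m = 1 := by
      have : 1 * σ.length = n * m * σ.length := by rw [← h3, Nat.one_mul]
      exact (Nat.eq_of_mul_eq_mul_right hl' this).symm
    exact Nat.eq_one_of_mul_eq_one_right h4
  rw [hn, hn1, rep_one]

theorem rep_cons_comm (a : C) (l : List C) (n : ℕ) :
    a :: rep (l ++ [a]) n = rep (a :: l) n ++ [a] := by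
  induction n with
  | zero => simp
  | succ n ih =>
    calc a :: rep (l ++ [a]) (n + 1) = (a :: l) ++ (a :: rep (l ++ [a]) n) := by
          rw [rep_succ]; simp
      _ = (a :: l) ++ (rep (a :: l) n ++ [a]) := by rw [ih]
      _ = rep (a :: l) (n + 1) ++ [a] := by rw [rep_succ, List.append_assoc]

theorem rep_snoc (ρ : List C) (n : ℕ) : rep ρ (n + 1) = rep ρ n ++ ρ := by
  rw [rep_add, rep_one]

theorem Prim.rot1 {a : C} {l : List C} (h : Prim (a :: l)) : Prim (l ++ [a]) := by
  refine ⟨by simp, ?_⟩
  intro σ hσ
  by_cases hs : σ = []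
  · exact ⟨0, by rw [hs, rep_zero]⟩
  -- σ ends with a
  obtain ⟨σ', b, rfl⟩ : ∃ σ' b, σ = σ' ++ [b] := ⟨σ.dropLast, σ.getLast hs, by
    rw [List.dropLast_append_getLast]⟩
  have hb : b = a := by
    have h2 : (l ++ [a] ++ σ') ++ [b] = (σ' ++ [b] ++ l) ++ [a] := by
      simpa [List.append_assoc] using hσ
    have h3 := (List.append_inj' h2 rfl).2
    simpa using h3
  subst hb
  have h3 : l ++ [b] ++ σ' = σ' ++ [b] ++ l := by
    have h4 : (l ++ [b] ++ σ') ++ [b] = (σ' ++ [b] ++ l) ++ [b] := by
      simpa [List.append_assoc] using hσ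
    exact List.append_cancel_right h4
  have h5 : (b :: l) ++ (b :: σ') = (b :: σ') ++ (b :: l) := by
    simp only [List.cons_append]
    congr 1
    simpa [List.append_assoc] using h3
  obtain ⟨n, hn⟩ := h.2 _ h5
  refine ⟨n, ?_⟩
  have h6 := rep_cons_comm b l n
  rw [← hn] at h6
  simp only [List.cons_append, List.cons.injEq, true_and] at h6
  exact h6.symm

theorem Prim.rotate {ρ : List C} (h : Prim ρ) (n : ℕ) : Prim (ρ.rotate n) := by
  induction n generalizing ρ with
  | zero => simpa using h
  | succ n ih =>
    cases ρ with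
    | nil => exact absurd rfl h.1
    | cons a l => rw [List.rotate_cons_succ]; exact ih h.rot1

theorem rep_eq_pow (w : FreeMonoid C) (n : ℕ) : (FreeMonoid.toList (w ^ n)) = rep w.toList n := by
  induction n with
  | zero => simp
  | succ n ih => rw [pow_succ', FreeMonoid.toList_mul, ih, rep_succ]

/-- Every nonempty word is a power of a primitive word. -/
theorem exists_prim (w : List C) (hw : w ≠ []) : ∃ ρ n, Prim ρ ∧ 0 < n ∧ w = rep ρ n := by
  classical
  have hex : ∃ k, ∃ ρ : List C, ρ.length = k ∧ ∃ n, w = rep ρ n := ⟨w.length, w, rfl, 1, (rep_one w).symm⟩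
  obtain ⟨ρ, hk, n, hn⟩ := Nat.find_spec hex
  have hmin : ∀ (σ : List C) (m : ℕ), w = rep σ m → ρ.length ≤ σ.length := by
    intro σ m hm
    rw [hk]
    exact Nat.find_min' hex ⟨σ, rfl, m, hm⟩
  have hn0 : n ≠ 0 := by rintro rfl; exact hw (by rw [hn, rep_zero])
  have hρ : ρ ≠ [] := by
    rintro rfl
    apply hw
    rw [hn]
    apply List.eq_nil_of_length_eq_zero
    rw [length_rep]; simp
  refine ⟨ρ, n, ⟨hρ, ?_⟩, Nat.pos_of_ne_zero hn0, hn⟩
  intro σ hσ
  obtain ⟨v, i, j, hi, hj⟩ := common_root _ (FreeMonoid.ofList ρ) (FreeMonoid.ofList σ) rfl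
    (by rw [← FreeMonoid.ofList_append, hσ, FreeMonoid.ofList_append])
  have hi' : ρ = rep v.toList i := by
    rw [← rep_eq_pow, ← hi]; rfl
  have hj' : σ = rep v.toList j := by
    rw [← rep_eq_pow, ← hj]; rfl
  have h1 := hmin v.toList (i * n) (by rw [hn, hi', rep_mul])
  have h2 := congrArg List.length hi'
  rw [length_rep] at h2
  have hρl : 0 < ρ.length := List.length_pos_iff.mpr hρ
  have hi1 : i = 1 := by
    have hi0 : i ≠ 0 := by rintro rfl; omega
    by_contra hne
    have : 2 ≤ i := by omega
    have hv : 0 < v.toList.length := by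
      by_contra hv0
      have : v.toList.length = 0 := by omega
      rw [this] at h2; omega
    nlinarith
  refine ⟨j, ?_⟩
  rw [hi1, rep_one] at hi'
  rw [hi']; exact hj'

/-- Weak Fine and Wilf: distinct primitive words have periodic extensions that differ early. -/
theorem mismatch {ρ σ : List C} (hρ : Prim ρ) (hσ : Prim σ) (h : ρ ≠ σ) :
    ∃ z, z < ρ.length + σ.length ∧ per ρ z = per σ z ∧ per ρ (z + 1) ≠ per σ (z + 1) := by
  classical
  have hex : ∃ n, per ρ n ≠ per σ n := by
    refine ⟨ρ.length + σ.length, fun hc => h (hρ.eq_of_comm hσ ?_)⟩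
    have h1 : per ρ σ.length = σ := by
      have := congrArg (List.take σ.length) hc
      rw [per_take hρ.1 (by omega), per_take hσ.1 (by omega)] at this
      rw [this]
      have h2 := per_mul σ 1
      rwa [Nat.one_mul, rep_one] at h2
    have h2 : per σ ρ.length = ρ := by
      have := congrArg (List.take ρ.length) hc
      rw [per_take hρ.1 (by omega), per_take hσ.1 (by omega)] at this
      rw [← this]
      have h2 := per_mul ρ 1
      rwa [Nat.one_mul, rep_one] at h2
    have h3 := hc
    rw [per_self_add, h1, Nat.add_comm, per_self_add, h2] at h3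
    exact h3
  have hle : Nat.find hex ≤ ρ.length + σ.length := by
    by_contra hcon
    push Not at hcon
    have h0 := Nat.find_min hex hcon
    push Not at h0
    refine absurd (hρ.eq_of_comm hσ ?_) h
    have h1 : per ρ σ.length = σ := by
      have := congrArg (List.take σ.length) h0
      rw [per_take hρ.1 (by omega), per_take hσ.1 (by omega)] at this
      rw [this]
      have h2 := per_mul σ 1
      rwa [Nat.one_mul, rep_one] at h2
    have h2 : per σ ρ.length = ρ := by
      have := congrArg (List.take ρ.length) h0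
      rw [per_take hρ.1 (by omega), per_take hσ.1 (by omega)] at this
      rw [← this]
      have h2 := per_mul ρ 1
      rwa [Nat.one_mul, rep_one] at h2
    have h3 := h0
    rw [per_self_add, h1, Nat.add_comm, per_self_add, h2] at h3
    exact h3
  have hpos : Nat.find hex ≠ 0 := by
    intro h0
    have := Nat.find_spec hex
    rw [h0] at this
    simp at this
  obtain ⟨z, hz⟩ := Nat.exists_eq_succ_of_ne_zero hpos
  refine ⟨z, by omega, ?_, ?_⟩
  · by_contra hc
    have := Nat.find_min' hex hc
    omega
  · have := Nat.find_spec hex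
    rwa [hz] at this

theorem RunLen.of_mismatch {ρ σ G : List C} {z m : ℕ} (hρ : ρ ≠ []) (hσ : σ ≠ [])
    (h1 : per ρ z = per σ z) (h2 : per ρ (z + 1) ≠ per σ (z + 1)) (hm : z + 1 ≤ m * σ.length) :
    RunLen ρ (Run.rep σ m ++ G) z := by
  have hpre : per σ (z + 1) <+: Run.rep σ m ++ G := by
    rw [← per_mul]
    exact (per_prefix σ hm).trans (List.prefix_append _ _)
  constructor
  · rw [h1]
    exact (per_prefix σ (Nat.le_succ z)).trans hpre
  · intro hc
    apply h2
    apply List.IsPrefix.eq_of_length
    · exact List.prefix_of_prefix_length_le hc hpre (by rw [per_length hρ, per_length hσ])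
    · rw [per_length hρ, per_length hσ]

end Pool.Agent.H80.EQ.Run
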