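import Pool.Agent.H80.EQ.FD

set_option autoImplicit false

namespace Pool.Agent.H80.EQ

open FreeMonoid

variable {A B : Type}

/-- All images of letters are powers of one word. -/
def Per (g : FreeMonoid A →* FreeMonoid B) : Prop := ∃ w : FreeMonoid B, ∀ a, ∃ n : ℕ, g (of a) = w ^ n

theorem Per.pow {g : FreeMonoid A →* FreeMonoid B} {w : FreeMonoid B}
    (h : ∀ a, ∃ n : ℕ, g (of a) = w ^ n) (x : FreeMonoid A) : ∃ n : ℕ, g x = w ^ n := by
  induction x using FreeMonoid.inductionOn' with
  | one => exact ⟨0, by simp⟩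
  | of_mul a x ih =>
    obtain ⟨n, hn⟩ := ih
    obtain ⟨m, hm⟩ := h a
    exact ⟨m + n, by rw [map_mul, hn, hm, pow_add]⟩

/-- Powers of two words that are equal and nontrivial force the words to commute. -/
theorem commute_of_pow_eq {w v : FreeMonoid B} {n m : ℕ} (hn : n ≠ 0) (hm : m ≠ 0)
    (h : w ^ n = v ^ m) : w * v = v * w := by
  have h1 : w * v ∣ w ^ n * w ^ n := by
    have : w * v ∣ w * v ^ m := mul_dvd_mul_left w (dvd_pow_self v hm)
    rw [← h] at this
    refine this.trans ?_
    rw [← pow_succ', ← pow_add]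
    exact pow_dvd_pow w (by omega)
  have h2 : v * w ∣ w ^ n * w ^ n := by
    have : v * w ∣ v * w ^ n := mul_dvd_mul_left v (dvd_pow_self w hn)
    rw [h] at this ⊢
    refine this.trans ?_
    rw [← pow_succ', ← pow_add]
    exact pow_dvd_pow v (by omega)
  exact eq_of_dvd_dvd h1 h2 (by rw [FreeMonoid.length_mul, FreeMonoid.length_mul]; omega)

/-- Commuting words are powers of a common word. -/
theorem common_root : ∀ (n : ℕ) (u v : FreeMonoid B), u.length + v.length = n → u * v = v * u →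
    ∃ (w : FreeMonoid B) (i j : ℕ), u = w ^ i ∧ v = w ^ j := by
  intro n
  induction n using Nat.strong_induction_on with
  | _ n ih =>
  intro u v hn h
  by_cases hu : u = 1
  · exact ⟨v, 0, 1, by simp [hu], by simp⟩
  by_cases hv : v = 1
  · exact ⟨u, 1, 0, by simp, by simp [hv]⟩
  have hul : u.length ≠ 0 := fun h => hu (FreeMonoid.length_eq_zero.mp h)
  have hvl : v.length ≠ 0 := fun h => hv (FreeMonoid.length_eq_zero.mp h)
  rcases le_total u.length v.length with hle | hle
  · obtain ⟨t, rfl⟩ := dvd_of_dvd_of_le (w := u * v) ⟨v, rfl⟩ ⟨u, h⟩ hle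
    have h' : u * t = t * u := by
      rw [mul_assoc] at h
      exact mul_left_cancel h
    rw [FreeMonoid.length_mul] at hn
    obtain ⟨w, i, j, hi, hj⟩ := ih (u.length + t.length) (by omega) u t rfl h'
    refine ⟨w, i, i + j, hi, ?_⟩
    rw [pow_add, ← hi, ← hj]
  · obtain ⟨t, rfl⟩ := dvd_of_dvd_of_le (w := u * v) ⟨u, h⟩ ⟨v, rfl⟩ hle
    have h' : t * v = v * t := by
      have h2 : v * (t * v) = v * (v * t) := by rw [← mul_assoc]; exact h
      exact mul_left_cancel h2
    rw [FreeMonoid.length_mul] at hn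
    obtain ⟨w, i, j, hi, hj⟩ := ih (t.length + v.length) (by omega) t v rfl h'
    refine ⟨w, j + i, j, ?_, hj⟩
    rw [pow_add, ← hi, ← hj]

section

variable [Fintype A]

theorem FD_Per (S : Set (HPair A B)) (hS : ∀ q ∈ S, Per q.1 ∧ Per q.2) : FD S := by
  apply FD_lin
  intro q hq
  obtain ⟨⟨w, hw⟩, ⟨v, hv⟩⟩ := hS q hq
  by_cases hc : w * v = v * w
  · refine ⟨LinearMap.ker (lenF q.1 - lenF q.2), fun x => ?_⟩
    rw [LinearMap.mem_ker, LinearMap.sub_apply, lenF_par, lenF_par]
    constructor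
    · intro h; rw [h]; simp
    · intro h
      have hl : (q.1 x).length = (q.2 x).length := by
        have : ((q.1 x).length : ℚ) = (q.2 x).length := by linarith
        exact_mod_cast this
      obtain ⟨n, hn⟩ := Per.pow hw x
      obtain ⟨m, hm⟩ := Per.pow hv x
      apply eq_of_commute_of_length _ hl
      rw [hn, hm]
      have hcc : Commute w v := hc
      exact (hcc.pow_pow n m).eq
  · refine ⟨LinearMap.ker (lenF q.1) ⊓ LinearMap.ker (lenF q.2), fun x => ?_⟩
    rw [Submodule.mem_inf, LinearMap.mem_ker, LinearMap.mem_ker, lenF_par, lenF_par]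
    constructor
    · intro h
      obtain ⟨n, hn⟩ := Per.pow hw x
      obtain ⟨m, hm⟩ := Per.pow hv x
      have h1 : q.1 x = 1 := by
        by_cases hn0 : n = 0
        · rw [hn, hn0, pow_zero]
        · by_cases hm0 : m = 0
          · rw [h, hm, hm0, pow_zero]
          · exact absurd (commute_of_pow_eq hn0 hm0 (by rw [← hn, ← hm, h])) hc
      rw [← h, h1]; simp
    · rintro ⟨h1, h2⟩
      have e1 : q.1 x = 1 := FreeMonoid.length_eq_zero.mp (by exact_mod_cast h1)
      have e2 : q.2 x = 1 := FreeMonoid.length_eq_zero.mp (by exact_mod_cast h2)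
      rw [e1, e2]

end

/-! ### Reversal -/

theorem rev_one : FreeMonoid.reverse (1 : FreeMonoid A) = 1 := rfl

/-- The homomorphism `x ↦ (g (x^R))^R`. -/
def rev (g : FreeMonoid A →* FreeMonoid B) : FreeMonoid A →* FreeMonoid B where
  toFun x := FreeMonoid.reverse (g (FreeMonoid.reverse x))
  map_one' := by rw [rev_one, map_one]; rfl
  map_mul' x y := by rw [FreeMonoid.reverse_mul, map_mul, FreeMonoid.reverse_mul]

theorem rev_apply (g : FreeMonoid A →* FreeMonoid B) (x : FreeMonoid A) :
    rev g x = FreeMonoid.reverse (g (FreeMonoid.reverse x)) := rfl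

theorem rev_rev (g : FreeMonoid A →* FreeMonoid B) : rev (rev g) = g := by
  ext x
  simp [rev_apply, FreeMonoid.reverse_reverse]

theorem rev_eq_iff (g h : FreeMonoid A →* FreeMonoid B) (x : FreeMonoid A) :
    rev g x = rev h x ↔ g (FreeMonoid.reverse x) = h (FreeMonoid.reverse x) := by
  rw [rev_apply, rev_apply]
  constructor
  · intro h1
    have := congrArg FreeMonoid.reverse h1
    rwa [FreeMonoid.reverse_reverse, FreeMonoid.reverse_reverse] at this
  · intro h1; rw [h1]

theorem FD_rev (S : Set (HPair A B)) (h : FD ((fun q : HPair A B => (rev q.1, rev q.2)) '' S)) :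
    FD S := by
  obtain ⟨T, hTf, hTS, hTE⟩ := h
  obtain ⟨T', hT'S, hT'f, rfl⟩ := Set.exists_subset_image_finite_and.mp ⟨T, hTS, hTf, rfl⟩
  refine ⟨T', hT'f, hT'S, ?_⟩
  intro x hx q hq
  have h1 : FreeMonoid.reverse x ∈ EqS ((fun q : HPair A B => (rev q.1, rev q.2)) '' T') := by
    rintro _ ⟨p, hp, rfl⟩
    simp only
    rw [rev_eq_iff, FreeMonoid.reverse_reverse]
    exact hx p hp
  have h2 := hTE h1 (rev q.1, rev q.2) ⟨q, hq, rfl⟩
  simp only at h2
  rwa [rev_eq_iff, FreeMonoid.reverse_reverse] at h2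

theorem FD_UD_rev [Fintype A] (k : ℕ) (S : Set (HPair A B))
    (hS : ∀ q ∈ S, UD k (rev q.1) ∧ UD k (rev q.2)) : FD S := by
  apply FD_rev
  apply FD_UD k
  rintro _ ⟨q, hq, rfl⟩
  exact hS q hq

/-! ### Two-letter alphabets -/

theorem UD_injective {k : ℕ} {g : FreeMonoid A →* FreeMonoid B} (hg : UD k g) :
    Function.Injective g := by
  intro x y hxy
  by_contra hne
  -- a long common continuation
  have key2 : ∀ u v : FreeMonoid A, g u = g v → u ∣ v → u = v := by
    intro u v huv hd
    obtain ⟨t, rfl⟩ := hd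
    rw [map_mul] at huv
    have ht : g t = 1 := by
      have : g u * g t = g u * 1 := by rw [mul_one]; exact huv.symm
      exact mul_left_cancel this
    have := length_le_map g hg.1 t
    rw [ht] at this
    have h0 : t.length = 0 := by simpa using this
    rw [FreeMonoid.length_eq_zero.mp h0, mul_one]
  have h1 : ¬ x ∣ y := fun h => hne (key2 x y hxy h)
  have h2 : ¬ y ∣ x := fun h => hne (key2 y x hxy.symm h).symm
  obtain ⟨z, a, b, hab, ⟨x', hx'⟩, ⟨y', hy'⟩⟩ := diverge h1 h2
  -- extend by a long word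
  have hfix : ∀ n : ℕ, ∃ w : FreeMonoid A, n ≤ w.length :=
    fun n => ⟨(of a) ^ n, by rw [length_pow', FreeMonoid.length_of]; omega⟩
  have hmain : ∀ w : FreeMonoid A, g (of a * x' * w) = g (of b * y' * w) := by
    intro w
    have : g (z * (of a * x' * w)) = g (z * (of b * y' * w)) := by
      have e1 : z * (of a * x' * w) = x * w := by rw [hx']; simp only [mul_assoc]
      have e2 : z * (of b * y' * w) = y * w := by rw [hy']; simp only [mul_assoc]
      rw [e1, e2, map_mul, map_mul, hxy]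
    rw [map_mul g z, map_mul g z] at this
    exact mul_left_cancel this
  -- labels
  obtain ⟨w0, hw0⟩ := hfix (k + 1)
  obtain ⟨p, hp, hpl⟩ := exists_take (of a * x' * w0) (k + 1) (by
    rw [FreeMonoid.length_mul]; omega)
  obtain ⟨r, hr, hrl⟩ := exists_take (of b * y' * w0) (k + 1) (by
    rw [FreeMonoid.length_mul]; omega)
  have hap : of a ∣ p := dvd_of_dvd_of_le (w := of a * x' * w0)
    ⟨x' * w0, by rw [mul_assoc]⟩ hp (by rw [FreeMonoid.length_of]; omega)
  have hbr : of b ∣ r := dvd_of_dvd_of_le (w := of b * y' * w0)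
    ⟨y' * w0, by rw [mul_assoc]⟩ hr (by rw [FreeMonoid.length_of]; omega)
  obtain ⟨ζ, c, d, hcd, hc, hd⟩ := hg.2 p r ⟨hpl, hrl, a, b, hab, hap, hbr⟩
  obtain ⟨p', hp'⟩ := hp
  obtain ⟨r', hr'⟩ := hr
  obtain ⟨w, hw⟩ := hfix (ζ.length + 1)
  have e1 : g (p * (p' * w)) = g (r * (r' * w)) := by
    have := hmain (w0 * w)
    rw [← mul_assoc, ← mul_assoc, hp', hr'] at this
    simpa only [mul_assoc] using this
  have l1 : ζ.length < (g (p * (p' * w))).length := by
    have := length_le_map g hg.1 (p * (p' * w))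
    rw [FreeMonoid.length_mul, FreeMonoid.length_mul] at this
    omega
  have l2 : ζ.length < (g (r * (r' * w))).length := by rw [← e1]; exact l1
  have f1 := hc _ l1
  have f2 := hd _ l2
  rw [← e1] at f2
  exact hcd (of_ne_of_dvd f1 f2)

/-- The conjugating prefix for two non-commuting words. -/
theorem conj_prefix {u v ζ : FreeMonoid B} {c d : B} (hc : ζ * of c ∣ u * v)
    (hd : ζ * of d ∣ v * u) (hu : u ≠ 1) : ∃ u', u * ζ = ζ * u' ∧ of c ∣ u' := by
  have hul : u.length ≠ 0 := fun h => hu (FreeMonoid.length_eq_zero.mp h)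
  have h1 : ζ * of c ∣ u * v * u := hc.trans (Dvd.intro _ rfl)
  have h2 : u * ζ ∣ u * v * u := by
    rw [mul_assoc]
    exact mul_dvd_mul_left u ((Dvd.intro _ rfl).trans hd)
  have h3 : ζ ∣ u * ζ := dvd_of_dvd_of_le ((Dvd.intro _ rfl).trans h1) h2 (by
    rw [FreeMonoid.length_mul]; omega)
  obtain ⟨u', hu'⟩ := h3
  refine ⟨u', hu', ?_⟩
  have hl : u'.length = u.length := by
    have := congrArg FreeMonoid.length hu'
    rw [FreeMonoid.length_mul, FreeMonoid.length_mul] at this
    omega
  have h4 : ζ * of c ∣ ζ * u' := by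
    rw [hu'] at h2
    exact dvd_of_dvd_of_le h1 h2 (by
      rw [FreeMonoid.length_mul, FreeMonoid.length_mul, FreeMonoid.length_of]; omega)
  obtain ⟨t, ht⟩ := h4
  exact ⟨t, mul_left_cancel (by rw [ht, mul_assoc])⟩

theorem UD_binary {a b : A} (hab : a ≠ b) (hA : ∀ c : A, c = a ∨ c = b)
    {g : FreeMonoid A →* FreeMonoid B} (hg : g (of a) * g (of b) ≠ g (of b) * g (of a)) :
    UD 0 g := by
  have hga : g (of a) ≠ 1 := by intro h; apply hg; rw [h]; simp
  have hgb : g (of b) ≠ 1 := by intro h; apply hg; rw [h]; simp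
  have hl : (g (of a) * g (of b)).length = (g (of b) * g (of a)).length := by
    rw [FreeMonoid.length_mul, FreeMonoid.length_mul]; omega
  obtain ⟨ζ, c, d, hcd, hc, hd⟩ := diverge_of_le
    (fun h => hg (eq_of_dvd_of_length h hl)) hl.le
  obtain ⟨u', hu', hcu'⟩ := conj_prefix hc hd hga
  obtain ⟨v', hv', hdv'⟩ := conj_prefix hd hc hgb
  -- all images are conjugated by `ζ`
  have hconj : ∀ w : FreeMonoid A, ζ ∣ g w * ζ := by
    intro w
    induction w using FreeMonoid.inductionOn' with
    | one => simp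
    | of_mul e w ih =>
      obtain ⟨t, ht⟩ := ih
      rw [map_mul, mul_assoc, ht]
      rcases hA e with rfl | rfl
      · rw [← mul_assoc, hu', mul_assoc]; exact Dvd.intro _ rfl
      · rw [← mul_assoc, hv', mul_assoc]; exact Dvd.intro _ rfl
  have main : ∀ (e : A) (u' : FreeMonoid B) (c : B), g (of e) * ζ = ζ * u' → of c ∣ u' →
      ∀ w, ζ.length < (g (of e * w)).length → ζ * of c ∣ g (of e * w) := by
    intro e u' c hu' hc w hw
    obtain ⟨t, ht⟩ := hconj w
    have h1 : ζ * of c ∣ g (of e * w) * ζ := by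
      rw [map_mul, mul_assoc, ht, ← mul_assoc, hu', mul_assoc]
      exact mul_dvd_mul_left ζ (hc.trans (Dvd.intro _ rfl))
    exact dvd_of_dvd_of_le h1 (Dvd.intro _ rfl) (by
      rw [FreeMonoid.length_mul, FreeMonoid.length_of]; omega)
  have ma := main a u' c hu' hcu'
  have mb := main b v' d hv' hdv'
  constructor
  · intro e
    rcases hA e with rfl | rfl
    · exact hga
    · exact hgb
  · rintro p r ⟨hp, hr, a1, b1, hab1, ha1, hb1⟩
    have hp1 : p = of a1 := (eq_of_dvd_of_length ha1 (by rw [FreeMonoid.length_of]; omega)).symm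
    have hr1 : r = of b1 := (eq_of_dvd_of_length hb1 (by rw [FreeMonoid.length_of]; omega)).symm
    subst hp1
    subst hr1
    rcases hA a1 with rfl | rfl
    · have : b1 = b := by
        rcases hA b1 with h | h
        · exact absurd h.symm hab1
        · exact h
      subst this
      exact ⟨ζ, c, d, hcd, ma, mb⟩
    · have : b1 = a := by
        rcases hA b1 with h | h
        · exact h
        · exact absurd h.symm hab1
      subst this
      exact ⟨ζ, d, c, Ne.symm hcd, mb, ma⟩

theorem Per_binary {a b : A} (hA : ∀ c : A, c = a ∨ c = b)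
    {g : FreeMonoid A →* FreeMonoid B} (hg : g (of a) * g (of b) = g (of b) * g (of a)) :
    Per g := by
  obtain ⟨w, i, j, hi, hj⟩ := common_root _ _ _ rfl hg
  refine ⟨w, fun e => ?_⟩
  rcases hA e with rfl | rfl
  · exact ⟨i, hi⟩
  · exact ⟨j, hj⟩

/-- Two-letter alphabets. -/
theorem FD_two [Fintype A] {a b : A} (hab : a ≠ b) (hA : ∀ c : A, c = a ∨ c = b)
    (S : Set (HPair A B)) : FD S := by
  classical
  have hdich : ∀ g : FreeMonoid A →* FreeMonoid B, Per g ∨ UD 0 g := by
    intro g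
    by_cases hg : g (of a) * g (of b) = g (of b) * g (of a)
    · exact Or.inl (Per_binary hA hg)
    · exact Or.inr (UD_binary hab hA hg)
  by_cases hmix : ∃ q ∈ S, (Per q.1 ∧ UD 0 q.2) ∨ (UD 0 q.1 ∧ Per q.2)
  · obtain ⟨q, hq, hq'⟩ := hmix
    apply FD_of_comm (T := {q}) (by simpa using hq) (Set.finite_singleton q)
    intro x hx y hy
    have hx' : q.1 x = q.2 x := hx q rfl
    have hy' : q.1 y = q.2 y := hy q rfl
    have gen : ∀ g h : FreeMonoid A →* FreeMonoid B, Per g → UD 0 h → g x = h x → g y = h y →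
        x * y = y * x := by
      intro g h ⟨w, hw⟩ hh e1 e2
      apply UD_injective hh
      obtain ⟨n, hn⟩ := Per.pow hw x
      obtain ⟨m, hm⟩ := Per.pow hw y
      rw [map_mul, map_mul, ← e1, ← e2, hn, hm, ← pow_add, ← pow_add, add_comm]
    rcases hq' with ⟨h1, h2⟩ | ⟨h1, h2⟩
    · exact gen _ _ h1 h2 hx' hy'
    · exact gen _ _ h2 h1 hx'.symm hy'.symm
  · have hS : S = {q ∈ S | Per q.1 ∧ Per q.2} ∪ {q ∈ S | UD 0 q.1 ∧ UD 0 q.2} := by
      ext q
      constructor
      · intro hq
        rcases hdich q.1 with h1 | h1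
        · rcases hdich q.2 with h2 | h2
          · exact Or.inl ⟨hq, h1, h2⟩
          · exact absurd ⟨q, hq, Or.inl ⟨h1, h2⟩⟩ hmix
        · rcases hdich q.2 with h2 | h2
          · exact absurd ⟨q, hq, Or.inr ⟨h1, h2⟩⟩ hmix
          · exact Or.inr ⟨hq, h1, h2⟩
      · rintro (h | h) <;> exact h.1
    rw [hS]
    exact FD_union (FD_Per _ (fun q hq => hq.2)) (FD_UD 0 _ (fun q hq => hq.2))

end Pool.Agent.H80.EQ
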