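import Pool.Agent.H80.EQ.Branch

set_option autoImplicit false

namespace Pool.Agent.H80.EQ

open FreeMonoid

variable {A B : Type}

/-- The overhang at a point is determined by the label and its length. -/
theorem overhang {a b : FreeMonoid B} {u v : FreeMonoid B} (h : a * u = b * v)
    (hl : b.length ≤ a.length) : ∃ ω, a = b * ω ∧ ω * u = v := by
  have hba : b ∣ a := dvd_of_dvd_of_le (w := a * u) ⟨v, h⟩ ⟨u, rfl⟩ hl
  obtain ⟨ω, rfl⟩ := hba
  exact ⟨ω, rfl, mul_left_cancel (by rw [← mul_assoc]; exact h)⟩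

theorem Div_symm {g : FreeMonoid A →* FreeMonoid B} {p r : FreeMonoid A} {ζ : FreeMonoid B}
    (h : Div g p r ζ) : Div g r p ζ := by
  obtain ⟨c, d, hcd, h1, h2⟩ := h
  exact ⟨d, c, Ne.symm hcd, h2, h1⟩

theorem Div_left {g : FreeMonoid A →* FreeMonoid B} {p r : FreeMonoid A} {ζ : FreeMonoid B}
    (h : Div g p r ζ) (w : FreeMonoid A) (hw : ζ.length < (g (p * w)).length) :
    ζ ∣ g (p * w) := by
  obtain ⟨c, d, hcd, h1, h2⟩ := h
  exact (Dvd.intro _ rfl).trans (h1 w hw)

theorem loc_aux {k : ℕ} {g h : FreeMonoid A →* FreeMonoid B} (hg : UD k g) (hh : UD k h)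
    {z p r p' y' s z3 z4 : FreeMonoid A} (hl : Lab k p r) (hp' : p'.length = k + 1)
    (hz : g (z * (p' * y')) = h (z * (p' * y')))
    (hs : s = p ∨ s = r) (hl' : Lab k p' s)
    (hy1 : (zeta g p' s).length < y'.length) (hy2 : (zeta h p' s).length < y'.length)
    (h3 : g z3 * zeta g p r = h z3 * zeta h p r)
    (h3l : (g z).length + (h z3).length = (g z3).length + (h z).length)
    (h4 : g z4 * zeta g p' s = h z4 * zeta h p' s)
    (h4l : (g z).length + (h z4).length = (g z4).length + (h z).length)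
    (hle : (h z).length ≤ (g z).length) :
    g z * zeta g p r = h z * zeta h p r := by
  obtain ⟨ω, e1, e2⟩ := overhang (a := g z) (b := h z) (u := g (p' * y')) (v := h (p' * y'))
    (by rw [← map_mul, ← map_mul]; exact hz) hle
  obtain ⟨ω3, f1, f2⟩ := overhang h3 (by omega)
  obtain ⟨ω4, k1, k2⟩ := overhang h4 (by omega)
  have l3 : ω3.length = ω.length := by
    have a1 := congrArg FreeMonoid.length e1
    have a2 := congrArg FreeMonoid.length f1
    rw [FreeMonoid.length_mul] at a1 a2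
    omega
  have l4 : ω4.length = ω.length := by
    have a1 := congrArg FreeMonoid.length e1
    have a2 := congrArg FreeMonoid.length k1
    rw [FreeMonoid.length_mul] at a1 a2
    omega
  -- `ω = ω4`
  have hω4 : ω4 = ω := by
    have d1 : zeta h p' s ∣ h (p' * y') :=
      Div_left (zeta_spec hh hl') y' (long_image hh.1 hy2)
    have d2 : ω4 ∣ h (p' * y') := (Dvd.intro _ k2).trans d1
    have d3 : ω ∣ h (p' * y') := Dvd.intro _ e2
    exact eq_of_dvd_dvd d2 d3 l4
  -- `ω3 = ω4`
  have hω3 : ω3 = ω4 := by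
    set N := (zeta h p' s).length + (zeta h p r).length + 1 with hN
    have hlen : N ≤ (p' ^ N).length := by
      rw [length_pow', hp']
      exact Nat.le_mul_of_pos_right N (by omega)
    have d1 : zeta h p' s ∣ h (s * p' ^ N) :=
      Div_left (Div_symm (zeta_spec hh hl')) _ (long_image hh.1 (by omega))
    have d2 : zeta h p r ∣ h (s * p' ^ N) := by
      rcases hs with rfl | rfl
      · exact Div_left (zeta_spec hh hl) _ (long_image hh.1 (by omega))
      · exact Div_left (Div_symm (zeta_spec hh hl)) _ (long_image hh.1 (by omega))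
    exact eq_of_dvd_dvd ((Dvd.intro _ f2).trans d2) ((Dvd.intro _ k2).trans d1) (by omega)
  rw [e1, mul_assoc, ← hω4, ← hω3, f2]

theorem loc {k : ℕ} {g h : FreeMonoid A →* FreeMonoid B} (hg : UD k g) (hh : UD k h)
    {z p r p' y' s z3 z4 : FreeMonoid A} (hl : Lab k p r) (hp' : p'.length = k + 1)
    (hz : g (z * (p' * y')) = h (z * (p' * y')))
    (hs : s = p ∨ s = r) (hl' : Lab k p' s)
    (hy1 : (zeta g p' s).length < y'.length) (hy2 : (zeta h p' s).length < y'.length)
    (h3 : g z3 * zeta g p r = h z3 * zeta h p r)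
    (h3l : (g z).length + (h z3).length = (g z3).length + (h z).length)
    (h4 : g z4 * zeta g p' s = h z4 * zeta h p' s)
    (h4l : (g z).length + (h z4).length = (g z4).length + (h z).length) :
    g z * zeta g p r = h z * zeta h p r := by
  rcases le_total (h z).length (g z).length with hle | hle
  · exact loc_aux hg hh hl hp' hz hs hl' hy1 hy2 h3 h3l h4 h4l hle
  · exact (loc_aux hh hg hl hp' hz.symm hs hl' hy2 hy1 h3.symm (by omega) h4.symm (by omega)
      hle).symm

section

variable [Fintype A]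

/-- Differences of Parikh vectors of points with a common label. -/
def Uspan (k : ℕ) (T : Set (HPair A B)) : Submodule ℚ (A → ℚ) :=
  Submodule.span ℚ {v | ∃ p r z z', Lab k p r ∧ Occ T z p r ∧ Occ T z' p r ∧ v = par z - par z'}

/-- The labels that occur. -/
def Br (k : ℕ) (T : Set (HPair A B)) : Set (FreeMonoid A × FreeMonoid A) :=
  {q | Lab k q.1 q.2 ∧ ∃ z, Occ T z q.1 q.2}

theorem Uspan_mono (k : ℕ) {T T' : Set (HPair A B)} (h : T ⊆ T') : Uspan k T' ≤ Uspan k T := by
  apply Submodule.span_mono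
  rintro v ⟨p, r, z, z', h1, h2, h3, h4⟩
  exact ⟨p, r, z, z', h1, Occ_mono h h2, Occ_mono h h3, h4⟩

omit [Fintype A] in
theorem Br_mono (k : ℕ) {T T' : Set (HPair A B)} (h : T ⊆ T') : Br k T' ⊆ Br k T := by
  rintro q ⟨h1, z, h2⟩
  exact ⟨h1, z, Occ_mono h h2⟩

theorem Br_finite (k : ℕ) (T : Set (HPair A B)) : (Br k T).Finite := by
  have h1 : {u : FreeMonoid A | u.length = k + 1}.Finite := by
    have := List.finite_length_eq A (k + 1)
    exact this
  refine (h1.prod h1).subset ?_
  rintro ⟨p, r⟩ ⟨hl, -⟩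
  exact ⟨hl.1, hl.2.1⟩

theorem lenF_Uspan {k : ℕ} {T : Set (HPair A B)} {q : HPair A B} (hq : q ∈ T) (h1 : UD k q.1)
    (h2 : UD k q.2) {v : A → ℚ} (hv : v ∈ Uspan k T) : lenF q.1 v = lenF q.2 v := by
  unfold Uspan at hv
  induction hv using Submodule.span_induction with
  | mem x hx =>
    obtain ⟨p, r, z, z', hl, ho, ho', rfl⟩ := hx
    have e1 := congrArg FreeMonoid.length (key hq h1 h2 hl ho)
    have e2 := congrArg FreeMonoid.length (key hq h1 h2 hl ho')
    rw [FreeMonoid.length_mul, FreeMonoid.length_mul] at e1 e2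
    rw [map_sub, map_sub, lenF_par, lenF_par, lenF_par, lenF_par]
    have e1' : ((q.1 z).length : ℚ) + (zeta q.1 p r).length =
      (q.2 z).length + (zeta q.2 p r).length := by exact_mod_cast e1
    have e2' : ((q.1 z').length : ℚ) + (zeta q.1 p r).length =
      (q.2 z').length + (zeta q.2 p r).length := by exact_mod_cast e2
    linarith
  | zero => simp
  | add x y _ _ hx hy => rw [map_add, map_add, hx, hy]
  | smul c x _ hx => rw [map_smul, map_smul, hx]

theorem length_eq_of_U {k : ℕ} {T T2 : Set (HPair A B)} {q : HPair A B} (hq : q ∈ T2)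
    (h1 : UD k q.1) (h2 : UD k q.2) (hU : Uspan k T2 = Uspan k T) {z z' p r : FreeMonoid A}
    (hl : Lab k p r) (ho : Occ T z p r) (ho' : Occ T z' p r) :
    (q.1 z).length + (q.2 z').length = (q.1 z').length + (q.2 z).length := by
  have hv : par z - par z' ∈ Uspan k T2 := by
    rw [hU]
    exact Submodule.subset_span ⟨p, r, z, z', hl, ho, ho', rfl⟩
  have := lenF_Uspan hq h1 h2 hv
  rw [map_sub, map_sub, lenF_par, lenF_par, lenF_par, lenF_par] at this
  have h3 : (((q.1 z).length + (q.2 z').length : ℕ) : ℚ) =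
      (((q.1 z').length + (q.2 z).length : ℕ) : ℚ) := by
    push_cast; linarith
  exact_mod_cast h3

/-- Step A: branching points on a path of the smaller set. -/
theorem stepA {k : ℕ} {T T2 : Set (HPair A B)} (hTT2 : T ⊆ T2)
    {q : HPair A B} (hq : q ∈ T2) (h1 : UD k q.1) (h2 : UD k q.2)
    (hBr : Br k T2 = Br k T) (hU : Uspan k T2 = Uspan k T)
    {z p r : FreeMonoid A} (hne : z ≠ 1 ∨ ∃ x ∈ EqS T2, x ≠ 1)
    (hz : Pre T2 z) (hl : Lab k p r) (ho : Occ T z p r) :
    q.1 z * zeta q.1 p r = q.2 z * zeta q.2 p r := by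
  -- a long continuation
  have hlong : ∀ N : ℕ, ∃ y, z * y ∈ EqS T2 ∧ N ≤ y.length := by
    intro N
    rcases hne with hne | ⟨x, hx, hx1⟩
    · exact ext_long hz hne N
    · obtain ⟨y, hy⟩ := hz
      refine ⟨y * x ^ N, ?_, ?_⟩
      · rw [← mul_assoc]; exact mul_mem_EqS hy (pow_mem_EqS hx N)
      · rw [FreeMonoid.length_mul, length_pow']
        have : x.length ≠ 0 := fun h => hx1 (FreeMonoid.length_eq_zero.mp h)
        have h2 : N * 1 ≤ N * x.length := Nat.mul_le_mul_left N (by omega)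
        omega
  -- finitely many labels; choose a bound for all divergence points with a fixed first component
  obtain ⟨M, hM⟩ : ∃ M : ℕ, ∀ u v : FreeMonoid A, u.length = k + 1 → v.length = k + 1 →
      (zeta q.1 u v).length ≤ M ∧ (zeta q.2 u v).length ≤ M := by
    have hfin : {u : FreeMonoid A | u.length = k + 1}.Finite := List.finite_length_eq A (k + 1)
    have hfin2 := (hfin.prod hfin).image
      (fun w => (zeta q.1 w.1 w.2).length + (zeta q.2 w.1 w.2).length)
    obtain ⟨M, hM⟩ := hfin2.bddAbove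
    refine ⟨M, fun u v hu hv => ?_⟩
    have := hM ⟨(u, v), ⟨hu, hv⟩, rfl⟩
    simp only at this
    omega
  obtain ⟨y, hy, hyl⟩ := hlong (k + 1 + M + 1)
  obtain ⟨p', hp', hp'l⟩ := exists_take y (k + 1) (by omega)
  obtain ⟨y', rfl⟩ := hp'
  have hy'l : M < y'.length := by
    rw [FreeMonoid.length_mul, hp'l] at hyl; omega
  have hpre : Pre T2 (z * p') := ⟨y', by rw [mul_assoc]; exact hy⟩
  have hdir := other_dir hl ho hp'l (Pre_mono hTT2 hpre)
  -- labels occurring for `T` occur for `T2`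
  have hex : ∀ u v, Lab k u v → Occ T z u v → ∃ z3, Occ T2 z3 u v := by
    intro u v huv hocc
    have : (u, v) ∈ Br k T := ⟨huv, z, hocc⟩
    rw [← hBr] at this
    exact this.2
  obtain ⟨z3, hz3⟩ := hex p r hl ho
  have h3 := key hq h1 h2 hl hz3
  have h3l := length_eq_of_U hq h1 h2 hU hl ho (Occ_mono hTT2 hz3)
  rcases hdir with ⟨hl', ho'⟩ | ⟨hl', ho'⟩
  · obtain ⟨z4, hz4⟩ := hex p' p hl' ho'
    exact loc h1 h2 hl hp'l (hy q hq) (Or.inl rfl) hl'
      (lt_of_le_of_lt (hM p' p hp'l hl.1).1 hy'l) (lt_of_le_of_lt (hM p' p hp'l hl.1).2 hy'l)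
      h3 h3l (key hq h1 h2 hl' hz4) (length_eq_of_U hq h1 h2 hU hl' ho' (Occ_mono hTT2 hz4))
  · obtain ⟨z4, hz4⟩ := hex p' r hl' ho'
    exact loc h1 h2 hl hp'l (hy q hq) (Or.inr rfl) hl'
      (lt_of_le_of_lt (hM p' r hp'l hl.2.1).1 hy'l) (lt_of_le_of_lt (hM p' r hp'l hl.2.1).2 hy'l)
      h3 h3l (key hq h1 h2 hl' hz4) (length_eq_of_U hq h1 h2 hU hl' ho' (Occ_mono hTT2 hz4))

/-- Step B: all branching points. -/
theorem stepB {k : ℕ} {T T2 : Set (HPair A B)} (hTT2 : T ⊆ T2)
    (hT : ∀ q ∈ T, UD k q.1 ∧ UD k q.2)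
    {q : HPair A B} (hq : q ∈ T2) (h1 : UD k q.1) (h2 : UD k q.2)
    (hBr : Br k T2 = Br k T) (hU : Uspan k T2 = Uspan k T)
    (hne : ∃ x ∈ EqS T2, x ≠ 1) :
    ∀ (n : ℕ) (z : FreeMonoid A), z.length = n → ∀ p r, Lab k p r → Occ T z p r →
      q.1 z * zeta q.1 p r = q.2 z * zeta q.2 p r := by
  intro n
  induction n using Nat.strong_induction_on with
  | _ n ih =>
  intro z hzn p r hl ho
  by_cases hz2 : Pre T2 z
  · exact stepA hTT2 hq h1 h2 hBr hU (Or.inr hne) hz2 hl ho
  -- the longest proper prefix of `z` at which some label occurs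
  let PP : ℕ → Prop := fun m => ∃ z0 s : FreeMonoid A, z0 * s = z ∧ s ≠ 1 ∧ z0.length = m ∧
    ∃ u v, Lab k u v ∧ Occ T z0 u v
  by_cases hex : ∃ m, PP m
  · -- choose the largest one
    classical
    have hbd : ∀ m, PP m → m ≤ n := by
      rintro m ⟨z0, s, hzs, -, hm, -⟩
      have := congrArg FreeMonoid.length hzs
      rw [FreeMonoid.length_mul] at this
      omega
    obtain ⟨m0, hm0⟩ := hex
    have hmax := Nat.findGreatest_spec (P := PP) (hbd m0 hm0) hm0
    set m := Nat.findGreatest PP n with hm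
    have hgr : ∀ m', PP m' → m' ≤ m := fun m' hm' => Nat.le_findGreatest (hbd m' hm') hm'
    obtain ⟨z0, s, hzs, hs1, hz0m, u, v, huv, houv⟩ := hmax
    have hslen : 0 < s.length := by
      rcases Nat.eq_zero_or_pos s.length with h | h
      · exact absurd (FreeMonoid.length_eq_zero.mp h) hs1
      · exact h
    have hz0lt : z0.length < n := by
      have := congrArg FreeMonoid.length hzs
      rw [FreeMonoid.length_mul] at this
      omega
    -- a long element of `EqS T` through `z`
    obtain ⟨y, hy, hyl⟩ := ext_long ho.1 (hl.mul_ne_one z) (k + 1)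
    -- direction of `z` at `z0`
    have hx : z0 * (s * (p * y)) ∈ EqS T := by
      have : z0 * (s * (p * y)) = z * p * y := by rw [← hzs]; simp only [mul_assoc]
      rw [this]; exact hy
    obtain ⟨p1, hp1, hp1l⟩ := exists_take (s * (p * y)) (k + 1) (by
      simp only [FreeMonoid.length_mul]; omega)
    have hp1pre : Pre T (z0 * p1) :=
      Pre_of_dvd (mul_dvd_mul_left z0 hp1) ⟨1, by rw [mul_one]; exact hx⟩
    -- a label with first component `p1` at `z0`
    obtain ⟨r1, hl1, ho1⟩ : ∃ r1, Lab k p1 r1 ∧ Occ T z0 p1 r1 := by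
      rcases other_dir huv houv hp1l hp1pre with h | h
      · exact ⟨u, h⟩
      · exact ⟨v, h⟩
    -- it occurs for `T2`
    obtain ⟨z2, hz2'⟩ : ∃ z2, Occ T2 z2 p1 r1 := by
      have : (p1, r1) ∈ Br k T := ⟨hl1, z0, ho1⟩
      rw [← hBr] at this
      exact this.2
    obtain ⟨y2, hy2, hy2l⟩ := ext_long hz2'.1 (hl1.mul_ne_one z2) s.length
    have hy2T : z0 * (p1 * y2) ∈ EqS T := by
      apply follow hT hl1 (Occ_mono hTT2 hz2') ho1
      rw [← mul_assoc]
      exact EqS_mono hTT2 hy2
    -- `s` is a prefix of `p1 * y2`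
    have hsd : s ∣ p1 * y2 := by
      by_contra hnd
      obtain ⟨s', a, b, hab, ha, hb⟩ := diverge_of_le hnd (by
        rw [FreeMonoid.length_mul]; omega)
      -- `s'` is not empty
      have hs' : s' ≠ 1 := by
        rintro rfl
        rw [one_mul] at ha hb
        apply hab
        have ha' : of a ∣ p1 := dvd_of_dvd_of_le (w := s * (p * y)) (ha.trans (Dvd.intro _ rfl)) hp1
          (by rw [FreeMonoid.length_of]; omega)
        exact head_unique (ha'.trans (Dvd.intro _ rfl)) hb
      have hpa : Pre T (z0 * s' * of a) := by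
        rw [mul_assoc]
        apply Pre_of_dvd (z' := z0 * s) (mul_dvd_mul_left z0 ha)
        exact ⟨p * y, by rw [mul_assoc]; exact hx⟩
      have hpb : Pre T (z0 * s' * of b) := by
        rw [mul_assoc]
        apply Pre_of_dvd (z' := z0 * (p1 * y2)) (mul_dvd_mul_left z0 hb)
        exact ⟨1, by rw [mul_one]; exact hy2T⟩
      obtain ⟨pa, hpal, hpad, hpap⟩ := exists_dir k hpa
      obtain ⟨pb, hpbl, hpbd, hpbp⟩ := exists_dir k hpb
      have hs'len : 0 < s'.length := by
        rcases Nat.eq_zero_or_pos s'.length with h | h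
        · exact absurd (FreeMonoid.length_eq_zero.mp h) hs'
        · exact h
      obtain ⟨t, ht⟩ := (Dvd.intro _ rfl).trans ha
      have hlt := length_le_of_dvd ha
      rw [FreeMonoid.length_mul, FreeMonoid.length_of] at hlt
      have : PP (z0 * s').length := by
        refine ⟨z0 * s', t, ?_, ?_, rfl, pa, pb, ⟨hpal, hpbl, a, b, hab, hpad, hpbd⟩,
          hpap, hpbp⟩
        · rw [mul_assoc, ← ht, hzs]
        · rintro rfl
          have := congrArg FreeMonoid.length ht
          rw [mul_one] at this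
          omega
      have := hgr _ this
      rw [FreeMonoid.length_mul] at this
      omega
    -- hence `z2 * s` is a point of `T2`
    have hz2s : Pre T2 (z2 * s) := by
      apply Pre_of_dvd (z' := z2 * (p1 * y2)) (mul_dvd_mul_left z2 hsd)
      exact ⟨1, by rw [mul_one, ← mul_assoc]; exact hy2⟩
    have hocc2 : Occ T (z2 * s) p r := by
      constructor
      · rw [mul_assoc]
        apply follow_pre hT hl1 ho1 (Occ_mono hTT2 hz2')
        rw [← mul_assoc, hzs]; exact ho.1
      · rw [mul_assoc]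
        apply follow_pre hT hl1 ho1 (Occ_mono hTT2 hz2')
        rw [← mul_assoc, hzs]; exact ho.2
    have hA := stepA hTT2 hq h1 h2 hBr hU (Or.inr hne) hz2s hl hocc2
    have hB := ih z0.length hz0lt z0 rfl p1 r1 hl1 ho1
    have hC := key hq h1 h2 hl1 hz2'
    rw [map_mul, map_mul, mul_assoc, mul_assoc] at hA
    have := transfer hC hB hA
    rw [← hzs, map_mul, map_mul, mul_assoc, mul_assoc]
    exact this
  · -- no proper prefix: `z` is a prefix of every long element
    exfalso
    apply hz2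
    obtain ⟨x, hx, hx1⟩ := hne
    have hxlen : x.length ≠ 0 := fun h => hx1 (FreeMonoid.length_eq_zero.mp h)
    set X := x ^ (n + 1) with hX
    have hXmem : X ∈ EqS T2 := pow_mem_EqS hx _
    have hXlen : n ≤ X.length := by
      rw [hX, length_pow']
      have : (n + 1) * 1 ≤ (n + 1) * x.length := Nat.mul_le_mul_left _ (by omega)
      omega
    have hzX : z ∣ X := by
      by_contra hnd
      obtain ⟨s', a, b, hab, ha, hb⟩ := diverge_of_le hnd (by omega)
      apply hex
      have hpa : Pre T (s' * of a) := Pre_of_dvd ha (Pre_of_dvd (Dvd.intro _ rfl) ho.1)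
      have hpb : Pre T (s' * of b) :=
        Pre_of_dvd hb ⟨1, by rw [mul_one]; exact EqS_mono hTT2 hXmem⟩
      obtain ⟨pa, hpal, hpad, hpap⟩ := exists_dir k hpa
      obtain ⟨pb, hpbl, hpbd, hpbp⟩ := exists_dir k hpb
      obtain ⟨t, ht⟩ := ha
      refine ⟨s'.length, s', of a * t, ?_, ?_, rfl, pa, pb, ⟨hpal, hpbl, a, b, hab, hpad, hpbd⟩,
        hpap, hpbp⟩
      · rw [← mul_assoc]; exact ht.symm
      · intro h
        have := congrArg FreeMonoid.length h
        rw [FreeMonoid.length_mul] at this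
        simp at this
    obtain ⟨c, hc⟩ := hzX
    exact ⟨c, by rw [← hc]; exact hXmem⟩

/-- The step: if the data do not change, the intersection does not change. -/
theorem stable_step {k : ℕ} {T T2 : Set (HPair A B)} (hTT2 : T ⊆ T2)
    (hT : ∀ q ∈ T, UD k q.1 ∧ UD k q.2)
    {q : HPair A B} (hq : q ∈ T2) (h1 : UD k q.1) (h2 : UD k q.2)
    (hBr : Br k T2 = Br k T) (hU : Uspan k T2 = Uspan k T)
    (hne : ∃ x ∈ EqS T2, x ≠ 1) (hbr : (Br k T).Nonempty) {x : FreeMonoid A} (hx : x ∈ EqS T) :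
    q.1 x = q.2 x := by
  obtain ⟨⟨p, r⟩, hl, z, ho⟩ := hbr
  simp only at hl ho
  have e1 := stepB hTT2 hT hq h1 h2 hBr hU hne _ z rfl p r hl ho
  have ho2 : Occ T (x * z) p r := by
    obtain ⟨⟨y, hy⟩, ⟨y', hy'⟩⟩ := ho
    refine ⟨⟨y, ?_⟩, ⟨y', ?_⟩⟩
    · have := mul_mem_EqS hx hy
      simpa only [mul_assoc] using this
    · have := mul_mem_EqS hx hy'
      simpa only [mul_assoc] using this
  have e2 := stepB hTT2 hT hq h1 h2 hBr hU hne _ (x * z) rfl p r hl ho2
  rw [map_mul, map_mul, mul_assoc, mul_assoc, e1] at e2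
  exact mul_right_cancel e2

end

end Pool.Agent.H80.EQ
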