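import Pool.Agent.H80.EQ.Special

set_option autoImplicit false

/-!
Two-tape version: pairs `(u, v)` of words with `g u = h v`, for homomorphisms `g`, `h` uniformly
diverging at depth `k`.
-/

namespace Pool.Agent.H80.EQ

open FreeMonoid

variable {C C' B : Type}

/-- Pairs of homomorphisms with a common target. -/
abbrev PPair (C C' B : Type) := (FreeMonoid C →* FreeMonoid B) × (FreeMonoid C' →* FreeMonoid B)

/-- Pairs of words with equal images. -/
def KS (T : Set (PPair C C' B)) : Set (FreeMonoid C × FreeMonoid C') :=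
  {x | ∀ p ∈ T, p.1 x.1 = p.2 x.2}

def PreK (T : Set (PPair C C' B)) (z : FreeMonoid C × FreeMonoid C') : Prop := ∃ y, z * y ∈ KS T

theorem KS_mono {T T' : Set (PPair C C' B)} (h : T ⊆ T') : KS T' ⊆ KS T :=
  fun _ hx p hp => hx p (h hp)

theorem one_mem_KS (T : Set (PPair C C' B)) : (1 : FreeMonoid C × FreeMonoid C') ∈ KS T := by
  intro p _; simp

theorem mul_mem_KS {T : Set (PPair C C' B)} {x y : FreeMonoid C × FreeMonoid C'} (hx : x ∈ KS T)
    (hy : y ∈ KS T) : x * y ∈ KS T := by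
  intro p hp
  rw [Prod.fst_mul, Prod.snd_mul, map_mul, map_mul, hx p hp, hy p hp]

theorem pow_mem_KS {T : Set (PPair C C' B)} {x : FreeMonoid C × FreeMonoid C'} (hx : x ∈ KS T)
    (n : ℕ) : x ^ n ∈ KS T := by
  intro p hp
  rw [Prod.pow_fst, Prod.pow_snd, map_pow, map_pow, hx p hp]

theorem PreK_mono {T T' : Set (PPair C C' B)} (h : T ⊆ T') {z : FreeMonoid C × FreeMonoid C'}
    (hz : PreK T' z) : PreK T z := by
  obtain ⟨y, hy⟩ := hz
  exact ⟨y, KS_mono h hy⟩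

theorem PreK_of_dvd {T : Set (PPair C C' B)} {z z' : FreeMonoid C × FreeMonoid C'}
    (h1 : z.1 ∣ z'.1) (h2 : z.2 ∣ z'.2) (hz : PreK T z') : PreK T z := by
  obtain ⟨c1, h1⟩ := h1
  obtain ⟨c2, h2⟩ := h2
  obtain ⟨y, hy⟩ := hz
  refine ⟨(c1, c2) * y, ?_⟩
  have : z * ((c1, c2) * y) = z' * y := by
    rw [← mul_assoc]
    congr 1
    exact Prod.ext h1.symm h2.symm
  rw [this]; exact hy

theorem PreK_of_mem {T : Set (PPair C C' B)} {z x : FreeMonoid C × FreeMonoid C'}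
    (hx : x ∈ KS T) (h1 : z.1 ∣ x.1) (h2 : z.2 ∣ x.2) : PreK T z :=
  PreK_of_dvd h1 h2 ⟨1, by rw [mul_one]; exact hx⟩

/-- All homomorphisms are uniformly diverging at depth `k`, and there is at least one pair. -/
structure Adm (k : ℕ) (T : Set (PPair C C' B)) : Prop where
  ne : T.Nonempty
  ud : ∀ q ∈ T, UD k q.1 ∧ UD k q.2

theorem eq_one_iff {g : FreeMonoid C →* FreeMonoid B} (hg : ∀ a, g (of a) ≠ 1) {x : FreeMonoid C} :
    g x = 1 ↔ x = 1 := by
  constructor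
  · intro h
    have := length_le_map g hg x
    rw [h] at this
    exact FreeMonoid.length_eq_zero.mp (by simpa using this)
  · rintro rfl; exact map_one g

theorem KS_one_iff {k : ℕ} {T : Set (PPair C C' B)} (hT : Adm k T)
    {x : FreeMonoid C × FreeMonoid C'} (hx : x ∈ KS T) : x.1 = 1 ↔ x.2 = 1 := by
  obtain ⟨q, hq⟩ := hT.ne
  rw [← eq_one_iff (hT.ud q hq).1.1, ← eq_one_iff (hT.ud q hq).2.1, hx q hq]

theorem long_of_nontriv {k : ℕ} {T : Set (PPair C C' B)} (hT : Adm k T)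
    (hne : ∃ x ∈ KS T, x ≠ 1) {z : FreeMonoid C × FreeMonoid C'} (hz : PreK T z) (N : ℕ) :
    ∃ y, z * y ∈ KS T ∧ N ≤ y.1.length ∧ N ≤ y.2.length := by
  obtain ⟨x, hx, hx1⟩ := hne
  obtain ⟨y, hy⟩ := hz
  have h0 := KS_one_iff hT hx
  have h1 : x.1 ≠ 1 := fun h => hx1 (Prod.ext h (h0.1 h))
  have h2 : x.2 ≠ 1 := fun h => hx1 (Prod.ext (h0.2 h) h)
  have l1 : x.1.length ≠ 0 := fun h => h1 (FreeMonoid.length_eq_zero.mp h)
  have l2 : x.2.length ≠ 0 := fun h => h2 (FreeMonoid.length_eq_zero.mp h)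
  refine ⟨y * x ^ N, ?_, ?_, ?_⟩
  · rw [← mul_assoc]
    exact mul_mem_KS hy (pow_mem_KS hx N)
  · rw [Prod.fst_mul, Prod.pow_fst, FreeMonoid.length_mul, length_pow']
    have : N * 1 ≤ N * x.1.length := Nat.mul_le_mul_left N (by omega)
    omega
  · rw [Prod.snd_mul, Prod.pow_snd, FreeMonoid.length_mul, length_pow']
    have : N * 1 ≤ N * x.2.length := Nat.mul_le_mul_left N (by omega)
    omega

theorem ext_long2 {k : ℕ} {T : Set (PPair C C' B)} (hT : Adm k T)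
    {z : FreeMonoid C × FreeMonoid C'}
    (hz : PreK T z) (hne : z ≠ 1) (N : ℕ) :
    ∃ y, z * y ∈ KS T ∧ N ≤ y.1.length ∧ N ≤ y.2.length := by
  obtain ⟨y, hy⟩ := hz
  refine long_of_nontriv hT ⟨z * y, hy, ?_⟩ ⟨y, hy⟩ N
  intro h
  apply hne
  have e1 := congrArg (fun w => w.1.length) h
  have e2 := congrArg (fun w => w.2.length) h
  simp only [Prod.fst_mul, Prod.snd_mul, FreeMonoid.length_mul, Prod.fst_one, Prod.snd_one,
    FreeMonoid.length_one] at e1 e2
  exact Prod.ext (FreeMonoid.length_eq_zero.mp (by omega)) (FreeMonoid.length_eq_zero.mp (by omega))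

/-- Divergence of `p…` and `r…` under `g`, in terms of words through a point. -/
def DivAt (g : FreeMonoid C →* FreeMonoid B) (p r : FreeMonoid C) (ζ : FreeMonoid B) (c d : B) :
    Prop :=
  c ≠ d ∧ (∀ s u, s * p ∣ u → s.length + ζ.length < u.length → g s * ζ * of c ∣ g u) ∧
    (∀ s u, s * r ∣ u → s.length + ζ.length < u.length → g s * ζ * of d ∣ g u)

theorem divAt_aux {g : FreeMonoid C →* FreeMonoid B} (hg : ∀ a, g (of a) ≠ 1) {p : FreeMonoid C}
    {ζ : FreeMonoid B} {c : B}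
    (h : ∀ w, ζ.length < (g (p * w)).length → ζ * of c ∣ g (p * w)) :
    ∀ s u, s * p ∣ u → s.length + ζ.length < u.length → g s * ζ * of c ∣ g u := by
  rintro s u ⟨w, rfl⟩ hl
  rw [mul_assoc s, map_mul, mul_assoc]
  apply mul_dvd_mul_left
  apply h
  have := length_le_map g hg (p * w)
  rw [FreeMonoid.length_mul, FreeMonoid.length_mul] at hl
  rw [FreeMonoid.length_mul] at this
  omega

theorem divAt_of_UD {k : ℕ} {g : FreeMonoid C →* FreeMonoid B} (hg : UD k g)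
    {p r : FreeMonoid C} (hl : Lab k p r) : ∃ c d, DivAt g p r (zeta g p r) c d := by
  obtain ⟨c, d, hcd, h1, h2⟩ := zeta_spec hg hl
  exact ⟨c, d, hcd, divAt_aux hg.1 h1, divAt_aux hg.1 h2⟩

/-- The key identity at a divergence point. -/
theorem key2_words {g : FreeMonoid C →* FreeMonoid B} {h : FreeMonoid C' →* FreeMonoid B}
    {p r : FreeMonoid C} {p' r' : FreeMonoid C'} {ζ η : FreeMonoid B} {c d c' d' : B}
    (hζ : DivAt g p r ζ c d) (hη : DivAt h p' r' η c' d')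
    {s u1 u2 : FreeMonoid C} {t v1 v2 : FreeMonoid C'} (e1 : g u1 = h v1) (e2 : g u2 = h v2)
    (ha : s * p ∣ u1) (hb : s * r ∣ u2) (ha' : t * p' ∣ v1) (hb' : t * r' ∣ v2)
    (l1 : s.length + ζ.length < u1.length) (l2 : s.length + ζ.length < u2.length)
    (l3 : t.length + η.length < v1.length) (l4 : t.length + η.length < v2.length) :
    g s * ζ = h t * η := by
  obtain ⟨hcd, hc, hd⟩ := hζ
  obtain ⟨hcd', hc', hd'⟩ := hη
  have k1 := hc s u1 ha l1
  have k2 := hd s u2 hb l2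
  have k3 := hc' t v1 ha' l3
  have k4 := hd' t v2 hb' l4
  rw [← e1] at k3
  rw [← e2] at k4
  have f1 : g s * ζ ∣ g u1 := (Dvd.intro _ rfl).trans k1
  have f2 : g s * ζ ∣ g u2 := (Dvd.intro _ rfl).trans k2
  have f3 : h t * η ∣ g u1 := (Dvd.intro _ rfl).trans k3
  have f4 : h t * η ∣ g u2 := (Dvd.intro _ rfl).trans k4
  rcases lt_trichotomy (g s * ζ).length (h t * η).length with hl | hl | hl
  · exfalso
    have m1 : g s * ζ * of c ∣ h t * η := dvd_of_dvd_of_le k1 f3 (by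
      rw [FreeMonoid.length_mul, FreeMonoid.length_of]; omega)
    have m2 : g s * ζ * of d ∣ h t * η := dvd_of_dvd_of_le k2 f4 (by
      rw [FreeMonoid.length_mul, FreeMonoid.length_of]; omega)
    exact hcd (of_ne_of_dvd m1 m2)
  · exact eq_of_dvd_dvd f1 f3 hl
  · exfalso
    have m1 : h t * η * of c' ∣ g s * ζ := dvd_of_dvd_of_le k3 f1 (by
      rw [FreeMonoid.length_mul, FreeMonoid.length_of]; omega)
    have m2 : h t * η * of d' ∣ g s * ζ := dvd_of_dvd_of_le k4 f2 (by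
      rw [FreeMonoid.length_mul, FreeMonoid.length_of]; omega)
    exact hcd' (of_ne_of_dvd m1 m2)

/-- Divergence on the first tape forces divergence on the second one. -/
theorem div_other {g : FreeMonoid C →* FreeMonoid B} {h : FreeMonoid C' →* FreeMonoid B}
    {p r : FreeMonoid C} {ζ : FreeMonoid B} {c d : B} (hζ : DivAt g p r ζ c d)
    {s u1 u2 : FreeMonoid C} {v1 v2 : FreeMonoid C'} (e1 : g u1 = h v1) (e2 : g u2 = h v2)
    (ha : s * p ∣ u1) (hb : s * r ∣ u2)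
    (l1 : s.length + ζ.length < u1.length) (l2 : s.length + ζ.length < u2.length) :
    ∃ t a' b', a' ≠ b' ∧ t * of a' ∣ v1 ∧ t * of b' ∣ v2 := by
  have k1 := hζ.2.1 s u1 ha l1
  have k2 := hζ.2.2 s u2 hb l2
  have hinc1 : ¬ v1 ∣ v2 := by
    rintro ⟨w, rfl⟩
    rw [map_mul, ← e1] at e2
    have : g s * ζ * of c ∣ g u2 := by rw [e2]; exact k1.trans (Dvd.intro _ rfl)
    exact hζ.1 (of_ne_of_dvd this k2)
  have hinc2 : ¬ v2 ∣ v1 := by
    rintro ⟨w, rfl⟩
    rw [map_mul, ← e2] at e1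
    have : g s * ζ * of d ∣ g u1 := by rw [e1]; exact k2.trans (Dvd.intro _ rfl)
    exact hζ.1 (of_ne_of_dvd k1 this)
  exact diverge hinc1 hinc2

/-- Windows of length `k + 1` at a divergence point. -/
theorem windows {k : ℕ} {s u1 u2 : FreeMonoid C} {a b : C} (hab : a ≠ b) (ha : s * of a ∣ u1)
    (hb : s * of b ∣ u2) (l1 : s.length + (k + 1) ≤ u1.length)
    (l2 : s.length + (k + 1) ≤ u2.length) :
    ∃ p r, Lab k p r ∧ of a ∣ p ∧ of b ∣ r ∧ s * p ∣ u1 ∧ s * r ∣ u2 := by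
  have aux : ∀ (u : FreeMonoid C) (c : C), s * of c ∣ u → s.length + (k + 1) ≤ u.length →
      ∃ p : FreeMonoid C, p.length = k + 1 ∧ of c ∣ p ∧ s * p ∣ u := by
    rintro u c ⟨w, rfl⟩ hl
    rw [FreeMonoid.length_mul, FreeMonoid.length_mul] at hl
    obtain ⟨p, hp, hpl⟩ := exists_take (of c * w) (k + 1) (by
      rw [FreeMonoid.length_mul]; omega)
    refine ⟨p, hpl, ?_, ?_⟩
    · apply dvd_of_dvd_of_le (w := of c * w) ⟨w, rfl⟩ hp
      rw [hpl, FreeMonoid.length_of]; omega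
    · rw [mul_assoc]; exact mul_dvd_mul_left s hp
  obtain ⟨p, hp1, hp2, hp3⟩ := aux u1 a ha l1
  obtain ⟨r, hr1, hr2, hr3⟩ := aux u2 b hb l2
  exact ⟨p, r, ⟨hp1, hr1, a, b, hab, hp2, hr2⟩, hp2, hr2, hp3, hr3⟩

/-- A label `((p, p'), (r, r'))` occurs at `z`. -/
def Occ2 (T : Set (PPair C C' B)) (z : FreeMonoid C × FreeMonoid C') (p : FreeMonoid C)
    (p' : FreeMonoid C') (r : FreeMonoid C) (r' : FreeMonoid C') : Prop :=
  PreK T (z * (p, p')) ∧ PreK T (z * (r, r'))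

theorem Occ2_mono {T T' : Set (PPair C C' B)} (h : T ⊆ T') {z : FreeMonoid C × FreeMonoid C'}
    {p r : FreeMonoid C} {p' r' : FreeMonoid C'} (hz : Occ2 T' z p p' r r') :
    Occ2 T z p p' r r' :=
  ⟨PreK_mono h hz.1, PreK_mono h hz.2⟩

theorem Lab.mul_ne_one2 {k : ℕ} {p r : FreeMonoid C} (h : Lab k p r)
    (z : FreeMonoid C × FreeMonoid C') (p' : FreeMonoid C') : z * (p, p') ≠ 1 := by
  intro h1
  have := congrArg (fun w => w.1.length) h1
  simp only [Prod.fst_mul, FreeMonoid.length_mul, h.1, Prod.fst_one,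
    FreeMonoid.length_one] at this
  omega

theorem key2 {k : ℕ} {T : Set (PPair C C' B)} (hT : Adm k T) {q : PPair C C' B} (hq : q ∈ T)
    {z : FreeMonoid C × FreeMonoid C'} {p r : FreeMonoid C} {p' r' : FreeMonoid C'}
    (hl : Lab k p r) (hl' : Lab k p' r') (ho : Occ2 T z p p' r r') :
    q.1 z.1 * zeta q.1 p r = q.2 z.2 * zeta q.2 p' r' := by
  obtain ⟨c, d, hζ⟩ := divAt_of_UD (hT.ud q hq).1 hl
  obtain ⟨c', d', hη⟩ := divAt_of_UD (hT.ud q hq).2 hl'
  set N := (zeta q.1 p r).length + (zeta q.2 p' r').length + 1 with hN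
  obtain ⟨x, hx, hx1, hx2⟩ := ext_long2 hT ho.1 (hl.mul_ne_one2 z p') N
  obtain ⟨y, hy, hy1, hy2⟩ := ext_long2 hT ho.2 (hl.symm.mul_ne_one2 z r') N
  refine key2_words hζ hη (hx q hq) (hy q hq) (s := z.1) (t := z.2) ?_ ?_ ?_ ?_ ?_ ?_ ?_ ?_
  · exact Dvd.intro _ rfl
  · exact Dvd.intro _ rfl
  · exact Dvd.intro _ rfl
  · exact Dvd.intro _ rfl
  all_goals
    simp only [Prod.fst_mul, Prod.snd_mul, FreeMonoid.length_mul]
    omega

theorem follow2 {k : ℕ} {T : Set (PPair C C' B)} (hT : Adm k T)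
    {z z' y : FreeMonoid C × FreeMonoid C'} {p r : FreeMonoid C} {p' r' : FreeMonoid C'}
    (hl : Lab k p r) (hl' : Lab k p' r') (ho : Occ2 T z p p' r r')
    (ho' : Occ2 T z' p p' r r') (hy : z * y ∈ KS T) : z' * y ∈ KS T := by
  intro q hq
  have e1 := key2 hT hq hl hl' ho
  have e2 := key2 hT hq hl hl' ho'
  have e3 := hy q hq
  rw [Prod.fst_mul, Prod.snd_mul, map_mul, map_mul] at e3 ⊢
  exact transfer e1 e2 e3

theorem follow_pre2 {k : ℕ} {T : Set (PPair C C' B)} (hT : Adm k T)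
    {z z' y : FreeMonoid C × FreeMonoid C'} {p r : FreeMonoid C} {p' r' : FreeMonoid C'}
    (hl : Lab k p r) (hl' : Lab k p' r') (ho : Occ2 T z p p' r r')
    (ho' : Occ2 T z' p p' r r') (hy : PreK T (z * y)) : PreK T (z' * y) := by
  obtain ⟨u, hu⟩ := hy
  refine ⟨u, ?_⟩
  rw [mul_assoc] at hu ⊢
  exact follow2 hT hl hl' ho ho' hu

theorem dvd_of_mul_dvd_mul {z u v : FreeMonoid C} (h : z * u ∣ z * v) : u ∣ v := by
  obtain ⟨c, hc⟩ := h
  exact ⟨c, mul_left_cancel (by rw [hc, mul_assoc])⟩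

end Pool.Agent.H80.EQ
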