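import Pool.Agent.H80.EQ.TT1
import Pool.Agent.H80.EQ.FD

set_option autoImplicit false

namespace Pool.Agent.H80.EQ

open FreeMonoid

variable {C C' B : Type}

/-- Words-only form of the local argument. -/
theorem loc_auxK {g : FreeMonoid C →* FreeMonoid B} {h : FreeMonoid C' →* FreeMonoid B}
    {s s' s3 s4 y1 : FreeMonoid C} {t t3 t4 y2 : FreeMonoid C'} {x ζ3 ζ4 η3 η4 : FreeMonoid B}
    (hz : g (s * (s' * y1)) = h (t * y2))
    (h3 : g s3 * ζ3 = h t3 * η3)
    (h3l : (g s).length + (h t3).length = (g s3).length + (h t).length)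
    (h4 : g s4 * ζ4 = h t4 * η4)
    (h4l : (g (s * s')).length + (h t4).length = (g s4).length + (h t).length)
    (hy : η4 ∣ h y2) (hx4 : η4 ∣ x) (hx3 : η3 ∣ x) (hle : (h t).length ≤ (g s).length) :
    g s * ζ3 = h t * η3 := by
  obtain ⟨ω, e1, e2⟩ := overhang (a := g s) (b := h t) (u := g (s' * y1)) (v := h y2)
    (by rw [← map_mul, ← map_mul]; exact hz) hle
  have hgs : (g (s * s')).length = (g s).length + (g s').length := by
    rw [map_mul, FreeMonoid.length_mul]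
  obtain ⟨ω3, f1, f2⟩ := overhang h3 (by omega)
  obtain ⟨ω4, k1, k2⟩ := overhang h4 (by omega)
  have l3 : ω3.length = ω.length := by
    have a1 := congrArg FreeMonoid.length e1
    have a2 := congrArg FreeMonoid.length f1
    rw [FreeMonoid.length_mul] at a1 a2
    omega
  have l4 : ω4.length = (ω * g s').length := by
    have a1 := congrArg FreeMonoid.length e1
    have a2 := congrArg FreeMonoid.length k1
    rw [FreeMonoid.length_mul] at a1 a2
    rw [FreeMonoid.length_mul]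
    omega
  have hω4 : ω4 = ω * g s' := by
    have d2 : ω4 ∣ h y2 := (Dvd.intro _ k2).trans hy
    have d3 : ω * g s' ∣ h y2 := by
      rw [← e2, map_mul, ← mul_assoc]; exact Dvd.intro _ rfl
    exact eq_of_dvd_dvd d2 d3 l4
  have hω : ω ∣ x := by
    have : ω ∣ ω4 := by rw [hω4]; exact Dvd.intro _ rfl
    exact this.trans ((Dvd.intro _ k2).trans hx4)
  have hω3 : ω3 = ω := eq_of_dvd_dvd ((Dvd.intro _ f2).trans hx3) hω l3
  rw [e1, mul_assoc, ← hω3, f2]

/-- A uniform bound for the divergence points. -/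
theorem exists_zeta_bound [Finite C] (k : ℕ) (g : FreeMonoid C →* FreeMonoid B) : ∃ M : ℕ,
    ∀ p r, Lab k p r → (zeta g p r).length ≤ M := by
  have hfin : {u : FreeMonoid C | u.length = k + 1}.Finite := by
    have := Fintype.ofFinite C
    exact List.finite_length_eq C (k + 1)
  have hfin2 := (hfin.prod hfin).image (fun w => (zeta g w.1 w.2).length)
  obtain ⟨M, hM⟩ := hfin2.bddAbove
  exact ⟨M, fun p r hl => hM ⟨(p, r), ⟨hl.1, hl.2.1⟩, rfl⟩⟩

theorem le_of_common {w u v s : FreeMonoid C} {a b : C} (hab : a ≠ b) (h1 : w ∣ u) (h2 : w ∣ v)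
    (ha : s * of a ∣ u) (hb : s * of b ∣ v) : w.length ≤ s.length := by
  by_contra hcon
  push Not at hcon
  have m1 : s * of a ∣ w := dvd_of_dvd_of_le ha h1 (by
    rw [FreeMonoid.length_mul, FreeMonoid.length_of]; omega)
  exact hab (of_ne_of_dvd (m1.trans h2) hb)

theorem pow_fst_length {X : FreeMonoid C × FreeMonoid C'} (h : X.1 ≠ 1) (N : ℕ) :
    N ≤ (X ^ N).1.length := by
  rw [Prod.pow_fst, length_pow']
  have : X.1.length ≠ 0 := fun h' => h (FreeMonoid.length_eq_zero.mp h')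
  have h2 : N * 1 ≤ N * X.1.length := Nat.mul_le_mul_left N (by omega)
  omega

theorem pow_snd_length {X : FreeMonoid C × FreeMonoid C'} (h : X.2 ≠ 1) (N : ℕ) :
    N ≤ (X ^ N).2.length := by
  rw [Prod.pow_snd, length_pow']
  have : X.2.length ≠ 0 := fun h' => h (FreeMonoid.length_eq_zero.mp h')
  have h2 : N * 1 ≤ N * X.2.length := Nat.mul_le_mul_left N (by omega)
  omega

/-- The label of a pair of solutions diverging at `t` on the second tape. -/
theorem pair_label [Finite C'] {k : ℕ} {T : Set (PPair C C' B)} (hT : Adm k T)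
    {X Y : FreeMonoid C × FreeMonoid C'} (hX : X ∈ KS T) (hY : Y ∈ KS T) {t : FreeMonoid C'}
    {a' b' : C'} (hab' : a' ≠ b') (ha' : t * of a' ∣ X.2) (hb' : t * of b' ∣ Y.2) (N0 : ℕ) :
    ∃ (N : ℕ) (s : FreeMonoid C) (p r : FreeMonoid C) (p' r' : FreeMonoid C'), N0 ≤ N ∧ 1 ≤ N ∧
      Lab k p r ∧ Lab k p' r' ∧ s * p ∣ (X ^ N).1 ∧ t * p' ∣ (X ^ N).2 ∧ s * r ∣ (Y ^ N).1 ∧
      t * r' ∣ (Y ^ N).2 := by
  obtain ⟨q, hq⟩ := hT.ne
  obtain ⟨M, hM⟩ := exists_zeta_bound k q.2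
  have hX2 : X.2 ≠ 1 := by
    intro h
    have := length_le_of_dvd ha'
    rw [h, FreeMonoid.length_mul, FreeMonoid.length_of, FreeMonoid.length_one] at this
    omega
  have hY2 : Y.2 ≠ 1 := by
    intro h
    have := length_le_of_dvd hb'
    rw [h, FreeMonoid.length_mul, FreeMonoid.length_of, FreeMonoid.length_one] at this
    omega
  have hX1 : X.1 ≠ 1 := fun h => hX2 ((KS_one_iff hT hX).1 h)
  have hY1 : Y.1 ≠ 1 := fun h => hY2 ((KS_one_iff hT hY).1 h)
  set N1 := N0 + t.length + k + M + 2 with hN1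
  have hdX : ∀ n m : ℕ, n ≤ m → (X ^ n).1 ∣ (X ^ m).1 ∧ (X ^ n).2 ∣ (X ^ m).2 := by
    intro n m hnm
    rw [Prod.pow_fst, Prod.pow_fst, Prod.pow_snd, Prod.pow_snd]
    exact ⟨pow_dvd_pow _ hnm, pow_dvd_pow _ hnm⟩
  have hdY : ∀ n m : ℕ, n ≤ m → (Y ^ n).1 ∣ (Y ^ m).1 ∧ (Y ^ n).2 ∣ (Y ^ m).2 := by
    intro n m hnm
    rw [Prod.pow_fst, Prod.pow_fst, Prod.pow_snd, Prod.pow_snd]
    exact ⟨pow_dvd_pow _ hnm, pow_dvd_pow _ hnm⟩
  have lX := pow_snd_length hX2 N1
  have lY := pow_snd_length hY2 N1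
  have haN : t * of a' ∣ (X ^ N1).2 := ha'.trans (by
    have := (hdX 1 N1 (by omega)).2; rwa [pow_one] at this)
  have hbN : t * of b' ∣ (Y ^ N1).2 := hb'.trans (by
    have := (hdY 1 N1 (by omega)).2; rwa [pow_one] at this)
  obtain ⟨p', r', hl', hp1, hr1, hp', hr'⟩ := windows (k := k) hab' haN hbN (by omega) (by omega)
  obtain ⟨c, d, hη⟩ := divAt_of_UD (hT.ud q hq).2 hl'
  have hMl := hM p' r' hl'
  obtain ⟨s, a, b, hab, hsa, hsb⟩ := div_other hη (pow_mem_KS hX N1 q hq).symm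
    (pow_mem_KS hY N1 q hq).symm hp' hr' (by omega) (by omega)
  have hsal := length_le_of_dvd hsa
  have hsbl := length_le_of_dvd hsb
  rw [FreeMonoid.length_mul, FreeMonoid.length_of] at hsal hsbl
  have gX : (X ^ (N1 + (k + 1))).1.length = (X ^ N1).1.length + (X ^ (k + 1)).1.length := by
    rw [pow_add, Prod.fst_mul, FreeMonoid.length_mul]
  have gY : (Y ^ (N1 + (k + 1))).1.length = (Y ^ N1).1.length + (Y ^ (k + 1)).1.length := by
    rw [pow_add, Prod.fst_mul, FreeMonoid.length_mul]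
  have kX := pow_fst_length hX1 (k + 1)
  have kY := pow_fst_length hY1 (k + 1)
  obtain ⟨p, r, hl, -, -, hp, hr⟩ := windows (k := k) hab
    (hsa.trans (hdX N1 (N1 + (k + 1)) (by omega)).1)
    (hsb.trans (hdY N1 (N1 + (k + 1)) (by omega)).1) (by omega) (by omega)
  exact ⟨N1 + (k + 1), s, p, r, p', r', by omega, by omega, hl, hl', hp,
    hp'.trans (hdX N1 (N1 + (k + 1)) (by omega)).2, hr,
    hr'.trans (hdY N1 (N1 + (k + 1)) (by omega)).2⟩

/-- Half of step A. -/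
theorem stepA_half [Finite C'] {k : ℕ} {T : Set (PPair C C' B)} (hT : Adm k T)
    {g : FreeMonoid C →* FreeMonoid B} {h : FreeMonoid C' →* FreeMonoid B} (hh : UD k h)
    (hlab : ∀ (z1 : FreeMonoid C × FreeMonoid C') (p r : FreeMonoid C) (p' r' : FreeMonoid C'),
      Lab k p r → Lab k p' r' → Occ2 T z1 p p' r r' → ∃ s4 t4,
        g s4 * zeta g p r = h t4 * zeta h p' r' ∧
        (g z1.1).length + (h t4).length = (g s4).length + (h z1.2).length)
    {z y : FreeMonoid C × FreeMonoid C'} {p r : FreeMonoid C} {p' r' : FreeMonoid C'}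
    (hl : Lab k p r) (hl' : Lab k p' r') (ho : Occ2 T z p p' r r')
    (hD : z * y ∈ KS T) (hDq : g (z * y).1 = h (z * y).2) (hy : y.2 ≠ 1)
    (hle : (h z.2).length ≤ (g z.1).length) :
    g z.1 * zeta g p r = h z.2 * zeta h p' r' := by
  obtain ⟨M, hM⟩ := exists_zeta_bound k h
  obtain ⟨x1, hx1, -, hx1l⟩ := ext_long2 hT ho.1 (hl.mul_ne_one2 z p') (M + 1)
  obtain ⟨x2, hx2, -, hx2l⟩ := ext_long2 hT ho.2 (hl.symm.mul_ne_one2 z r') (M + 1)
  obtain ⟨d0, hd0⟩ := exists_head y.2 (by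
    rcases Nat.eq_zero_or_pos y.2.length with h0 | h0
    · exact absurd (FreeMonoid.length_eq_zero.mp h0) hy
    · exact h0)
  have hMl := hM p' r' hl'
  -- the reference solution
  obtain ⟨x, e0, hx, he0, hde, hxz⟩ : ∃ (x : FreeMonoid C × FreeMonoid C') (e0 : C'),
      z * x ∈ KS T ∧ of e0 ∣ x.2 ∧ d0 ≠ e0 ∧ ∀ w, zeta h p' r' ∣ h (x.2 * w) := by
    obtain ⟨-, -, a', b', hab', ha', hb'⟩ := id hl'
    by_cases hda : d0 = a'
    · refine ⟨(r, r') * x2, b', ?_, ?_, by rw [hda]; exact hab', ?_⟩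
      · rw [← mul_assoc]; exact hx2
      · exact hb'.trans (Dvd.intro _ rfl)
      · intro w
        rw [Prod.snd_mul, mul_assoc]
        exact Div_left (Div_symm (zeta_spec hh hl')) _
          (long_image hh.1 (by rw [FreeMonoid.length_mul]; omega))
    · refine ⟨(p, p') * x1, a', ?_, ?_, hda, ?_⟩
      · rw [← mul_assoc]; exact hx1
      · exact ha'.trans (Dvd.intro _ rfl)
      · intro w
        rw [Prod.snd_mul, mul_assoc]
        exact Div_left (zeta_spec hh hl') _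
          (long_image hh.1 (by rw [FreeMonoid.length_mul]; omega))
  have hdD : z.2 * of d0 ∣ (z * y).2 := by
    rw [Prod.snd_mul]; exact mul_dvd_mul_left _ hd0
  have hdX : z.2 * of e0 ∣ (z * x).2 := by
    rw [Prod.snd_mul]; exact mul_dvd_mul_left _ he0
  obtain ⟨N, s1, d1, e1, d', e', hN0, hN1, hlab1, hlab', k1, k2, k3, k4⟩ :=
    pair_label hT hD hx hde hdD hdX (M + k + z.2.length + 3)
  obtain ⟨n, rfl⟩ : ∃ n, N = n + 1 := ⟨N - 1, by omega⟩
  have hDN : (z * y) ^ (n + 1) = z * (y * (z * y) ^ n) := by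
    rw [pow_succ', mul_assoc]
  have hXN : (z * x) ^ (n + 1) = z * (x * (z * x) ^ n) := by
    rw [pow_succ', mul_assoc]
  have hDmem := pow_mem_KS hD (n + 1)
  have hXmem := pow_mem_KS hx (n + 1)
  have hocc1 : Occ2 T (s1, z.2) d1 d' e1 e' :=
    ⟨PreK_of_mem hDmem k1 k2, PreK_of_mem hXmem k3 k4⟩
  -- `z.1` is a prefix of `s1`
  have hzs1 : z.1 ∣ s1 := by
    have u1 : z.1 ∣ ((z * y) ^ (n + 1)).1 := by rw [hDN]; exact Dvd.intro _ rfl
    have u2 : z.1 ∣ ((z * x) ^ (n + 1)).1 := by rw [hXN]; exact Dvd.intro _ rfl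
    obtain ⟨-, -, c1, c2, hc, hc1, hc2⟩ := id hlab1
    have v1 : s1 * of c1 ∣ ((z * y) ^ (n + 1)).1 := (mul_dvd_mul_left s1 hc1).trans k1
    have v2 : s1 * of c2 ∣ ((z * x) ^ (n + 1)).1 := (mul_dvd_mul_left s1 hc2).trans k3
    exact dvd_of_dvd_of_le u1 ((Dvd.intro _ rfl).trans v1) (le_of_common hc u1 u2 v1 v2)
  obtain ⟨s', rfl⟩ := hzs1
  obtain ⟨s4, t4, h4, h4l⟩ := hlab _ _ _ _ _ hlab1 hlab' hocc1
  obtain ⟨s3, t3, h3, h3l⟩ := hlab _ _ _ _ _ hl hl' ho
  obtain ⟨y1, hy1⟩ := (Dvd.intro _ rfl : z.1 * s' ∣ z.1 * s' * d1).trans k1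
  rw [mul_assoc] at hy1
  have hlenD : n + 1 ≤ ((z * y) ^ (n + 1)).2.length := pow_snd_length (by
    intro h0
    have := congrArg FreeMonoid.length h0
    rw [Prod.snd_mul, FreeMonoid.length_mul, FreeMonoid.length_one] at this
    exact hy (FreeMonoid.length_eq_zero.mp (by omega))) _
  have hlenX : n + 1 ≤ ((z * x) ^ (n + 1)).2.length := pow_snd_length (by
    intro h0
    have := length_le_of_dvd he0
    have h1 := congrArg FreeMonoid.length h0
    rw [Prod.snd_mul, FreeMonoid.length_mul, FreeMonoid.length_one] at h1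
    rw [FreeMonoid.length_of] at this
    omega) _
  have hM4 := hM d' e' hlab'
  rw [hDN] at k2 hlenD
  rw [hXN] at k4 hlenX
  rw [Prod.snd_mul] at k2 k4 hlenD hlenX
  rw [FreeMonoid.length_mul] at hlenD hlenX
  obtain ⟨w, hw⟩ := dvd_of_mul_dvd_mul k2
  obtain ⟨w', hw'⟩ := dvd_of_mul_dvd_mul k4
  have hwl : (zeta h d' e').length < w.length := by
    have := congrArg FreeMonoid.length hw
    rw [FreeMonoid.length_mul, hlab'.1] at this
    omega
  have hwl' : (zeta h d' e').length < w'.length := by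
    have := congrArg FreeMonoid.length hw'
    rw [FreeMonoid.length_mul, hlab'.2.1] at this
    omega
  refine loc_auxK (y1 := y1) (y2 := (y * (z * y) ^ n).2) (x := h (x * (z * x) ^ n).2) ?_ h3 h3l h4
    h4l ?_ ?_ ?_ hle
  · rw [← hy1]
    have e5 : g ((z * y) ^ (n + 1)).1 = h ((z * y) ^ (n + 1)).2 := by
      rw [Prod.pow_fst, Prod.pow_snd, map_pow, map_pow, hDq]
    rw [e5, hDN, Prod.snd_mul]
  · rw [hw]; exact Div_left (zeta_spec hh hlab') _ (long_image hh.1 hwl)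
  · rw [hw']; exact Div_left (Div_symm (zeta_spec hh hlab')) _ (long_image hh.1 hwl')
  · rw [Prod.snd_mul]; exact hxz _

/-- Exchanging the two tapes. -/
def swp (T : Set (PPair C C' B)) : Set (PPair C' C B) := {q | (q.2, q.1) ∈ T}

theorem mem_KS_swp {T : Set (PPair C C' B)} {x : FreeMonoid C' × FreeMonoid C} :
    x ∈ KS (swp T) ↔ (x.2, x.1) ∈ KS T :=
  ⟨fun h q hq => (h (q.2, q.1) hq).symm, fun h q hq => (h (q.2, q.1) hq).symm⟩

theorem PreK_swp {T : Set (PPair C C' B)} {x : FreeMonoid C' × FreeMonoid C} :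
    PreK (swp T) x ↔ PreK T (x.2, x.1) := by
  constructor
  · rintro ⟨y, hy⟩
    exact ⟨(y.2, y.1), mem_KS_swp.1 hy⟩
  · rintro ⟨y, hy⟩
    exact ⟨(y.2, y.1), mem_KS_swp.2 hy⟩

theorem Adm_swp {k : ℕ} {T : Set (PPair C C' B)} (hT : Adm k T) : Adm k (swp T) := by
  obtain ⟨⟨q, hq⟩, h⟩ := hT
  exact ⟨⟨(q.2, q.1), hq⟩, fun r hr => ⟨(h _ hr).2, (h _ hr).1⟩⟩

theorem Occ2_swp {T : Set (PPair C C' B)} {z : FreeMonoid C' × FreeMonoid C} {p r : FreeMonoid C'}
    {p' r' : FreeMonoid C} : Occ2 (swp T) z p p' r r' ↔ Occ2 T (z.2, z.1) p' p r' r :=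
  and_congr PreK_swp PreK_swp

section

variable [Fintype C] [Fintype C']

/-- Differences of Parikh vectors of points with a common label. -/
def Uspan2 (k : ℕ) (T : Set (PPair C C' B)) : Submodule ℚ ((C → ℚ) × (C' → ℚ)) :=
  Submodule.span ℚ {v | ∃ p p' r r' z z', Lab k p r ∧ Lab k p' r' ∧ Occ2 T z p p' r r' ∧
    Occ2 T z' p p' r r' ∧ v = (par z.1 - par z'.1, par z.2 - par z'.2)}

/-- The labels that occur. -/
def Br2 (k : ℕ) (T : Set (PPair C C' B)) :
    Set ((FreeMonoid C × FreeMonoid C') × (FreeMonoid C × FreeMonoid C')) :=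
  {q | Lab k q.1.1 q.2.1 ∧ Lab k q.1.2 q.2.2 ∧ ∃ z, Occ2 T z q.1.1 q.1.2 q.2.1 q.2.2}

omit [Fintype C] [Fintype C'] in
theorem Uspan2_mono (k : ℕ) {T T' : Set (PPair C C' B)} (h : T ⊆ T') :
    Uspan2 k T' ≤ Uspan2 k T := by
  apply Submodule.span_mono
  rintro v ⟨p, p', r, r', z, z', h1, h2, h3, h4, h5⟩
  exact ⟨p, p', r, r', z, z', h1, h2, Occ2_mono h h3, Occ2_mono h h4, h5⟩

omit [Fintype C] [Fintype C'] in
theorem Br2_mono (k : ℕ) {T T' : Set (PPair C C' B)} (h : T ⊆ T') : Br2 k T' ⊆ Br2 k T := by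
  rintro q ⟨h1, h2, z, h3⟩
  exact ⟨h1, h2, z, Occ2_mono h h3⟩

theorem Br2_finite (k : ℕ) (T : Set (PPair C C' B)) : (Br2 k T).Finite := by
  have h1 : {u : FreeMonoid C | u.length = k + 1}.Finite := List.finite_length_eq C (k + 1)
  have h2 : {u : FreeMonoid C' | u.length = k + 1}.Finite := List.finite_length_eq C' (k + 1)
  refine ((h1.prod h2).prod (h1.prod h2)).subset ?_
  rintro ⟨⟨p, p'⟩, ⟨r, r'⟩⟩ ⟨hl, hl', -⟩
  exact ⟨⟨hl.1, hl'.1⟩, ⟨hl.2.1, hl'.2.1⟩⟩

theorem lenF_Uspan2 {k : ℕ} {T : Set (PPair C C' B)} (hT : Adm k T) {q : PPair C C' B}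
    (hq : q ∈ T) {v : (C → ℚ) × (C' → ℚ)} (hv : v ∈ Uspan2 k T) :
    lenF q.1 v.1 = lenF q.2 v.2 := by
  unfold Uspan2 at hv
  induction hv using Submodule.span_induction with
  | mem x hx =>
    obtain ⟨p, p', r, r', z, z', h1, h2, ho, ho', rfl⟩ := hx
    have e1 := congrArg FreeMonoid.length (key2 hT hq h1 h2 ho)
    have e2 := congrArg FreeMonoid.length (key2 hT hq h1 h2 ho')
    rw [FreeMonoid.length_mul, FreeMonoid.length_mul] at e1 e2
    simp only
    rw [map_sub, map_sub, lenF_par, lenF_par, lenF_par, lenF_par]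
    have e1' : ((q.1 z.1).length : ℚ) + (zeta q.1 p r).length =
      (q.2 z.2).length + (zeta q.2 p' r').length := by exact_mod_cast e1
    have e2' : ((q.1 z'.1).length : ℚ) + (zeta q.1 p r).length =
      (q.2 z'.2).length + (zeta q.2 p' r').length := by exact_mod_cast e2
    linarith
  | zero => simp
  | add x y _ _ hx hy => rw [Prod.fst_add, Prod.snd_add, map_add, map_add, hx, hy]
  | smul c x _ hx => rw [Prod.smul_fst, Prod.smul_snd, map_smul, map_smul, hx]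

theorem length_eq_of_U2 {k : ℕ} {T T2 : Set (PPair C C' B)} (hT2 : Adm k T2)
    {q : PPair C C' B} (hq : q ∈ T2) (hU : Uspan2 k T2 = Uspan2 k T)
    {z z' : FreeMonoid C × FreeMonoid C'} {p r : FreeMonoid C} {p' r' : FreeMonoid C'}
    (hl : Lab k p r) (hl' : Lab k p' r') (ho : Occ2 T z p p' r r')
    (ho' : Occ2 T z' p p' r r') :
    (q.1 z.1).length + (q.2 z'.2).length = (q.1 z'.1).length + (q.2 z.2).length := by
  have hv : (par z.1 - par z'.1, par z.2 - par z'.2) ∈ Uspan2 k T2 := by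
    rw [hU]
    exact Submodule.subset_span ⟨p, p', r, r', z, z', hl, hl', ho, ho', rfl⟩
  have := lenF_Uspan2 hT2 hq hv
  simp only at this
  rw [map_sub, map_sub, lenF_par, lenF_par, lenF_par, lenF_par] at this
  have h3 : (((q.1 z.1).length + (q.2 z'.2).length : ℕ) : ℚ) =
      (((q.1 z'.1).length + (q.2 z.2).length : ℕ) : ℚ) := by
    push_cast; linarith
  exact_mod_cast h3

/-- Step A: branching points on a path of the smaller set. -/
theorem stepA2 {k : ℕ} {T T2 : Set (PPair C C' B)} (hTT2 : T ⊆ T2) (hT : Adm k T)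
    (hT2 : Adm k T2) {q : PPair C C' B} (hq : q ∈ T2) (hBr : Br2 k T2 = Br2 k T)
    (hU : Uspan2 k T2 = Uspan2 k T) {z : FreeMonoid C × FreeMonoid C'} {p r : FreeMonoid C}
    {p' r' : FreeMonoid C'} (hl : Lab k p r) (hl' : Lab k p' r')
    (hne : ∃ x ∈ KS T2, x ≠ 1) (hz : PreK T2 z) (ho : Occ2 T z p p' r r') :
    q.1 z.1 * zeta q.1 p r = q.2 z.2 * zeta q.2 p' r' := by
  obtain ⟨y, hy, hyl1, hyl2⟩ := long_of_nontriv hT2 hne hz 1
  have hy1 : y.1 ≠ 1 := by
    intro h0; rw [h0, FreeMonoid.length_one] at hyl1; omega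
  have hy2 : y.2 ≠ 1 := by
    intro h0; rw [h0, FreeMonoid.length_one] at hyl2; omega
  have hlab : ∀ (z1 : FreeMonoid C × FreeMonoid C') (p r : FreeMonoid C) (p' r' : FreeMonoid C'),
      Lab k p r → Lab k p' r' → Occ2 T z1 p p' r r' → ∃ s4 t4,
        q.1 s4 * zeta q.1 p r = q.2 t4 * zeta q.2 p' r' ∧
        (q.1 z1.1).length + (q.2 t4).length = (q.1 s4).length + (q.2 z1.2).length := by
    intro z1 p r p' r' h1 h2 hocc
    have : ((p, p'), (r, r')) ∈ Br2 k T := ⟨h1, h2, z1, hocc⟩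
    rw [← hBr] at this
    obtain ⟨-, -, z4, hz4⟩ := this
    exact ⟨z4.1, z4.2, key2 hT2 hq h1 h2 hz4,
      length_eq_of_U2 hT2 hq hU h1 h2 hocc (Occ2_mono hTT2 hz4)⟩
  rcases le_total (q.2 z.2).length (q.1 z.1).length with hle | hle
  · exact stepA_half hT (hT2.ud q hq).2 hlab hl hl' ho (KS_mono hTT2 hy) (hy q hq) hy2 hle
  · refine (stepA_half (T := swp T) (g := q.2) (h := q.1) (z := (z.2, z.1)) (y := (y.2, y.1))
      (Adm_swp hT) (hT2.ud q hq).1 ?_ hl' hl (Occ2_swp.2 ho) (mem_KS_swp.2 (KS_mono hTT2 hy))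
      (hy q hq).symm hy1 hle).symm
    intro z1 p r p' r' h1 h2 hocc
    obtain ⟨s4, t4, h4, h4l⟩ := hlab (z1.2, z1.1) p' r' p r h2 h1 (Occ2_swp.1 hocc)
    exact ⟨t4, s4, h4.symm, by simp only at h4l; omega⟩

end

end Pool.Agent.H80.EQ
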