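import Pool.Agent.H80.EQ.TT2

set_option autoImplicit false

namespace Pool.Agent.H80.EQ

open FreeMonoid

variable {C C' B : Type}

/-- A third solution leaving the first tape before the branching point. -/
theorem leave_half {k : ℕ} {g : FreeMonoid C →* FreeMonoid B} {h : FreeMonoid C' →* FreeMonoid B}
    (hg : UD k g) {M : ℕ} (hM : ∀ p r, Lab k p r → (zeta g p r).length ≤ M)
    {s u1 uD : FreeMonoid C} {t v1 v2 vD : FreeMonoid C'} {a' b' : C'}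
    (e1 : g u1 = h v1) (eD : g uD = h vD) (hs : s ∣ u1)
    (l1 : s.length + M + (k + 1) ≤ u1.length) (lD : s.length + M + (k + 1) ≤ uD.length)
    (ha' : t * of a' ∣ v1) (hb' : t * of b' ∣ v2) (hab' : a' ≠ b') (hnd : ¬ s ∣ uD) :
    ∃ (s1 : FreeMonoid C) (t1 : FreeMonoid C') (α β : C) (α' β' : C'), α ≠ β ∧ α' ≠ β' ∧
      s1 * of α ∣ s ∧ s1 * of β ∣ uD ∧ t1 ∣ t ∧ t1 * of β' ∣ vD ∧
      ((t1 * of α' ∣ v1) ∨ (t1 * of α' ∣ v2 ∧ t1 = t)) := by
  obtain ⟨s1, α, β, hαβ, hα, hβ⟩ := diverge_of_le hnd (by omega)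
  have hsl := length_le_of_dvd hα
  rw [FreeMonoid.length_mul, FreeMonoid.length_of] at hsl
  obtain ⟨p, r, hl, -, -, hp, hr⟩ := windows (k := k) hαβ (hα.trans hs) hβ (by omega) (by omega)
  obtain ⟨c, d, hζ⟩ := divAt_of_UD hg hl
  have hMl := hM p r hl
  obtain ⟨t1, α', β', hαβ', hα', hβ'⟩ := div_other hζ e1 eD hp hr (by omega) (by omega)
  have ht1 : t1 ∣ v1 := (Dvd.intro _ rfl).trans hα'
  have ht : t ∣ v1 := (Dvd.intro _ rfl).trans ha'
  rcases Nat.lt_or_ge t.length t1.length with hlt | hge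
  · have hta : t * of a' ∣ t1 := dvd_of_dvd_of_le ha' ht1 (by
      rw [FreeMonoid.length_mul, FreeMonoid.length_of]; omega)
    exact ⟨s1, t, α, β, b', a', hαβ, Ne.symm hab', hα, hβ, dvd_refl t,
      hta.trans ((Dvd.intro _ rfl).trans hβ'), Or.inr ⟨hb', rfl⟩⟩
  · exact ⟨s1, t1, α, β, α', β', hαβ, hαβ', hα, hβ, dvd_of_dvd_of_le ht1 ht hge, hβ',
      Or.inl hα'⟩

/-- A long solution which does not pass through a branching point leaves at an earlier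
branching point. -/
theorem leave {k : ℕ} {T : Set (PPair C C' B)} (hT : Adm k T) {q : PPair C C' B} (hq : q ∈ T)
    {M : ℕ} (hM1 : ∀ p r, Lab k p r → (zeta q.1 p r).length ≤ M)
    (hM2 : ∀ p r, Lab k p r → (zeta q.2 p r).length ≤ M)
    {z X Y D : FreeMonoid C × FreeMonoid C'} (hX : X ∈ KS T) (hY : Y ∈ KS T) (hD : D ∈ KS T)
    {a b : C} {a' b' : C'} (hab : a ≠ b) (hab' : a' ≠ b') (hXa : z.1 * of a ∣ X.1)
    (hXa' : z.2 * of a' ∣ X.2) (hYb : z.1 * of b ∣ Y.1) (hYb' : z.2 * of b' ∣ Y.2)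
    (lX1 : z.1.length + M + (k + 1) ≤ X.1.length) (lX2 : z.2.length + M + (k + 1) ≤ X.2.length)
    (lY1 : z.1.length + M + (k + 1) ≤ Y.1.length) (lY2 : z.2.length + M + (k + 1) ≤ Y.2.length)
    (lD1 : z.1.length + M + (k + 1) ≤ D.1.length) (lD2 : z.2.length + M + (k + 1) ≤ D.2.length)
    {w : FreeMonoid C × FreeMonoid C'} (hw1 : w.1 ∣ X.1) (hw1' : w.1 ∣ D.1) (hw2 : w.2 ∣ X.2)
    (hw2' : w.2 ∣ D.2) (hnd : ¬ (z.1 ∣ D.1 ∧ z.2 ∣ D.2)) :
    ∃ (z1 : FreeMonoid C × FreeMonoid C') (p r : FreeMonoid C) (p' r' : FreeMonoid C'),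
      Lab k p r ∧ Lab k p' r' ∧ z1.1 ∣ z.1 ∧ z1.2 ∣ z.2 ∧
      z1.1.length + z1.2.length < z.1.length + z.2.length ∧
      ((z1.1 * p ∣ X.1 ∧ z1.2 * p' ∣ X.2) ∨ (z1.1 * p ∣ Y.1 ∧ z1.2 * p' ∣ Y.2)) ∧
      Occ2 T z1 p p' r r' ∧ (w.1.length ≤ z1.1.length ∨ z1.1 = z.1) ∧
      (w.2.length ≤ z1.2.length ∨ z1.2 = z.2) ∧
      (w.1.length ≤ z1.1.length ∨ w.2.length ≤ z1.2.length) := by
  have hzX1 : z.1 ∣ X.1 := (Dvd.intro _ rfl).trans hXa
  have hzX2 : z.2 ∣ X.2 := (Dvd.intro _ rfl).trans hXa'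
  have hzY1 : z.1 ∣ Y.1 := (Dvd.intro _ rfl).trans hYb
  have hzY2 : z.2 ∣ Y.2 := (Dvd.intro _ rfl).trans hYb'
  by_cases h1 : z.1 ∣ D.1
  · have h2 : ¬ z.2 ∣ D.2 := fun h => hnd ⟨h1, h⟩
    obtain ⟨s1, t1, α, β, α', β', hαβ, hαβ', k1, k2, k3, k4, k5⟩ :=
      leave_half (hT.ud q hq).2 hM2 (hX q hq).symm (hD q hq).symm hzX2 lX2 lD2 hXa hYb hab h2
    have hl1 := length_le_of_dvd k1
    have hl3 := length_le_of_dvd k3
    rw [FreeMonoid.length_mul, FreeMonoid.length_of] at hl1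
    rcases k5 with k5 | ⟨k5, rfl⟩
    · obtain ⟨p, r, hl, -, -, hp, hr⟩ := windows (k := k) hαβ' k5 k4 (by omega) (by omega)
      obtain ⟨p', r', hl', -, -, hp', hr'⟩ := windows (k := k) hαβ (k1.trans hzX2) k2 (by omega)
        (by omega)
      exact ⟨(t1, s1), p, r, p', r', hl, hl', k3, (Dvd.intro _ rfl).trans k1, by
        simp only; omega, Or.inl ⟨hp, hp'⟩, ⟨PreK_of_mem hX hp hp', PreK_of_mem hD hr hr'⟩,
        Or.inl (le_of_common hαβ' hw1 hw1' k5 k4),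
        Or.inl (le_of_common hαβ hw2 hw2' (k1.trans hzX2) k2),
        Or.inl (le_of_common hαβ' hw1 hw1' k5 k4)⟩
    · obtain ⟨p, r, hl, -, -, hp, hr⟩ := windows (k := k) hαβ' k5 k4 (by omega) (by omega)
      obtain ⟨p', r', hl', -, -, hp', hr'⟩ := windows (k := k) hαβ (k1.trans hzY2) k2 (by omega)
        (by omega)
      exact ⟨(z.1, s1), p, r, p', r', hl, hl', k3, (Dvd.intro _ rfl).trans k1, by
        simp only; omega, Or.inr ⟨hp, hp'⟩, ⟨PreK_of_mem hY hp hp', PreK_of_mem hD hr hr'⟩,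
        Or.inr rfl, Or.inl (le_of_common hαβ hw2 hw2' (k1.trans hzX2) k2),
        Or.inr (le_of_common hαβ hw2 hw2' (k1.trans hzX2) k2)⟩
  · obtain ⟨s1, t1, α, β, α', β', hαβ, hαβ', k1, k2, k3, k4, k5⟩ :=
      leave_half (hT.ud q hq).1 hM1 (hX q hq) (hD q hq) hzX1 lX1 lD1 hXa' hYb' hab' h1
    have hl1 := length_le_of_dvd k1
    have hl3 := length_le_of_dvd k3
    rw [FreeMonoid.length_mul, FreeMonoid.length_of] at hl1
    rcases k5 with k5 | ⟨k5, rfl⟩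
    · obtain ⟨p', r', hl', -, -, hp', hr'⟩ := windows (k := k) hαβ' k5 k4 (by omega) (by omega)
      obtain ⟨p, r, hl, -, -, hp, hr⟩ := windows (k := k) hαβ (k1.trans hzX1) k2 (by omega)
        (by omega)
      exact ⟨(s1, t1), p, r, p', r', hl, hl', (Dvd.intro _ rfl).trans k1, k3, by
        simp only; omega, Or.inl ⟨hp, hp'⟩, ⟨PreK_of_mem hX hp hp', PreK_of_mem hD hr hr'⟩,
        Or.inl (le_of_common hαβ hw1 hw1' (k1.trans hzX1) k2),
        Or.inl (le_of_common hαβ' hw2 hw2' k5 k4),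
        Or.inl (le_of_common hαβ hw1 hw1' (k1.trans hzX1) k2)⟩
    · obtain ⟨p', r', hl', -, -, hp', hr'⟩ := windows (k := k) hαβ' k5 k4 (by omega) (by omega)
      obtain ⟨p, r, hl, -, -, hp, hr⟩ := windows (k := k) hαβ (k1.trans hzY1) k2 (by omega)
        (by omega)
      exact ⟨(s1, z.2), p, r, p', r', hl, hl', (Dvd.intro _ rfl).trans k1, k3, by
        simp only; omega, Or.inr ⟨hp, hp'⟩, ⟨PreK_of_mem hY hp hp', PreK_of_mem hD hr hr'⟩,
        Or.inl (le_of_common hαβ hw1 hw1' (k1.trans hzX1) k2), Or.inr rfl,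
        Or.inl (le_of_common hαβ hw1 hw1' (k1.trans hzX1) k2)⟩

section

variable [Fintype C] [Fintype C']

/-- Step B: all branching points. -/
theorem stepB2 {k : ℕ} {T T2 : Set (PPair C C' B)} (hTT2 : T ⊆ T2) (hT : Adm k T)
    (hT2 : Adm k T2) {q : PPair C C' B} (hq : q ∈ T2) (hBr : Br2 k T2 = Br2 k T)
    (hU : Uspan2 k T2 = Uspan2 k T) (hne : ∃ x ∈ KS T2, x ≠ 1) :
    ∀ (n : ℕ) (z : FreeMonoid C × FreeMonoid C'), z.1.length + z.2.length = n →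
      ∀ (p r : FreeMonoid C) (p' r' : FreeMonoid C'), Lab k p r → Lab k p' r' →
      Occ2 T z p p' r r' → q.1 z.1 * zeta q.1 p r = q.2 z.2 * zeta q.2 p' r' := by
  intro n
  induction n using Nat.strong_induction_on with
  | _ n ih =>
  intro z hzn p r p' r' hl hl' ho
  by_cases hz2 : PreK T2 z
  · exact stepA2 hTT2 hT hT2 hq hBr hU hl hl' hne hz2 ho
  obtain ⟨g, hg⟩ := hT.ne
  obtain ⟨M1, hM1⟩ := exists_zeta_bound k g.1
  obtain ⟨M2, hM2⟩ := exists_zeta_bound k g.2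
  set M := M1 + M2 with hMdef
  have hM1' : ∀ p r, Lab k p r → (zeta g.1 p r).length ≤ M := fun p r h =>
    (hM1 p r h).trans (by omega)
  have hM2' : ∀ p r, Lab k p r → (zeta g.2 p r).length ≤ M := fun p r h =>
    (hM2 p r h).trans (by omega)
  -- long solutions in the two directions
  obtain ⟨x, hx, hx1, hx2⟩ := ext_long2 hT ho.1 (hl.mul_ne_one2 z p') (M + (k + 1))
  obtain ⟨y, hy, hy1, hy2⟩ := ext_long2 hT ho.2 (hl.symm.mul_ne_one2 z r') (M + (k + 1))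
  set X := z * (p, p') * x with hX
  set Y := z * (r, r') * y with hY
  obtain ⟨-, -, a, b, hab, ha, hb⟩ := id hl
  obtain ⟨-, -, a', b', hab', ha', hb'⟩ := id hl'
  have dX1 : z.1 * of a ∣ X.1 := (mul_dvd_mul_left z.1 ha).trans (Dvd.intro _ rfl)
  have dX2 : z.2 * of a' ∣ X.2 := (mul_dvd_mul_left z.2 ha').trans (Dvd.intro _ rfl)
  have dY1 : z.1 * of b ∣ Y.1 := (mul_dvd_mul_left z.1 hb).trans (Dvd.intro _ rfl)
  have dY2 : z.2 * of b' ∣ Y.2 := (mul_dvd_mul_left z.2 hb').trans (Dvd.intro _ rfl)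
  have lX1 : z.1.length + M + (k + 1) ≤ X.1.length := by
    rw [hX]; simp only [Prod.fst_mul, FreeMonoid.length_mul]; omega
  have lX2 : z.2.length + M + (k + 1) ≤ X.2.length := by
    rw [hX]; simp only [Prod.snd_mul, FreeMonoid.length_mul]; omega
  have lY1 : z.1.length + M + (k + 1) ≤ Y.1.length := by
    rw [hY]; simp only [Prod.fst_mul, FreeMonoid.length_mul]; omega
  have lY2 : z.2.length + M + (k + 1) ≤ Y.2.length := by
    rw [hY]; simp only [Prod.snd_mul, FreeMonoid.length_mul]; omega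
  -- leaving, symmetric form
  have hleave : ∀ (Z : FreeMonoid C × FreeMonoid C'), (Z = X ∨ Z = Y) → ∀ D ∈ KS T,
      z.1.length + M + (k + 1) ≤ D.1.length → z.2.length + M + (k + 1) ≤ D.2.length →
      ∀ w : FreeMonoid C × FreeMonoid C', w.1 ∣ Z.1 → w.1 ∣ D.1 → w.2 ∣ Z.2 → w.2 ∣ D.2 →
      ¬ (z.1 ∣ D.1 ∧ z.2 ∣ D.2) →
      ∃ (z1 : FreeMonoid C × FreeMonoid C') (p r : FreeMonoid C) (p' r' : FreeMonoid C'),
      Lab k p r ∧ Lab k p' r' ∧ z1.1 ∣ z.1 ∧ z1.2 ∣ z.2 ∧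
      z1.1.length + z1.2.length < z.1.length + z.2.length ∧
      ((z1.1 * p ∣ X.1 ∧ z1.2 * p' ∣ X.2) ∨ (z1.1 * p ∣ Y.1 ∧ z1.2 * p' ∣ Y.2)) ∧
      Occ2 T z1 p p' r r' ∧ (w.1.length ≤ z1.1.length ∨ z1.1 = z.1) ∧
      (w.2.length ≤ z1.2.length ∨ z1.2 = z.2) ∧
      (w.1.length ≤ z1.1.length ∨ w.2.length ≤ z1.2.length) := by
    rintro Z hZ D hD lD1 lD2 w hw1 hw1' hw2 hw2' hnd
    rcases hZ with rfl | rfl
    · exact leave hT hg hM1' hM2' hx hy hD hab hab' dX1 dX2 dY1 dY2 lX1 lX2 lY1 lY2 lD1 lD2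
        hw1 hw1' hw2 hw2' hnd
    · obtain ⟨z1, p1, r1, p1', r1', q1, q2, q3, q4, q5, q6, q7⟩ := leave hT hg hM1' hM2' hy hx hD
        (Ne.symm hab) (Ne.symm hab') dY1 dY2 dX1 dX2 lY1 lY2 lX1 lX2 lD1 lD2
        hw1 hw1' hw2 hw2' hnd
      exact ⟨z1, p1, r1, p1', r1', q1, q2, q3, q4, q5, q6.symm, q7⟩
  let PP : ℕ → Prop := fun m => ∃ (z0 : FreeMonoid C × FreeMonoid C') (p0 r0 : FreeMonoid C)
    (p0' r0' : FreeMonoid C'), Lab k p0 r0 ∧ Lab k p0' r0' ∧ z0.1 ∣ z.1 ∧ z0.2 ∣ z.2 ∧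
      ((z0.1 * p0 ∣ X.1 ∧ z0.2 * p0' ∣ X.2) ∨ (z0.1 * p0 ∣ Y.1 ∧ z0.2 * p0' ∣ Y.2)) ∧
      Occ2 T z0 p0 p0' r0 r0' ∧ z0.1.length + z0.2.length = m ∧ m < n
  by_cases hex : ∃ m, PP m
  · classical
    have hbd : ∀ m, PP m → m ≤ n := by
      rintro m ⟨z0, p0, r0, p0', r0', -, -, -, -, -, -, -, h⟩
      exact h.le
    obtain ⟨m0, hm0⟩ := hex
    have hmax := Nat.findGreatest_spec (P := PP) (hbd m0 hm0) hm0
    set m := Nat.findGreatest PP n with hm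
    have hgr : ∀ m', PP m' → m' ≤ m := fun m' hm' => Nat.le_findGreatest (hbd m' hm') hm'
    obtain ⟨z0, p0, r0, p0', r0', hl0, hl0', hd1, hd2, hZ0, hocc, hz0m, hmn⟩ := hmax
    obtain ⟨Z, hZ, hZ1, hZ2⟩ : ∃ Z : FreeMonoid C × FreeMonoid C', (Z = X ∨ Z = Y) ∧
        z0.1 * p0 ∣ Z.1 ∧ z0.2 * p0' ∣ Z.2 := by
      rcases hZ0 with h | h
      · exact ⟨X, Or.inl rfl, h.1, h.2⟩
      · exact ⟨Y, Or.inr rfl, h.1, h.2⟩
    -- the label occurs for the larger set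
    obtain ⟨z2, hz2'⟩ : ∃ z2, Occ2 T2 z2 p0 p0' r0 r0' := by
      have : ((p0, p0'), (r0, r0')) ∈ Br2 k T := ⟨hl0, hl0', z0, hocc⟩
      rw [← hBr] at this
      exact this.2.2
    obtain ⟨y2, hy2, hy21, hy22⟩ := ext_long2 hT2 hz2'.1 (hl0.mul_ne_one2 z2 p0')
      (n + M + (k + 1))
    have hDT : z0 * ((p0, p0') * y2) ∈ KS T := by
      apply follow2 hT hl0 hl0' (Occ2_mono hTT2 hz2') hocc
      rw [← mul_assoc]
      exact KS_mono hTT2 hy2
    set D := z0 * ((p0, p0') * y2) with hD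
    have lD1 : z.1.length + M + (k + 1) ≤ D.1.length := by
      rw [hD]; simp only [Prod.fst_mul, FreeMonoid.length_mul]; omega
    have lD2 : z.2.length + M + (k + 1) ≤ D.2.length := by
      rw [hD]; simp only [Prod.snd_mul, FreeMonoid.length_mul]; omega
    have dD1 : z0.1 * p0 ∣ D.1 := by
      rw [hD]; simp only [Prod.fst_mul]
      rw [← mul_assoc]; exact Dvd.intro _ rfl
    have dD2 : z0.2 * p0' ∣ D.2 := by
      rw [hD]; simp only [Prod.snd_mul]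
      rw [← mul_assoc]; exact Dvd.intro _ rfl
    have hz01 := length_le_of_dvd hd1
    have hz02 := length_le_of_dvd hd2
    have hdvd : z.1 ∣ D.1 ∧ z.2 ∣ D.2 := by
      by_contra hcon
      obtain ⟨z1, p1, r1, p1', r1', hl1, hl1', k1, k2, k3, k4, k5, k6, k7, k8⟩ :=
        hleave Z hZ D hDT lD1 lD2 (z0.1 * p0, z0.2 * p0') hZ1 dD1 hZ2 dD2 hcon
      have hPP : PP (z1.1.length + z1.2.length) :=
        ⟨z1, p1, r1, p1', r1', hl1, hl1', k1, k2, k4, k5, rfl, by omega⟩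
      have hle := hgr _ hPP
      simp only [FreeMonoid.length_mul, hl0.1, hl0'.1] at k6 k7 k8
      have g1 : z0.1.length ≤ z1.1.length := by
        rcases k6 with h | h
        · omega
        · rw [h]; exact hz01
      have g2 : z0.2.length ≤ z1.2.length := by
        rcases k7 with h | h
        · omega
        · rw [h]; exact hz02
      omega
    -- split `z`
    obtain ⟨w1, hw1⟩ := hd1
    obtain ⟨w2, hw2⟩ := hd2
    have hzw : z0 * (w1, w2) = z := Prod.ext hw1.symm hw2.symm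
    have r1 : w1 ∣ ((p0, p0') * y2 : FreeMonoid C × FreeMonoid C').1 := by
      have := hdvd.1
      rw [hw1, hD, Prod.fst_mul] at this
      exact dvd_of_mul_dvd_mul this
    have r2 : w2 ∣ ((p0, p0') * y2 : FreeMonoid C × FreeMonoid C').2 := by
      have := hdvd.2
      rw [hw2, hD, Prod.snd_mul] at this
      exact dvd_of_mul_dvd_mul this
    have hz2w : PreK T2 (z2 * (w1, w2)) := by
      apply PreK_of_mem (x := z2 * (p0, p0') * y2) hy2
      · rw [mul_assoc, Prod.fst_mul, Prod.fst_mul]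
        exact mul_dvd_mul_left _ r1
      · rw [mul_assoc, Prod.snd_mul, Prod.snd_mul]
        exact mul_dvd_mul_left _ r2
    have hocc2 : Occ2 T (z2 * (w1, w2)) p p' r r' := by
      constructor
      · rw [mul_assoc]
        apply follow_pre2 hT hl0 hl0' hocc (Occ2_mono hTT2 hz2')
        rw [← mul_assoc, hzw]; exact ho.1
      · rw [mul_assoc]
        apply follow_pre2 hT hl0 hl0' hocc (Occ2_mono hTT2 hz2')
        rw [← mul_assoc, hzw]; exact ho.2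
    have hA := stepA2 hTT2 hT hT2 hq hBr hU hl hl' hne hz2w hocc2
    have hB := ih m hmn z0 hz0m p0 r0 p0' r0' hl0 hl0' hocc
    have hC := key2 hT2 hq hl0 hl0' hz2'
    rw [Prod.fst_mul, Prod.snd_mul, map_mul, map_mul, mul_assoc, mul_assoc] at hA
    have := transfer hC hB hA
    rw [hw1, hw2, map_mul, map_mul, mul_assoc, mul_assoc]
    exact this
  · exfalso
    apply hz2
    obtain ⟨x', hx', hxl1, hxl2⟩ := long_of_nontriv hT2 hne ⟨1, by
      rw [mul_one]; exact one_mem_KS T2⟩ (n + M + (k + 1))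
    rw [one_mul] at hx'
    have hdvd : z.1 ∣ x'.1 ∧ z.2 ∣ x'.2 := by
      by_contra hcon
      obtain ⟨z1, p1, r1, p1', r1', hl1, hl1', k1, k2, k3, k4, k5, -⟩ :=
        hleave X (Or.inl rfl) x' (KS_mono hTT2 hx') (by omega) (by omega) 1 (one_dvd _) (one_dvd _)
          (one_dvd _) (one_dvd _) hcon
      exact hex ⟨z1.1.length + z1.2.length, z1, p1, r1, p1', r1', hl1, hl1', k1, k2, k4, k5, rfl,
        by omega⟩
    exact PreK_of_mem hx' hdvd.1 hdvd.2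

/-- The step: if the data do not change, the intersection does not change. -/
theorem stable_step2 {k : ℕ} {T T2 : Set (PPair C C' B)} (hTT2 : T ⊆ T2) (hT : Adm k T)
    (hT2 : Adm k T2) {q : PPair C C' B} (hq : q ∈ T2) (hBr : Br2 k T2 = Br2 k T)
    (hU : Uspan2 k T2 = Uspan2 k T) (hne : ∃ x ∈ KS T2, x ≠ 1) (hbr : (Br2 k T).Nonempty)
    {x : FreeMonoid C × FreeMonoid C'} (hx : x ∈ KS T) : q.1 x.1 = q.2 x.2 := by
  obtain ⟨⟨⟨p, p'⟩, ⟨r, r'⟩⟩, hl, hl', z, ho⟩ := hbr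
  simp only at hl hl' ho
  have e1 := stepB2 hTT2 hT hT2 hq hBr hU hne _ z rfl p r p' r' hl hl' ho
  have ho2 : Occ2 T (x * z) p p' r r' := by
    obtain ⟨⟨y, hy⟩, ⟨y', hy'⟩⟩ := ho
    refine ⟨⟨y, ?_⟩, ⟨y', ?_⟩⟩
    · have := mul_mem_KS hx hy
      simpa only [mul_assoc] using this
    · have := mul_mem_KS hx hy'
      simpa only [mul_assoc] using this
  have e2 := stepB2 hTT2 hT hT2 hq hBr hU hne _ (x * z) rfl p r p' r' hl hl' ho2
  rw [Prod.fst_mul, Prod.snd_mul, map_mul, map_mul, mul_assoc, mul_assoc, e1] at e2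
  exact mul_right_cancel e2

end

end Pool.Agent.H80.EQ
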