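import Pool.Agent.H80.EQ.TT3

set_option autoImplicit false

namespace Pool.Agent.H80.EQ

open FreeMonoid

variable {C C' B : Type}

theorem root_aux {r q : PPair C C' B} {x y : FreeMonoid C × FreeMonoid C'}
    (c1 : x.1 * y.1 = y.1 * x.1) (c2 : x.2 * y.2 = y.2 * x.2) (rx : r.1 x.1 = r.2 x.2)
    (ry : r.1 y.1 = r.2 y.2) (hy1 : y.1 ≠ 1) (hy2 : y.2 ≠ 1) (hr : r.1 y.1 ≠ 1)
    (hq : q.1 y.1 = q.2 y.2) : q.1 x.1 = q.2 x.2 := by
  have hn : y.1.length ≠ 0 := fun h => hy1 (FreeMonoid.length_eq_zero.mp h)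
  have hn' : y.2.length ≠ 0 := fun h => hy2 (FreeMonoid.length_eq_zero.mp h)
  have hb : (r.1 y.1).length ≠ 0 := fun h => hr (FreeMonoid.length_eq_zero.mp h)
  have p1 : x.1 ^ y.1.length = y.1 ^ x.1.length :=
    eq_of_commute_of_length (((show Commute x.1 y.1 from c1).pow_pow _ _).eq)
      (by rw [length_pow', length_pow', mul_comm])
  have p2 : x.2 ^ y.2.length = y.2 ^ x.2.length :=
    eq_of_commute_of_length (((show Commute x.2 y.2 from c2).pow_pow _ _).eq)
      (by rw [length_pow', length_pow', mul_comm])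
  have l1 := congrArg (fun w => (r.1 w).length) p1
  have l2 := congrArg (fun w => (r.2 w).length) p2
  simp only [map_pow, length_pow'] at l1 l2
  rw [← rx, ← ry] at l2
  have hmn : x.1.length * y.2.length = x.2.length * y.1.length := by
    apply Nat.eq_of_mul_eq_mul_right (Nat.pos_of_ne_zero hb)
    calc x.1.length * y.2.length * (r.1 y.1).length
        = y.2.length * (x.1.length * (r.1 y.1).length) := by ring
      _ = y.2.length * (y.1.length * (r.1 x.1).length) := by rw [l1]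
      _ = y.1.length * (y.2.length * (r.1 x.1).length) := by ring
      _ = y.1.length * (x.2.length * (r.1 y.1).length) := by rw [l2]
      _ = x.2.length * y.1.length * (r.1 y.1).length := by ring
  apply pow_left_cancel (n := y.1.length * y.2.length) (mul_ne_zero hn hn')
  have e1 : q.1 x.1 ^ (y.1.length * y.2.length) = q.1 y.1 ^ (x.1.length * y.2.length) := by
    rw [pow_mul, ← map_pow, p1, map_pow, ← pow_mul]
  have e2 : q.2 x.2 ^ (y.1.length * y.2.length) = q.2 y.2 ^ (x.2.length * y.1.length) := by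
    rw [mul_comm, pow_mul, ← map_pow, p2, map_pow, ← pow_mul]
  rw [e1, e2, hmn, hq]

section

variable [Fintype C] [Fintype C']

omit [Fintype C'] in
/-- Half of the commutation argument. -/
theorem comm_half {k : ℕ} {T : Set (PPair C C' B)} (hT : Adm k T)
    (h : ∀ (z : FreeMonoid C × FreeMonoid C') (p r : FreeMonoid C) (p' r' : FreeMonoid C'),
      Lab k p r → Lab k p' r' → ¬ Occ2 T z p p' r r')
    {x y : FreeMonoid C × FreeMonoid C'} (hx : x ∈ KS T) (hy : y ∈ KS T) :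
    x.1 * y.1 = y.1 * x.1 := by
  by_contra hne
  obtain ⟨q, hq⟩ := hT.ne
  obtain ⟨M, hM⟩ := exists_zeta_bound k q.1
  have hx1 : x ≠ 1 := by
    rintro rfl
    simp at hne
  obtain ⟨w, hw, hw1, hw2⟩ := long_of_nontriv hT ⟨x, hx, hx1⟩ (z := 1) ⟨1, by
    rw [mul_one]; exact one_mem_KS T⟩ (M + (k + 1))
  rw [one_mul] at hw
  have hxy := mul_mem_KS hx hy
  have hyx := mul_mem_KS hy hx
  have hxyw := mul_mem_KS hxy hw
  have hyxw := mul_mem_KS hyx hw
  have hl : (x.1 * y.1).length = (y.1 * x.1).length := by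
    rw [FreeMonoid.length_mul, FreeMonoid.length_mul]; omega
  obtain ⟨s, a, b, hab, ha, hb⟩ := diverge_of_le
    (fun hd => hne (eq_of_dvd_of_length hd hl)) hl.le
  have hsl := length_le_of_dvd ha
  simp only [FreeMonoid.length_mul, FreeMonoid.length_of] at hsl
  have ha' : s * of a ∣ (x * y * w).1 := ha.trans (Dvd.intro _ rfl)
  have hb' : s * of b ∣ (y * x * w).1 := hb.trans (Dvd.intro _ rfl)
  obtain ⟨p, r, hlab, -, -, hp, hr⟩ := windows (k := k) hab ha' hb'
    (by simp only [Prod.fst_mul, FreeMonoid.length_mul]; omega)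
    (by simp only [Prod.fst_mul, FreeMonoid.length_mul]; omega)
  obtain ⟨c, d, hζ⟩ := divAt_of_UD (hT.ud q hq).1 hlab
  have z1 := hM p r hlab
  obtain ⟨t, a', b', hab', hta, htb⟩ := div_other hζ (hxyw q hq) (hyxw q hq) hp hr
    (by simp only [Prod.fst_mul, FreeMonoid.length_mul]; omega)
    (by simp only [Prod.fst_mul, FreeMonoid.length_mul]; omega)
  -- extend once more to see the windows on the second tape
  have hw21 : w ≠ 1 := by
    rintro rfl
    simp only [Prod.fst_one, FreeMonoid.length_one] at hw1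
    omega
  obtain ⟨v, hv, hv1, hv2⟩ := long_of_nontriv hT ⟨w, hw, hw21⟩ (z := 1) ⟨1, by
    rw [mul_one]; exact one_mem_KS T⟩ (k + 1)
  rw [one_mul] at hv
  have htl := length_le_of_dvd hta
  have htl' := length_le_of_dvd htb
  rw [FreeMonoid.length_mul, FreeMonoid.length_of] at htl htl'
  obtain ⟨p', r', hlab', -, -, hp', hr'⟩ := windows (k := k) (u1 := (x * y * w * v).2)
    (u2 := (y * x * w * v).2) hab' (hta.trans (Dvd.intro _ rfl)) (htb.trans (Dvd.intro _ rfl))
    (by rw [Prod.snd_mul, FreeMonoid.length_mul]; omega)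
    (by rw [Prod.snd_mul, FreeMonoid.length_mul]; omega)
  exact h (s, t) p r p' r' hlab hlab'
    ⟨PreK_of_mem (mul_mem_KS hxyw hv) (hp.trans (Dvd.intro _ rfl)) hp',
      PreK_of_mem (mul_mem_KS hyxw hv) (hr.trans (Dvd.intro _ rfl)) hr'⟩

theorem comm_of_no_branching2 {k : ℕ} {T : Set (PPair C C' B)} (hT : Adm k T)
    (h : Br2 k T = ∅) {x y : FreeMonoid C × FreeMonoid C'} (hx : x ∈ KS T) (hy : y ∈ KS T) :
    x.1 * y.1 = y.1 * x.1 ∧ x.2 * y.2 = y.2 * x.2 := by
  have h' : ∀ (z : FreeMonoid C × FreeMonoid C') (p r : FreeMonoid C) (p' r' : FreeMonoid C'),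
      Lab k p r → Lab k p' r' → ¬ Occ2 T z p p' r r' := by
    intro z p r p' r' hl hl' ho
    have : ((p, p'), (r, r')) ∈ Br2 k T := ⟨hl, hl', z, ho⟩
    rw [h] at this
    exact this
  refine ⟨comm_half hT h' hx hy, ?_⟩
  exact comm_half (T := swp T) (x := (x.2, x.1)) (y := (y.2, y.1)) (Adm_swp hT)
    (fun z p r p' r' hl hl' ho => h' _ _ _ _ _ hl' hl (Occ2_swp.1 ho)) (mem_KS_swp.2 hx)
    (mem_KS_swp.2 hy)

/-- Finite determination for two-tape intersections. -/
theorem FD2 (k : ℕ) (Ψ : Set (PPair C C' B)) (hΨ : ∀ q ∈ Ψ, UD k q.1 ∧ UD k q.2) :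
    ∃ T : Set (PPair C C' B), T.Finite ∧ T ⊆ Ψ ∧ KS T ⊆ KS Ψ := by
  classical
  rcases Ψ.eq_empty_or_nonempty with rfl | ⟨q0, hq0⟩
  · exact ⟨∅, Set.finite_empty, subset_rfl, subset_rfl⟩
  by_cases htriv : ∃ T' : Set (PPair C C' B), T'.Finite ∧ T' ⊆ Ψ ∧ ∀ x ∈ KS T', x = 1
  · obtain ⟨T', f, s, e⟩ := htriv
    refine ⟨T', f, s, ?_⟩
    intro x hx
    rw [e x hx]
    exact one_mem_KS Ψ
  push Not at htriv
  let m : Set (PPair C C' B) → ℕ := fun T => (Br2 k T).ncard + Module.finrank ℚ (Uspan2 k T)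
  have hex : ∃ n, ∃ T : Set (PPair C C' B), T.Nonempty ∧ T.Finite ∧ T ⊆ Ψ ∧ m T = n :=
    ⟨m {q0}, {q0}, Set.singleton_nonempty q0, Set.finite_singleton q0,
      Set.singleton_subset_iff.2 hq0, rfl⟩
  obtain ⟨T, hTne, hTf, hTS, hTm⟩ := Nat.find_spec hex
  have hmin : ∀ T' : Set (PPair C C' B), T'.Nonempty → T'.Finite → T' ⊆ Ψ → m T ≤ m T' := by
    intro T' hn hf hs
    rw [hTm]
    exact Nat.find_min' hex ⟨T', hn, hf, hs, rfl⟩
  have hT : Adm k T := ⟨hTne, fun q hq => hΨ q (hTS hq)⟩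
  refine ⟨T, hTf, hTS, ?_⟩
  intro x hx q hq
  have hTT2 : T ⊆ insert q T := Set.subset_insert q T
  have hT2S : insert q T ⊆ Ψ := Set.insert_subset hq hTS
  have hT2 : Adm k (insert q T) := ⟨Set.insert_nonempty q T, fun p hp => hΨ p (hT2S hp)⟩
  obtain ⟨x2, hx2, hx21⟩ := htriv (insert q T) (hTf.insert q) hT2S
  by_cases hbr : (Br2 k T).Nonempty
  · have hm := hmin (insert q T) (Set.insert_nonempty q T) (hTf.insert q) hT2S
    have h1 : (Br2 k (insert q T)).ncard ≤ (Br2 k T).ncard :=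
      Set.ncard_le_ncard (Br2_mono k hTT2) (Br2_finite k T)
    have h2 : Module.finrank ℚ (Uspan2 k (insert q T)) ≤ Module.finrank ℚ (Uspan2 k T) :=
      Submodule.finrank_mono (Uspan2_mono k hTT2)
    have h3 : Br2 k (insert q T) = Br2 k T := by
      apply Set.eq_of_subset_of_ncard_le (Br2_mono k hTT2) _ (Br2_finite k T)
      simp only [m] at hm; omega
    have h4 : Uspan2 k (insert q T) = Uspan2 k T := by
      apply Submodule.eq_of_le_of_finrank_le (Uspan2_mono k hTT2)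
      simp only [m] at hm; omega
    exact stable_step2 hTT2 hT hT2 (Set.mem_insert q T) h3 h4 ⟨x2, hx2, hx21⟩ hbr hx
  · obtain ⟨r, hr⟩ := hTne
    obtain ⟨c1, c2⟩ := comm_of_no_branching2 hT (Set.not_nonempty_iff_eq_empty.mp hbr) hx
      (KS_mono hTT2 hx2)
    have h0 := KS_one_iff hT2 hx2
    have y1 : x2.1 ≠ 1 := fun h => hx21 (Prod.ext h (h0.1 h))
    have y2 : x2.2 ≠ 1 := fun h => hx21 (Prod.ext (h0.2 h) h)
    refine root_aux (r := r) c1 c2 (hx r hr) (hx2 r (Set.mem_insert_of_mem q hr)) y1 y2 ?_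
      (hx2 q (Set.mem_insert q T))
    rw [Ne, eq_one_iff (hT.ud r hr).1.1]
    exact y1

end

end Pool.Agent.H80.EQ
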