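import Pool.Agent.H80.EQ.TT4
import Pool.Agent.H80.EQ.RunFD

set_option autoImplicit false

namespace Pool.Agent.H80.EQ

open FreeMonoid

variable {A B : Type}

/-- Fixed right factors. -/
theorem FD_fac {C C' : Type} [Fintype C] [Fintype C'] (k : ℕ) (θ : FreeMonoid A →* FreeMonoid C)
    (θ' : FreeMonoid A →* FreeMonoid C') (S : Set (HPair A B))
    (hS : ∀ p ∈ S, ∃ (ψ : FreeMonoid C →* FreeMonoid B) (ψ' : FreeMonoid C' →* FreeMonoid B),
      UD k ψ ∧ UD k ψ' ∧ p.1 = ψ.comp θ ∧ p.2 = ψ'.comp θ') : FD S := by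
  classical
  let Ψ : Set (PPair C C' B) := {q | UD k q.1 ∧ UD k q.2 ∧ (q.1.comp θ, q.2.comp θ') ∈ S}
  obtain ⟨T, hTf, hTS, hTE⟩ := FD2 k Ψ (fun q hq => ⟨hq.1, hq.2.1⟩)
  refine ⟨(fun q : PPair C C' B => (q.1.comp θ, q.2.comp θ')) '' T, hTf.image _, ?_, ?_⟩
  · rintro _ ⟨q, hq, rfl⟩
    exact (hTS hq).2.2
  · intro x hx p hp
    obtain ⟨ψ, ψ', h1, h2, e1, e2⟩ := hS p hp
    have hmem : (ψ, ψ') ∈ Ψ := by
      refine ⟨h1, h2, ?_⟩
      have : (ψ.comp θ, ψ'.comp θ') = p := Prod.ext e1.symm e2.symm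
      simp only
      rw [this]; exact hp
    have hx2 : (θ x, θ' x) ∈ KS T := by
      intro q hq
      exact hx _ ⟨q, hq, rfl⟩
    have := hTE hx2 (ψ, ψ') hmem
    rw [e1, e2]
    exact this

theorem UD_comp_map {C C1 : Type} {k : ℕ} {ψ : FreeMonoid C →* FreeMonoid B} (h : UD k ψ)
    {f : C1 → C} (hf : Function.Injective f) : UD k (ψ.comp (FreeMonoid.map f)) := by
  have hlen : ∀ x : FreeMonoid C1, (FreeMonoid.map f x).length = x.length := by
    intro x
    induction x using FreeMonoid.inductionOn' with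
    | one => simp
    | of_mul a x ih => rw [map_mul, FreeMonoid.length_mul, ih, FreeMonoid.length_mul,
        FreeMonoid.map_of, FreeMonoid.length_of, FreeMonoid.length_of]
  refine ⟨fun a => ?_, ?_⟩
  · rw [MonoidHom.comp_apply, FreeMonoid.map_of]; exact h.1 _
  · rintro p r ⟨hp, hr, a, b, hab, ha, hb⟩
    have hl : Lab k (FreeMonoid.map f p) (FreeMonoid.map f r) := by
      refine ⟨by rw [hlen, hp], by rw [hlen, hr], f a, f b, fun h => hab (hf h), ?_, ?_⟩
      · rw [← FreeMonoid.map_of]; exact map_dvd _ ha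
      · rw [← FreeMonoid.map_of]; exact map_dvd _ hb
    obtain ⟨ζ, c, d, hcd, h1, h2⟩ := h.2 _ _ hl
    refine ⟨ζ, c, d, hcd, fun w hw => ?_, fun w hw => ?_⟩
    · rw [MonoidHom.comp_apply, map_mul] at hw ⊢
      exact h1 _ hw
    · rw [MonoidHom.comp_apply, map_mul] at hw ⊢
      exact h2 _ hw

/-- Normal form of a factorization through a homomorphism with short letter images. -/
theorem norm_fac [Fintype A] {C : Type} {n : ℕ} (θ : FreeMonoid A →* FreeMonoid C)
    (hθ : ∀ a, (θ (of a)).length ≤ n) :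
    ∃ (j : Fin (Fintype.card A * n + 1)) (f : Fin j → C) (θ1 : A → {w : List (Fin j) // w.length ≤ n}),
      Function.Injective f ∧
      θ = (FreeMonoid.map f).comp (FreeMonoid.lift fun a => FreeMonoid.ofList (θ1 a).1) := by
  classical
  let U : Finset C := Finset.univ.biUnion fun a => (toList (θ (of a))).toFinset
  have hU : U.card < Fintype.card A * n + 1 := by
    have h1 : U.card ≤ ∑ a : A, (toList (θ (of a))).toFinset.card := Finset.card_biUnion_le
    have h2 : ∑ a : A, (toList (θ (of a))).toFinset.card ≤ ∑ _a : A, n :=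
      Finset.sum_le_sum fun a _ => (List.toFinset_card_le _).trans (hθ a)
    rw [Finset.sum_const, Finset.card_univ, smul_eq_mul] at h2
    omega
  let e : U ≃ Fin U.card := U.equivFin
  let f : Fin U.card → C := fun i => (e.symm i).1
  have hf : Function.Injective f := fun i j h => e.symm.injective (Subtype.ext h)
  have hex : ∀ a, ∃ l : List (Fin U.card), l.map f = toList (θ (of a)) := by
    intro a
    have key : ∀ l : List C, (∀ x ∈ l, x ∈ U) → ∃ l1 : List (Fin U.card), l1.map f = l := by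
      intro l
      induction l with
      | nil => intro _; exact ⟨[], rfl⟩
      | cons c l ih =>
        intro h
        obtain ⟨l1, h1⟩ := ih fun x hx => h x (List.mem_cons_of_mem _ hx)
        refine ⟨e ⟨c, h c (List.mem_cons_self)⟩ :: l1, ?_⟩
        rw [List.map_cons, h1]
        simp [f]
    apply key
    intro x hx
    exact Finset.mem_biUnion.2 ⟨a, Finset.mem_univ a, List.mem_toFinset.2 hx⟩
  choose l hl using hex
  refine ⟨⟨U.card, hU⟩, f, fun a => ⟨l a, ?_⟩, hf, ?_⟩
  · have := congrArg List.length (hl a)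
    rw [List.length_map] at this
    rw [this]; exact hθ a
  · apply FreeMonoid.hom_eq
    intro a
    rw [MonoidHom.comp_apply, FreeMonoid.lift_eval_of]
    apply toList.injective
    rw [FreeMonoid.toList_map]
    exact (hl a).symm

/-- `g = ψ θ` with `|θ(a)| ≤ n` for all letters `a` and `ψ` uniformly diverging at depth `n`
or of deciphering delay at most `n`. -/
def Tame (n : ℕ) (g : FreeMonoid A →* FreeMonoid B) : Prop :=
  ∃ (C : Type) (θ : FreeMonoid A →* FreeMonoid C) (ψ : FreeMonoid C →* FreeMonoid B),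
    (∀ a, (θ (of a)).length ≤ n) ∧ (Delay n ψ ∨ UD n ψ) ∧ g = ψ.comp θ

/-- The finitely many right factors. -/
abbrev Idx (A : Type) [Fintype A] (n : ℕ) : Type :=
  Σ j : Fin (Fintype.card A * n + 1), A → {w : List (Fin j) // w.length ≤ n}

instance (A : Type) [Fintype A] (n : ℕ) : Finite (Idx A n) := by
  have : ∀ j : Fin (Fintype.card A * n + 1), Finite {w : List (Fin j) // w.length ≤ n} :=
    fun j => (List.finite_length_le (Fin j) n).to_subtype
  infer_instance

/-- The right factor with a given index. -/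
def Idx.hom [Fintype A] {n : ℕ} (i : Idx A n) : FreeMonoid A →* FreeMonoid (Fin i.1) :=
  FreeMonoid.lift fun a => FreeMonoid.ofList (i.2 a).1

theorem Tame.norm [Fintype A] {n : ℕ} {g : FreeMonoid A →* FreeMonoid B} (h : Tame n g) :
    ∃ (i : Idx A n) (ψ : FreeMonoid (Fin i.1) →* FreeMonoid B), UD n ψ ∧ g = ψ.comp i.hom := by
  obtain ⟨C, θ, ψ, h1, h2, h3⟩ := h
  obtain ⟨j, f, θ1, hf, hθ⟩ := norm_fac θ h1
  have hψ : UD n ψ := by
    rcases h2 with h | h
    · exact UD_of_Delay h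
    · exact h
  refine ⟨⟨j, θ1⟩, ψ.comp (FreeMonoid.map f), UD_comp_map hψ hf, ?_⟩
  rw [h3, MonoidHom.comp_assoc]
  congr 1

theorem FD_Tame [Fintype A] (n : ℕ) (S : Set (HPair A B))
    (hS : ∀ p ∈ S, Tame n p.1 ∧ Tame n p.2) : FD S := by
  let P : Idx A n × Idx A n → Set (HPair A B) := fun i => {p ∈ S |
    ∃ (ψ : FreeMonoid (Fin i.1.1) →* FreeMonoid B) (ψ' : FreeMonoid (Fin i.2.1) →* FreeMonoid B),
      UD n ψ ∧ UD n ψ' ∧ p.1 = ψ.comp i.1.hom ∧ p.2 = ψ'.comp i.2.hom}
  have hSP : S = ⋃ i, P i := by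
    ext p
    rw [Set.mem_iUnion]
    constructor
    · intro hp
      obtain ⟨i, ψ, h1, h2⟩ := (hS p hp).1.norm
      obtain ⟨i', ψ', h1', h2'⟩ := (hS p hp).2.norm
      exact ⟨(i, i'), hp, ψ, ψ', h1, h1', h2, h2'⟩
    · rintro ⟨i, hp, -⟩; exact hp
  rw [hSP]
  apply FD_iUnion
  intro i
  exact FD_fac n i.1.hom i.2.hom (P i) fun p hp => hp.2

/-- Linear membership relative to a language. -/
theorem FD_lin_rel [Fintype A] (S : Set (HPair A B)) (L0 : Set (FreeMonoid A))
    (hL : ∃ T0 : Set (HPair A B), T0.Finite ∧ T0 ⊆ S ∧ EqS T0 ⊆ L0)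
    (hS : ∀ q ∈ S, ∃ W : Submodule ℚ (A → ℚ), ∀ x ∈ L0, (q.1 x = q.2 x ↔ par x ∈ W)) :
    FD S := by
  classical
  obtain ⟨T0, hT0f, hT0S, hT0L⟩ := hL
  choose! W hW using hS
  let V : Set (HPair A B) → Submodule ℚ (A → ℚ) := fun T => ⨅ q ∈ T, W q
  have hV : ∀ T ⊆ S, ∀ x ∈ L0, (x ∈ EqS T ↔ par x ∈ V T) := by
    intro T hT x hx0
    simp only [V, Submodule.mem_iInf]
    constructor
    · intro hx q hq; exact (hW q (hT hq) x hx0).1 (hx q hq)
    · intro hx q hq; exact (hW q (hT hq) x hx0).2 (hx q hq)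
  let m : Set (HPair A B) → ℕ := fun T => Module.finrank ℚ (V T)
  have hex : ∃ n, ∃ T : Set (HPair A B), T.Finite ∧ T ⊆ S ∧ m T = n :=
    ⟨m ∅, ∅, Set.finite_empty, Set.empty_subset S, rfl⟩
  obtain ⟨T, hTf, hTS, hTm⟩ := Nat.find_spec hex
  have hmin : ∀ T' : Set (HPair A B), T'.Finite → T' ⊆ S → m T ≤ m T' := by
    intro T' hf hs
    rw [hTm]
    exact Nat.find_min' hex ⟨T', hf, hs, rfl⟩
  refine ⟨T ∪ T0, hTf.union hT0f, Set.union_subset hTS hT0S, ?_⟩
  intro x hx q hq
  have hx0 : x ∈ L0 := hT0L (EqS_mono Set.subset_union_right hx)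
  have hxT : x ∈ EqS T := EqS_mono Set.subset_union_left hx
  have hm := hmin (insert q T) (hTf.insert q) (Set.insert_subset hq hTS)
  have hle : V (insert q T) ≤ V T := by
    simp only [V]
    exact biInf_mono (fun p hp => Set.mem_insert_of_mem q hp)
  have heq : V (insert q T) = V T := Submodule.eq_of_le_of_finrank_le hle hm
  have h1 : x ∈ EqS (insert q T) := by
    rw [hV _ (Set.insert_subset hq hTS) x hx0, heq, ← hV T hTS x hx0]
    exact hxT
  exact h1 q (Set.mem_insert q T)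

/-- Mixed pairs with a fixed right factor of the injective side. -/
theorem FD_mix_fac [Fintype A] {C : Type} (θ : FreeMonoid A →* FreeMonoid C)
    (S : Set (HPair A B))
    (hS : ∀ p ∈ S, ∃ ψ : FreeMonoid C →* FreeMonoid B, Function.Injective ψ ∧
      p.1 = ψ.comp θ ∧ Per p.2) : FD S := by
  rcases S.eq_empty_or_nonempty with rfl | ⟨p0, hp0⟩
  · exact ⟨∅, Set.finite_empty, subset_rfl, subset_rfl⟩
  -- the images under `θ` of the elements of `EqS {p0}` commute
  have hcomm : ∀ x ∈ EqS {p0}, ∀ y ∈ EqS {p0}, θ x * θ y = θ y * θ x := by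
    intro x hx y hy
    obtain ⟨ψ, hψ, e1, w, hw⟩ := hS p0 hp0
    have ex : p0.1 x = p0.2 x := hx p0 (Set.mem_singleton p0)
    have ey : p0.1 y = p0.2 y := hy p0 (Set.mem_singleton p0)
    rw [e1, MonoidHom.comp_apply] at ex ey
    obtain ⟨i, hi⟩ := Per.pow hw x
    obtain ⟨j, hj⟩ := Per.pow hw y
    apply hψ
    rw [map_mul, map_mul, ex, ey, hi, hj, ← pow_add, ← pow_add, add_comm]
  apply FD_lin_rel S (EqS {p0}) ⟨{p0}, Set.finite_singleton p0, Set.singleton_subset_iff.2 hp0,
    subset_rfl⟩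
  intro q hq
  obtain ⟨ψ, hψ, e1, v, hv⟩ := hS q hq
  by_cases htr : ∀ x ∈ EqS {p0}, θ x = 1
  · refine ⟨LinearMap.ker (lenF q.1 - lenF q.2), fun x hx => ?_⟩
    have hq1 : q.1 x = 1 := by rw [e1, MonoidHom.comp_apply, htr x hx, map_one]
    rw [LinearMap.mem_ker, LinearMap.sub_apply, lenF_par, lenF_par, hq1]
    constructor
    · intro h; rw [← h]; simp
    · intro h
      symm
      apply FreeMonoid.length_eq_zero.mp
      have : ((q.2 x).length : ℚ) = 0 := by
        simp only [FreeMonoid.length_one, Nat.cast_zero, zero_sub, neg_eq_zero] at h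
        exact h
      exact_mod_cast this
  · push Not at htr
    obtain ⟨x0, hx0, hne⟩ := htr
    have hL : (θ x0).length ≠ 0 := fun h => hne (FreeMonoid.length_eq_zero.mp h)
    have hpow : ∀ x ∈ EqS {p0}, q.1 x ^ (θ x0).length = ψ (θ x0) ^ (θ x).length := by
      intro x hx
      have h1 : θ x ^ (θ x0).length = θ x0 ^ (θ x).length :=
        eq_of_commute_of_length (((show Commute (θ x) (θ x0) from hcomm x hx x0 hx0).pow_pow _ _).eq)
          (by rw [length_pow', length_pow', mul_comm])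
      rw [e1, MonoidHom.comp_apply, ← map_pow, h1, map_pow]
    by_cases hc : ψ (θ x0) * v = v * ψ (θ x0)
    · refine ⟨LinearMap.ker (lenF q.1 - lenF q.2), fun x hx => ?_⟩
      rw [LinearMap.mem_ker, LinearMap.sub_apply, lenF_par, lenF_par]
      constructor
      · intro h; rw [h]; simp
      · intro h
        have hl : (q.1 x).length = (q.2 x).length := by
          have : ((q.1 x).length : ℚ) = (q.2 x).length := by linarith
          exact_mod_cast this
        obtain ⟨m, hm⟩ := Per.pow hv x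
        apply pow_left_cancel hL
        rw [hpow x hx]
        have hlen : (ψ (θ x0) ^ (θ x).length).length = (q.2 x ^ (θ x0).length).length := by
          rw [← hpow x hx, length_pow', length_pow', hl]
        apply eq_of_commute_of_length _ hlen
        rw [hm, ← pow_mul]
        have hcc : Commute (ψ (θ x0)) v := hc
        exact (hcc.pow_pow _ _).eq
    · refine ⟨LinearMap.ker (lenF q.1) ⊓ LinearMap.ker (lenF q.2), fun x hx => ?_⟩
      rw [Submodule.mem_inf, LinearMap.mem_ker, LinearMap.mem_ker, lenF_par, lenF_par]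
      constructor
      · intro h
        obtain ⟨m, hm⟩ := Per.pow hv x
        have h1 : q.1 x = 1 := by
          by_cases hn0 : (θ x).length = 0
          · rw [e1, MonoidHom.comp_apply, FreeMonoid.length_eq_zero.mp hn0, map_one]
          · by_cases hm0 : m = 0
            · rw [h, hm, hm0, pow_zero]
            · exfalso
              apply hc
              apply commute_of_pow_eq hn0 (mul_ne_zero hm0 hL)
              rw [← hpow x hx, h, hm, ← pow_mul]
        rw [← h, h1]; simp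
      · rintro ⟨h1, h2⟩
        have e1 : q.1 x = 1 := FreeMonoid.length_eq_zero.mp (by exact_mod_cast h1)
        have e2 : q.2 x = 1 := FreeMonoid.length_eq_zero.mp (by exact_mod_cast h2)
        rw [e1, e2]

/-- `g = ψ θ` with `|θ(a)| ≤ n` for all letters `a` and `ψ` injective. -/
def InjTame (n : ℕ) (g : FreeMonoid A →* FreeMonoid B) : Prop :=
  ∃ (C : Type) (θ : FreeMonoid A →* FreeMonoid C) (ψ : FreeMonoid C →* FreeMonoid B),
    (∀ a, (θ (of a)).length ≤ n) ∧ Function.Injective ψ ∧ g = ψ.comp θ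

theorem map_injective' {C C1 : Type} {f : C1 → C} (hf : Function.Injective f) :
    Function.Injective (FreeMonoid.map f) := by
  intro x y h
  apply toList.injective
  have := congrArg toList h
  rw [FreeMonoid.toList_map, FreeMonoid.toList_map] at this
  exact (List.map_injective_iff.2 hf) this

theorem InjTame.norm [Fintype A] {n : ℕ} {g : FreeMonoid A →* FreeMonoid B} (h : InjTame n g) :
    ∃ (i : Idx A n) (ψ : FreeMonoid (Fin i.1) →* FreeMonoid B), Function.Injective ψ ∧
      g = ψ.comp i.hom := by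
  obtain ⟨C, θ, ψ, h1, h2, h3⟩ := h
  obtain ⟨j, f, θ1, hf, hθ⟩ := norm_fac θ h1
  refine ⟨⟨j, θ1⟩, ψ.comp (FreeMonoid.map f), h2.comp (map_injective' hf), ?_⟩
  rw [h3, MonoidHom.comp_assoc]
  congr 1

theorem FD_mix [Fintype A] (n : ℕ) (S : Set (HPair A B))
    (hS : ∀ p ∈ S, InjTame n p.1 ∧ Per p.2) : FD S := by
  let P : Idx A n → Set (HPair A B) := fun i => {p ∈ S |
    ∃ ψ : FreeMonoid (Fin i.1) →* FreeMonoid B, Function.Injective ψ ∧ p.1 = ψ.comp i.hom ∧
      Per p.2}
  have hSP : S = ⋃ i, P i := by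
    ext p
    rw [Set.mem_iUnion]
    constructor
    · intro hp
      obtain ⟨i, ψ, h1, h2⟩ := (hS p hp).1.norm
      exact ⟨i, hp, ψ, h1, h2, (hS p hp).2⟩
    · rintro ⟨i, hp, -⟩; exact hp
  rw [hSP]
  apply FD_iUnion
  intro i
  exact FD_mix_fac i.hom (P i) fun p hp => hp.2

theorem FD_swap (S : Set (HPair A B)) (h : FD (Prod.swap '' S)) : FD S := by
  obtain ⟨T, hTf, hTS, hTE⟩ := h
  obtain ⟨T', hT'S, hT'f, rfl⟩ := Set.exists_subset_image_finite_and.mp ⟨T, hTS, hTf, rfl⟩
  refine ⟨T', hT'f, hT'S, ?_⟩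
  intro x hx q hq
  have h1 : x ∈ EqS (Prod.swap '' T') := by
    rintro _ ⟨p, hp, rfl⟩
    exact (hx p hp).symm
  exact (hTE h1 q.swap ⟨q, hq, rfl⟩).symm

/-- Up to a common injective left factor. -/
theorem FD_Tame_inj [Fintype A] (n : ℕ) {D : Type} (S : Set (HPair A D))
    (hS : ∀ p ∈ S, ∃ (χ : FreeMonoid B →* FreeMonoid D) (g h : FreeMonoid A →* FreeMonoid B),
      Function.Injective χ ∧ p.1 = χ.comp g ∧ p.2 = χ.comp h ∧ Tame n g ∧ Tame n h) : FD S := by
  classical
  have h : ∀ p : HPair A D, ∃ r : HPair A B, p ∈ S →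
      (∀ x, p.1 x = p.2 x ↔ r.1 x = r.2 x) ∧ Tame n r.1 ∧ Tame n r.2 := by
    intro p
    by_cases hp : p ∈ S
    · obtain ⟨χ, g, h, hχ, h1, h2, h3⟩ := hS p hp
      refine ⟨(g, h), fun _ => ⟨fun x => ?_, h3⟩⟩
      rw [h1, h2]
      exact hχ.eq_iff
    · exact ⟨(1, 1), fun h => absurd h hp⟩
  choose F hF using h
  apply FD_of_map S F (fun q hq => (hF q hq).1)
  apply FD_Tame n
  rintro _ ⟨q, hq, rfl⟩
  exact (hF q hq).2

end Pool.Agent.H80.EQ
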