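import Mathlib

set_option autoImplicit false

/-!
Basic facts on free monoids; `u ∣ v` is the prefix relation.
-/

namespace Pool.Agent.H80.EQ

open FreeMonoid

variable {A B : Type}

theorem dvd_iff_prefix (u v : FreeMonoid A) : u ∣ v ↔ u.toList <+: v.toList := by
  constructor
  · rintro ⟨c, rfl⟩
    exact ⟨c.toList, by rw [FreeMonoid.toList_mul]⟩
  · rintro ⟨t, ht⟩
    refine ⟨FreeMonoid.ofList t, ?_⟩
    apply FreeMonoid.toList.injective
    rw [FreeMonoid.toList_mul, FreeMonoid.toList_ofList]
    exact ht.symm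

theorem length_toList (u : FreeMonoid A) : u.toList.length = u.length := rfl

theorem length_le_of_dvd {u v : FreeMonoid A} (h : u ∣ v) : u.length ≤ v.length := by
  obtain ⟨c, rfl⟩ := h
  rw [FreeMonoid.length_mul]; omega

theorem dvd_of_dvd_of_le {u v w : FreeMonoid A} (hu : u ∣ w) (hv : v ∣ w)
    (h : u.length ≤ v.length) : u ∣ v := by
  rw [dvd_iff_prefix] at *
  exact List.prefix_of_prefix_length_le hu hv h

theorem eq_of_dvd_of_length {u v : FreeMonoid A} (hu : u ∣ v) (h : u.length = v.length) :
    u = v := by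
  obtain ⟨c, rfl⟩ := hu
  rw [FreeMonoid.length_mul] at h
  have : c = 1 := FreeMonoid.length_eq_zero.mp (by omega)
  rw [this, mul_one]

theorem eq_of_dvd_dvd {u v w : FreeMonoid A} (hu : u ∣ w) (hv : v ∣ w)
    (h : u.length = v.length) : u = v :=
  eq_of_dvd_of_length (dvd_of_dvd_of_le hu hv h.le) h

theorem of_ne_of_dvd {u w : FreeMonoid A} {a b : A} (ha : u * of a ∣ w) (hb : u * of b ∣ w) :
    a = b := by
  have h := eq_of_dvd_dvd ha hb (by simp [FreeMonoid.length_mul])
  have h2 := mul_left_cancel h
  exact FreeMonoid.of_injective h2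

theorem diverge_list : ∀ (x y : List A), ¬ x <+: y → ¬ y <+: x →
    ∃ (z : List A) (a b : A) (x' y' : List A), a ≠ b ∧ x = z ++ a :: x' ∧ y = z ++ b :: y'
  | [], y, h1, _ => absurd List.nil_prefix h1
  | _ :: _, [], _, h2 => absurd List.nil_prefix h2
  | a :: x, b :: y, h1, h2 => by
    by_cases hab : a = b
    · subst hab
      have h1' : ¬ x <+: y := fun h => h1 (by simpa [List.cons_prefix_cons] using h)
      have h2' : ¬ y <+: x := fun h => h2 (by simpa [List.cons_prefix_cons] using h)
      obtain ⟨z, c, d, x', y', hcd, hx, hy⟩ := diverge_list x y h1' h2'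
      exact ⟨a :: z, c, d, x', y', hcd, by simp [hx], by simp [hy]⟩
    · exact ⟨[], a, b, x, y, hab, rfl, rfl⟩

theorem diverge {x y : FreeMonoid A} (h1 : ¬ x ∣ y) (h2 : ¬ y ∣ x) :
    ∃ (z : FreeMonoid A) (a b : A), a ≠ b ∧ z * of a ∣ x ∧ z * of b ∣ y := by
  rw [dvd_iff_prefix] at h1 h2
  obtain ⟨z, a, b, x', y', hab, hx, hy⟩ := diverge_list _ _ h1 h2
  refine ⟨FreeMonoid.ofList z, a, b, hab, ⟨FreeMonoid.ofList x', ?_⟩, ⟨FreeMonoid.ofList y', ?_⟩⟩
  · apply FreeMonoid.toList.injective
    rw [hx]; simp [FreeMonoid.toList_mul, FreeMonoid.toList_of]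
  · apply FreeMonoid.toList.injective
    rw [hy]; simp [FreeMonoid.toList_mul, FreeMonoid.toList_of]

theorem diverge_of_le {x y : FreeMonoid A} (h1 : ¬ x ∣ y) (hl : x.length ≤ y.length) :
    ∃ (z : FreeMonoid A) (a b : A), a ≠ b ∧ z * of a ∣ x ∧ z * of b ∣ y := by
  apply diverge h1
  intro h2
  have := length_le_of_dvd h2
  exact h1 (by rw [eq_of_dvd_of_length h2 (by omega)])

theorem exists_take (x : FreeMonoid A) (n : ℕ) (h : n ≤ x.length) :
    ∃ p : FreeMonoid A, p ∣ x ∧ p.length = n := by
  refine ⟨FreeMonoid.ofList (x.toList.take n), ?_, ?_⟩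
  · rw [dvd_iff_prefix, FreeMonoid.toList_ofList]
    exact List.take_prefix _ _
  · change (x.toList.take n).length = n
    rw [List.length_take]
    have : x.toList.length = x.length := rfl
    omega

theorem exists_head (x : FreeMonoid A) (h : 0 < x.length) : ∃ a, of a ∣ x := by
  obtain ⟨p, hp, hl⟩ := exists_take x 1 h
  obtain ⟨a, rfl⟩ := FreeMonoid.length_eq_one.mp hl
  exact ⟨a, hp⟩

theorem head_unique {x : FreeMonoid A} {a b : A} (ha : of a ∣ x) (hb : of b ∣ x) : a = b := by
  apply of_ne_of_dvd (u := 1) (w := x) <;> simpa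

/-- Two pairs `(a, b)`, `(a', b')` with a common completion have the same completions. -/
theorem transfer {a b a' b' u v s t : FreeMonoid A} (h1 : a * u = b * v) (h2 : a' * u = b' * v)
    (h3 : a * s = b * t) : a' * s = b' * t := by
  rcases le_total b.length a.length with h | h
  · have hba : b ∣ a := dvd_of_dvd_of_le (w := a * u) ⟨v, h1⟩ ⟨u, rfl⟩ h
    obtain ⟨ω, rfl⟩ := hba
    have e1 : ω * u = v := mul_left_cancel (by rw [← mul_assoc]; exact h1)
    have e2 : a' = b' * ω := by
      rw [← e1, ← mul_assoc] at h2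
      exact mul_right_cancel h2
    have e3 : ω * s = t := mul_left_cancel (by rw [← mul_assoc]; exact h3)
    rw [e2, mul_assoc, e3]
  · have hab : a ∣ b := dvd_of_dvd_of_le (w := a * u) ⟨u, rfl⟩ ⟨v, h1⟩ h
    obtain ⟨ω, rfl⟩ := hab
    have e1 : u = ω * v := mul_left_cancel (a := a) (by rw [← mul_assoc]; exact h1)
    have e2 : a' * ω = b' := by
      rw [e1, ← mul_assoc] at h2
      exact mul_right_cancel h2
    have e3 : s = ω * t := mul_left_cancel (a := a) (by rw [← mul_assoc]; exact h3)
    rw [← e2, e3, mul_assoc]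

theorem length_pow' (u : FreeMonoid A) (k : ℕ) : (u ^ k).length = k * u.length := by
  induction k with
  | zero => simp
  | succ k ih => rw [pow_succ, FreeMonoid.length_mul, ih]; ring

/-- Commuting words of equal length are equal. -/
theorem eq_of_commute_of_length {u v : FreeMonoid A} (h : u * v = v * u)
    (hl : u.length = v.length) : u = v :=
  eq_of_dvd_dvd (w := u * v) ⟨v, rfl⟩ ⟨u, h⟩ hl

theorem length_le_map (g : FreeMonoid A →* FreeMonoid B) (hg : ∀ a, g (of a) ≠ 1)
    (x : FreeMonoid A) : x.length ≤ (g x).length := by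
  induction x using FreeMonoid.inductionOn' with
  | one => simp
  | of_mul a x ih =>
    rw [map_mul, FreeMonoid.length_mul, FreeMonoid.length_mul, FreeMonoid.length_of]
    have : (g (of a)).length ≠ 0 := fun h => hg a (FreeMonoid.length_eq_zero.mp h)
    omega

section Parikh

variable [Fintype A]

open Classical in
/-- The Parikh vector. -/
noncomputable def par (x : FreeMonoid A) : A → ℚ := fun a => (x.toList.count a : ℚ)

/-- The length of the image as a linear functional of the Parikh vector. -/
noncomputable def lenF (g : FreeMonoid A →* FreeMonoid B) : (A → ℚ) →ₗ[ℚ] ℚ :=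
  ∑ a : A, ((g (of a)).length : ℚ) • LinearMap.proj a

theorem lenF_par (g : FreeMonoid A →* FreeMonoid B) (x : FreeMonoid A) :
    lenF g (par x) = (g x).length := by
  classical
  induction x using FreeMonoid.inductionOn' with
  | one => simp [lenF, par]
  | of_mul a x ih =>
    have hpar : par (of a * x) = par (of a) + par x := by
      funext c
      unfold par
      rw [Pi.add_apply, FreeMonoid.toList_mul, List.count_append]
      push_cast
      rfl
    rw [hpar, map_add, ih, map_mul, FreeMonoid.length_mul]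
    push_cast
    congr 1
    unfold lenF par
    simp only [LinearMap.sum_apply, LinearMap.smul_apply, LinearMap.proj_apply, smul_eq_mul,
      FreeMonoid.toList_of]
    rw [Finset.sum_eq_single a]
    · simp
    · intro b _ hb
      simp [List.count_cons, Ne.symm hb]
    · intro h; exact absurd (Finset.mem_univ a) h

end Parikh

end Pool.Agent.H80.EQ
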